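import Pool.Agent.H47.Vin.L

/-!
# Combs `Gc`, `Hc`, the cut `phi` (definition)
-/

namespace Pool.Agent.H47.Vin

open scoped BigOperators

theorem co_tsum {ι : Type*} {a : ι → W} (h : Summable a) (n : ℤ) :
    HasSum (fun i => co (a i) n) (co (∑' i, a i) n) := by
  let L : W →ₗ[ℂ] ℂ :=
    { toFun := fun f => co f n
      map_add' := fun f g => co_add f g n
      map_smul' := fun c f => co_smul c f n }
  exact h.hasSum.map L.toAddMonoidHom (continuous_co n)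

theorem ev_tsum {ι : Type*} {a : ι → W} (h : Summable a) (t : ℝ) :
    HasSum (fun i => ev t (a i)) (ev t (∑' i, a i)) :=
  h.hasSum.map (evHom t).toRingHom.toAddMonoidHom (continuous_ev t)

theorem Ge.tsum {ι : Type*} {a : ι → W} {ν : ℤ} (h : ∀ i, Ge ν (a i)) : Ge ν (∑' i, a i) := by
  by_cases hs : Summable a
  · exact (isClosed_ge ν).mem_of_tendsto hs.hasSum
      (Filter.Eventually.of_forall fun s => Ge.sum s a fun i _ => h i)
  · rw [tsum_eq_zero_of_not_summable hs]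
    exact ge_zero ν

/-- signed comb -/
noncomputable def Gc (M : ℕ) (x : ℝ) : W :=
  ∑' l : ℕ, ((x * (-(1 - x)) ^ l : ℝ) : ℂ) • mono ((M * l : ℕ) : ℤ)

/-- positive comb -/
noncomputable def Hc (M : ℕ) (x : ℝ) : W :=
  ∑' l : ℕ, ((x * (1 - x) ^ l : ℝ) : ℂ) • mono ((M * l : ℕ) : ℤ)

variable {M : ℕ} {x : ℝ}

theorem hasSum_geo (h0 : 0 < x) (h1 : x ≤ 1) : HasSum (fun l : ℕ => x * (1 - x) ^ l) 1 := by
  have h := (hasSum_geometric_of_lt_one (r := 1 - x) (by linarith) (by linarith)).mul_left x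
  rwa [sub_sub_cancel, mul_inv_cancel₀ h0.ne'] at h

theorem norm_Hc_term (h0 : 0 < x) (h1 : x ≤ 1) (l : ℕ) :
    ‖((x * (1 - x) ^ l : ℝ) : ℂ) • mono ((M * l : ℕ) : ℤ)‖ = x * (1 - x) ^ l := by
  rw [norm_smul, norm_mono, mul_one, Complex.norm_real, Real.norm_of_nonneg]
  have : 0 ≤ 1 - x := by linarith
  positivity

theorem norm_Gc_term (h0 : 0 < x) (h1 : x ≤ 1) (l : ℕ) :
    ‖((x * (-(1 - x)) ^ l : ℝ) : ℂ) • mono ((M * l : ℕ) : ℤ)‖ = x * (1 - x) ^ l := by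
  rw [norm_smul, norm_mono, mul_one, Complex.norm_real, norm_mul, norm_pow, norm_neg,
    Real.norm_of_nonneg h0.le, Real.norm_of_nonneg (by linarith)]

theorem summable_Hc (h0 : 0 < x) (h1 : x ≤ 1) :
    Summable (fun l : ℕ => ((x * (1 - x) ^ l : ℝ) : ℂ) • mono ((M * l : ℕ) : ℤ)) :=
  Summable.of_norm ((hasSum_geo h0 h1).summable.congr fun l => (norm_Hc_term h0 h1 l).symm)

theorem summable_Gc (h0 : 0 < x) (h1 : x ≤ 1) :
    Summable (fun l : ℕ => ((x * (-(1 - x)) ^ l : ℝ) : ℂ) • mono ((M * l : ℕ) : ℤ)) :=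
  Summable.of_norm ((hasSum_geo h0 h1).summable.congr fun l => (norm_Gc_term h0 h1 l).symm)

theorem norm_Gc_le (h0 : 0 < x) (h1 : x ≤ 1) : ‖Gc M x‖ ≤ 1 :=
  tsum_of_norm_bounded (hasSum_geo h0 h1) fun l => (norm_Gc_term h0 h1 l).le

theorem norm_Hc_le (h0 : 0 < x) (h1 : x ≤ 1) : ‖Hc M x‖ ≤ 1 :=
  tsum_of_norm_bounded (hasSum_geo h0 h1) fun l => (norm_Hc_term h0 h1 l).le

theorem pos_Hc (h0 : 0 < x) (h1 : x ≤ 1) : Pos (Hc M x) :=
  Pos.tsum fun l => (pos_mono _).smul (by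
    have : 0 ≤ 1 - x := by linarith
    positivity)

theorem ge_Gc (M : ℕ) (x : ℝ) : Ge 0 (Gc M x) :=
  Ge.tsum fun l => (Ge.mono_le (by positivity) (ge_mono _)).smul _

theorem ge_Hc (M : ℕ) (x : ℝ) : Ge 0 (Hc M x) :=
  Ge.tsum fun l => (Ge.mono_le (by positivity) (ge_mono _)).smul _

theorem dom_ab_Gc (h0 : 0 < x) (h1 : x ≤ 1) : Dom (ab (Gc M x)) (Hc M x) := by
  rw [dom_iff]
  intro n
  have hG := co_tsum (summable_Gc (M := M) h0 h1) n
  have hH := co_tsum (summable_Hc (M := M) h0 h1) n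
  have hx : 0 ≤ 1 - x := by linarith
  have hreal : ∀ l : ℕ, co (((x * (1 - x) ^ l : ℝ) : ℂ) • mono ((M * l : ℕ) : ℤ)) n
      = ((x * (1 - x) ^ l * (if n = ((M * l : ℕ) : ℤ) then 1 else 0) : ℝ) : ℂ) := fun l => by
    rw [co_smul, co_mono]
    split_ifs <;> simp
  have hle : ∀ l : ℕ, ‖co (((x * (-(1 - x)) ^ l : ℝ) : ℂ) • mono ((M * l : ℕ) : ℤ)) n‖
      ≤ x * (1 - x) ^ l * (if n = ((M * l : ℕ) : ℤ) then 1 else 0) := fun l => by
    rw [co_smul, co_mono, norm_mul, Complex.norm_real, norm_mul, norm_pow, norm_neg,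
      Real.norm_of_nonneg h0.le, Real.norm_of_nonneg hx]
    split_ifs <;> simp
  have hHs : HasSum (fun l : ℕ => x * (1 - x) ^ l * (if n = ((M * l : ℕ) : ℤ) then (1:ℝ) else 0))
      (co (Hc M x) n).re := by
    have h := Complex.hasSum_re hH
    simp only [hreal, Complex.ofReal_re] at h
    exact h
  refine ⟨?_, ?_⟩
  · rw [co_ab, Complex.ofReal_re]
    have := tsum_of_norm_bounded hHs hle
    rwa [hG.tsum_eq] at this
  · rw [co_ab, Complex.ofReal_im, (pos_Hc h0 h1 n).2]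

theorem norm_expM (M : ℕ) (t : ℝ) : ‖ev t (mono (M : ℤ))‖ = 1 := by
  rw [ev_mono, show (((M : ℤ) : ℂ)) * (t * Complex.I) = (((M : ℝ) * t : ℝ) : ℂ) * Complex.I by
    push_cast; ring, Complex.norm_exp_ofReal_mul_I]

theorem ev_mono_mul_nat (M l : ℕ) (t : ℝ) :
    ev t (mono ((M * l : ℕ) : ℤ)) = ev t (mono (M : ℤ)) ^ l := by
  rw [ev_mono, ev_mono, ← Complex.exp_nat_mul]
  congr 1
  push_cast
  ring

theorem one_add_ne (h0 : 0 < x) (h1 : x ≤ 1) {w : ℂ} (hw : ‖w‖ = 1) :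
    1 + ((1 - x : ℝ) : ℂ) * w ≠ 0 := by
  intro h
  have h2 : ‖((1 - x : ℝ) : ℂ) * w‖ = 1 := by
    rw [eq_neg_of_add_eq_zero_right h, norm_neg, norm_one]
  rw [norm_mul, hw, mul_one, Complex.norm_real, Real.norm_of_nonneg (by linarith)] at h2
  linarith

theorem ev_Gc (h0 : 0 < x) (h1 : x ≤ 1) (t : ℝ) :
    ev t (Gc M x) = (x : ℂ) / (1 + ((1 - x : ℝ) : ℂ) * ev t (mono (M : ℤ))) := by
  have hs := ev_tsum (summable_Gc (M := M) h0 h1) t
  have hw := norm_expM M t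
  set w := ev t (mono (M : ℤ)) with hwdef
  have hn : ‖-(((1 - x : ℝ) : ℂ) * w)‖ < 1 := by
    rw [norm_neg, norm_mul, hw, mul_one, Complex.norm_real, Real.norm_of_nonneg (by linarith)]
    linarith
  have h := (hasSum_geometric_of_norm_lt_one hn).mul_left (x : ℂ)
  have hfun : (fun l : ℕ => ev t (((x * (-(1 - x)) ^ l : ℝ) : ℂ) • mono ((M * l : ℕ) : ℤ)))
      = fun l : ℕ => (x : ℂ) * (-(((1 - x : ℝ) : ℂ) * w)) ^ l := by
    funext l
    rw [ev_smul', ev_mono_mul_nat, ← hwdef]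
    push_cast
    rw [← neg_mul, mul_pow]
    ring
  rw [hfun] at hs
  have := hs.unique h
  rw [sub_neg_eq_add] at this
  rw [div_eq_mul_inv]
  exact this

theorem ev_Hc (h0 : 0 < x) (h1 : x ≤ 1) (t : ℝ) :
    ev t (Hc M x) = (x : ℂ) / (1 - ((1 - x : ℝ) : ℂ) * ev t (mono (M : ℤ))) := by
  have hs := ev_tsum (summable_Hc (M := M) h0 h1) t
  have hw := norm_expM M t
  set w := ev t (mono (M : ℤ)) with hwdef
  have hn : ‖((1 - x : ℝ) : ℂ) * w‖ < 1 := by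
    rw [norm_mul, hw, mul_one, Complex.norm_real, Real.norm_of_nonneg (by linarith)]
    linarith
  have h := (hasSum_geometric_of_norm_lt_one hn).mul_left (x : ℂ)
  have hfun : (fun l : ℕ => ev t (((x * (1 - x) ^ l : ℝ) : ℂ) • mono ((M * l : ℕ) : ℤ)))
      = fun l : ℕ => (x : ℂ) * (((1 - x : ℝ) : ℂ) * w) ^ l := by
    funext l
    rw [ev_smul', ev_mono_mul_nat, ← hwdef]
    push_cast
    rw [mul_pow]
    ring
  rw [hfun] at hs
  rw [div_eq_mul_inv]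
  exact hs.unique h

/-- defining identity of the comb -/
theorem Gc_identity (h0 : 0 < x) (h1 : x ≤ 1) :
    (1 + ((1 - x : ℝ) : ℂ) • mono (M : ℤ)) * Gc M x = ((x : ℝ) : ℂ) • 1 := by
  refine ext_ev fun t => ?_
  rw [ev_mul', ev_add, ev_one', ev_smul', ev_Gc h0 h1, ev_smul', ev_one', mul_one]
  exact mul_div_cancel₀ _ (one_add_ne h0 h1 (norm_expM M t))

theorem Gc_one : Gc M 1 = 1 := by
  refine ext_ev fun t => ?_
  rw [ev_Gc one_pos le_rfl, ev_one']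
  simp

theorem Hc_one : Hc M 1 = 1 := by
  refine ext_ev fun t => ?_
  rw [ev_Hc one_pos le_rfl, ev_one']
  simp

/-! ### definition of the cut -/

/-- kernel of the indicator function of `|t| < T` -/
noncomputable def cc (T : ℝ) (n : ℤ) : ℝ :=
  if n = 0 then T / Real.pi else Real.sin (n * T) / (Real.pi * n)

/-- scale -/
noncomputable def Tp (p : ℕ) : ℝ := 2 * Real.pi / 2 ^ p

theorem Tp_pos (p : ℕ) : 0 < Tp p := by
  unfold Tp; have := Real.pi_pos; positivity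

theorem Tp_le_pi {p : ℕ} (hp : 1 ≤ p) : Tp p ≤ Real.pi := by
  unfold Tp
  have h : (2:ℝ) ≤ 2 ^ p := by
    calc (2:ℝ) = 2 ^ 1 := by norm_num
      _ ≤ 2 ^ p := pow_le_pow_right₀ (by norm_num) hp
  rw [div_le_iff₀ (by positivity)]
  nlinarith [Real.pi_pos]

theorem Tp_add (p d : ℕ) : Tp (p + d) = Tp p / 2 ^ d := by
  unfold Tp; rw [pow_add, div_div]

theorem Tp_anti {p q : ℕ} (h : p ≤ q) : Tp q ≤ Tp p := by
  unfold Tp
  have := Real.pi_pos
  exact div_le_div_of_nonneg_left (by positivity) (by positivity)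
    (pow_le_pow_right₀ (by norm_num) h)

open Classical in
/-- the cut symbol `(1 - z ^ (2 ^ m)) 1_{|t| < Tp p}`, for `p ≤ m` -/
noncomputable def phi (p m : ℕ) : W :=
  if h : Summable (fun n : ℤ => ‖((cc (Tp p) n - cc (Tp p) (n - 2 ^ m) : ℝ) : ℂ)‖) then
    mkW (fun n : ℤ => ((cc (Tp p) n - cc (Tp p) (n - 2 ^ m) : ℝ) : ℂ)) h else 0

theorem abs_cc_le (T : ℝ) (n : ℤ) (hn : n ≠ 0) : |cc T n| ≤ 1 / (Real.pi * |(n:ℝ)|) := by
  unfold cc
  rw [if_neg hn, abs_div, abs_mul, abs_of_pos Real.pi_pos]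
  exact div_le_div_of_nonneg_right (Real.abs_sin_le_one _) (by positivity)

theorem sin_shift {p m : ℕ} (h : p ≤ m) (n : ℤ) :
    Real.sin (((n - 2 ^ m : ℤ) : ℝ) * Tp p) = Real.sin (n * Tp p) := by
  obtain ⟨d, rfl⟩ := Nat.exists_eq_add_of_le h
  have : ((n - 2 ^ (p + d) : ℤ) : ℝ) * Tp p = n * Tp p - ((2 ^ d : ℕ) : ℝ) * (2 * Real.pi) := by
    unfold Tp
    push_cast
    rw [pow_add]
    field_simp
  rw [this, Real.sin_sub_nat_mul_two_pi]

theorem phi_coef {p m : ℕ} (h : p ≤ m) (n : ℤ) (h0 : n ≠ 0) (h1 : n ≠ 2 ^ m) :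
    cc (Tp p) n - cc (Tp p) (n - 2 ^ m)
      = - Real.sin (n * Tp p) * 2 ^ m / (Real.pi * n * (n - 2 ^ m)) := by
  have h2 : n - 2 ^ m ≠ 0 := sub_ne_zero.2 h1
  have h3 : (n : ℝ) ≠ 0 := by exact_mod_cast h0
  have h4 : (n : ℝ) - 2 ^ m ≠ 0 := by exact_mod_cast h2
  unfold cc
  rw [if_neg h0, if_neg h2, sin_shift h]
  have := Real.pi_ne_zero
  push_cast
  field_simp
  ring

theorem phi_coef_le {p m : ℕ} (h : p ≤ m) (n : ℤ) (h0 : n ≠ 0) (h1 : n ≠ 2 ^ m) :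
    |cc (Tp p) n - cc (Tp p) (n - 2 ^ m)| ≤ 2 ^ m / (Real.pi * |(n : ℝ)| * |(n : ℝ) - 2 ^ m|) := by
  rw [phi_coef h n h0 h1, abs_div, abs_mul, abs_mul, abs_mul, abs_neg, abs_of_pos Real.pi_pos,
    abs_of_pos (by positivity : (0:ℝ) < 2 ^ m)]
  refine div_le_div_of_nonneg_right ?_ (by positivity)
  exact mul_le_of_le_one_left (by positivity) (Real.abs_sin_le_one _)

theorem summable_phi {p m : ℕ} (h : p ≤ m) :
    Summable (fun n : ℤ => ‖((cc (Tp p) n - cc (Tp p) (n - 2 ^ m) : ℝ) : ℂ)‖) := by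
  have hs : Summable (fun n : ℤ => (2:ℝ) ^ m * 2 * (1 / ((n : ℝ) ^ 2))) := by
    have := (Real.summable_one_div_int_pow (p := 2)).2 (by norm_num)
    exact this.mul_left _
  refine Summable.of_norm_bounded_eventually hs ?_
  rw [Filter.eventually_cofinite]
  refine (Set.finite_Icc (-(2 * 2 ^ m) : ℤ) (2 * 2 ^ m)).subset fun n hn => ?_
  by_contra hcon
  apply hn
  have hM : (0 : ℤ) < 2 ^ m := by positivity
  have habs : (2 * 2 ^ m : ℤ) < |n| := by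
    by_contra h'
    push Not at h'
    exact hcon (abs_le.1 h')
  have h0 : n ≠ 0 := by
    rintro rfl
    rw [abs_zero] at habs
    linarith
  have h1 : n ≠ 2 ^ m := by
    rintro rfl
    rw [abs_of_pos hM] at habs
    linarith
  rw [norm_norm, Complex.norm_real, Real.norm_eq_abs]
  refine (phi_coef_le h n h0 h1).trans ?_
  have hR : (2 * 2 ^ m : ℝ) < |(n : ℝ)| := by exact_mod_cast habs
  have hRM : (0:ℝ) < 2 ^ m := by positivity
  have h2 : |(n : ℝ)| / 2 ≤ |(n : ℝ) - 2 ^ m| := by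
    have := abs_sub_abs_le_abs_sub (n : ℝ) (2 ^ m)
    rw [abs_of_pos hRM] at this
    linarith
  have hn0 : 0 < |(n : ℝ)| := by linarith
  have hn1 : 0 < |(n : ℝ) - 2 ^ m| := by linarith
  rw [mul_assoc ((2:ℝ) ^ m), mul_one_div, div_eq_mul_one_div]
  refine mul_le_mul_of_nonneg_left ?_ hRM.le
  rw [div_le_div_iff₀ (by positivity) (by positivity)]
  have h3 : (n : ℝ) ^ 2 = |(n:ℝ)| * |(n:ℝ)| := by rw [← sq, sq_abs]
  rw [h3]
  have h4 : |(n:ℝ)| * |(n:ℝ)| ≤ |(n:ℝ)| * (2 * |(n:ℝ) - 2 ^ m|) :=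
    mul_le_mul_of_nonneg_left (by linarith) hn0.le
  have hpi := Real.pi_gt_three
  have h5 : 0 ≤ |(n:ℝ)| * |(n:ℝ) - 2 ^ m| := by positivity
  nlinarith

theorem co_phi {p m : ℕ} (h : p ≤ m) (n : ℤ) :
    co (phi p m) n = ((cc (Tp p) n - cc (Tp p) (n - 2 ^ m) : ℝ) : ℂ) := by
  unfold phi
  rw [dif_pos (summable_phi h), co_mk]

end Pool.Agent.H47.Vin
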