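import Mathlib

/-!
# The Wiener algebra `W = l^1(Z)` with convolution
-/

set_option linter.unusedSectionVars false

namespace Pool.Agent.H47.Vin

open scoped BigOperators ENNReal

/-- absolutely summable bilateral sequences of complex numbers -/
def W : Type := lp (fun _ : ℤ => ℂ) 1

noncomputable instance : NormedAddCommGroup W :=
  inferInstanceAs (NormedAddCommGroup (lp (fun _ : ℤ => ℂ) 1))

noncomputable instance : NormedSpace ℂ W :=
  inferInstanceAs (NormedSpace ℂ (lp (fun _ : ℤ => ℂ) 1))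

instance : CompleteSpace W :=
  inferInstanceAs (CompleteSpace (lp (fun _ : ℤ => ℂ) 1))

/-- the `n`-th coefficient -/
def co (f : W) (n : ℤ) : ℂ := (show lp (fun _ : ℤ => ℂ) 1 from f).1 n

theorem ext_co {f g : W} (h : ∀ n, co f n = co g n) : f = g := by
  apply Subtype.ext
  funext n
  exact h n

theorem co_add (f g : W) (n : ℤ) : co (f + g) n = co f n + co g n := rfl
theorem co_sub (f g : W) (n : ℤ) : co (f - g) n = co f n - co g n := rfl
theorem co_neg (f : W) (n : ℤ) : co (-f) n = -co f n := rfl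
theorem co_zero (n : ℤ) : co (0 : W) n = 0 := rfl
theorem co_smul (c : ℂ) (f : W) (n : ℤ) : co (c • f) n = c * co f n := rfl

theorem summable_co (f : W) : Summable (fun n => ‖co f n‖) := by
  have h := (lp.hasSum_norm (p := 1) (by simp) (show lp (fun _ : ℤ => ℂ) 1 from f)).summable
  simp only [ENNReal.toReal_one, Real.rpow_one] at h
  exact h

theorem norm_eq (f : W) : ‖f‖ = ∑' n, ‖co f n‖ := by
  have h := lp.norm_eq_tsum_rpow (p := 1) (by simp) (show lp (fun _ : ℤ => ℂ) 1 from f)
  simp only [ENNReal.toReal_one, Real.rpow_one, div_one] at h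
  exact h

theorem norm_co_le (f : W) (n : ℤ) : ‖co f n‖ ≤ ‖f‖ := by
  rw [norm_eq]
  exact (summable_co f).le_tsum n fun _ _ => norm_nonneg _

/-- build an element from a summable sequence -/
noncomputable def mkW (c : ℤ → ℂ) (h : Summable (fun n => ‖c n‖)) : W :=
  show lp (fun _ : ℤ => ℂ) 1 from ⟨c, memℓp_gen (by simpa using h)⟩

@[simp] theorem co_mk (c : ℤ → ℂ) (h : Summable (fun n => ‖c n‖)) (n : ℤ) :
    co (mkW c h) n = c n := rfl

/-- the change of variables `(m, k) ↦ (m + k, m)` -/
def shearEquiv : ℤ × ℤ ≃ ℤ × ℤ where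
  toFun p := (p.2, p.1 - p.2)
  invFun q := (q.1 + q.2, q.1)
  left_inv p := by ext <;> simp
  right_inv q := by ext <;> simp

theorem summable_pair (f g : W) : Summable fun p : ℤ × ℤ => ‖co f p.1 * co g p.2‖ :=
  (summable_co f).mul_norm (summable_co g)

theorem summable_shear (f g : W) :
    Summable fun p : ℤ × ℤ => ‖co f p.2 * co g (p.1 - p.2)‖ :=
  (shearEquiv.summable_iff (f := fun p : ℤ × ℤ => ‖co f p.1 * co g p.2‖)).2 (summable_pair f g)

noncomputable def mulW (f g : W) : W :=
  mkW (fun n => ∑' m, co f m * co g (n - m)) (by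
    have h := summable_shear f g
    refine Summable.of_nonneg_of_le (fun n => norm_nonneg _) (fun n => ?_) h.prod
    exact norm_tsum_le_tsum_norm (h.prod_factor n))

noncomputable instance : Mul W := ⟨mulW⟩

theorem co_mul (f g : W) (n : ℤ) : co (f * g) n = ∑' m, co f m * co g (n - m) := rfl

/-- the monomial `z ^ n` -/
noncomputable def mono (n : ℤ) : W :=
  mkW (fun k => if k = n then 1 else 0) (by
    apply summable_of_ne_finset_zero (s := {n})
    intro b hb
    simp only [Finset.mem_singleton] at hb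
    simp [hb])

theorem co_mono (n k : ℤ) : co (mono n) k = if k = n then 1 else 0 := rfl

noncomputable instance : One W := ⟨mono 0⟩

theorem co_one (n : ℤ) : co (1 : W) n = if n = 0 then 1 else 0 := rfl

section calculus

variable {B : Type*} [NormedRing B] [NormedAlgebra ℂ B] [CompleteSpace B]

/-- functional calculus for a unit all of whose integer powers are contractions -/
noncomputable def fc (u : Bˣ) (f : W) : B := ∑' n : ℤ, co f n • ((u ^ n : Bˣ) : B)

variable {u : Bˣ}

theorem summable_fc (hu : ∀ n : ℤ, ‖((u ^ n : Bˣ) : B)‖ ≤ 1) (f : W) :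
    Summable fun n : ℤ => ‖co f n • ((u ^ n : Bˣ) : B)‖ := by
  refine Summable.of_nonneg_of_le (fun n => norm_nonneg _) (fun n => ?_) (summable_co f)
  rw [norm_smul]
  exact mul_le_of_le_one_right (norm_nonneg _) (hu n)

theorem norm_fc_le (hu : ∀ n : ℤ, ‖((u ^ n : Bˣ) : B)‖ ≤ 1) (f : W) : ‖fc u f‖ ≤ ‖f‖ := by
  rw [norm_eq]
  refine (norm_tsum_le_tsum_norm (summable_fc hu f)).trans ?_
  refine Summable.tsum_le_tsum (fun n => ?_) (summable_fc hu f) (summable_co f)
  rw [norm_smul]
  exact mul_le_of_le_one_right (norm_nonneg _) (hu n)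

theorem fc_add (hu : ∀ n : ℤ, ‖((u ^ n : Bˣ) : B)‖ ≤ 1) (f g : W) :
    fc u (f + g) = fc u f + fc u g := by
  unfold fc
  rw [← (summable_fc hu f).of_norm.tsum_add (summable_fc hu g).of_norm]
  exact tsum_congr fun n => by rw [co_add, add_smul]

theorem fc_smul (c : ℂ) (f : W) : fc u (c • f) = c • fc u f := by
  unfold fc
  rw [← tsum_const_smul'']
  exact tsum_congr fun n => by rw [co_smul, smul_smul]

theorem fc_mono (n : ℤ) : fc u (mono n) = ((u ^ n : Bˣ) : B) := by
  unfold fc
  rw [tsum_eq_single n]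
  · simp [co_mono]
  · intro b hb
    simp [co_mono, hb]

theorem fc_mul (hu : ∀ n : ℤ, ‖((u ^ n : Bˣ) : B)‖ ≤ 1) (f g : W) :
    fc u (f * g) = fc u f * fc u g := by
  have hf := summable_fc hu f
  have hg := summable_fc hu g
  unfold fc
  rw [tsum_mul_tsum_of_summable_norm hf hg]
  have hterm : ∀ p : ℤ × ℤ, co f p.1 • ((u ^ p.1 : Bˣ) : B) * co g p.2 • ((u ^ p.2 : Bˣ) : B)
      = (co f p.1 * co g p.2) • ((u ^ (p.1 + p.2) : Bˣ) : B) := by
    intro p
    rw [smul_mul_smul_comm, zpow_add, Units.val_mul]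
  have hsum : Summable fun p : ℤ × ℤ =>
      (co f p.2 * co g (p.1 - p.2)) • ((u ^ p.1 : Bˣ) : B) := by
    refine Summable.of_norm ?_
    refine Summable.of_nonneg_of_le (fun n => norm_nonneg _) (fun p => ?_) (summable_shear f g)
    rw [norm_smul]
    exact mul_le_of_le_one_right (norm_nonneg _) (hu _)
  calc ∑' n : ℤ, co (f * g) n • ((u ^ n : Bˣ) : B)
      = ∑' n : ℤ, ∑' m : ℤ, (co f m * co g (n - m)) • ((u ^ n : Bˣ) : B) := by
        refine tsum_congr fun n => ?_
        rw [co_mul]
        have h := ((summable_shear f g).prod_factor n).of_norm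
        exact (h.tsum_smul_const _).symm
    _ = ∑' p : ℤ × ℤ, (co f p.2 * co g (p.1 - p.2)) • ((u ^ p.1 : Bˣ) : B) := by
        rw [hsum.tsum_prod]
    _ = ∑' p : ℤ × ℤ, (co f p.1 * co g p.2) • ((u ^ (p.1 + p.2) : Bˣ) : B) := by
        rw [← shearEquiv.tsum_eq
          (fun p : ℤ × ℤ => (co f p.1 * co g p.2) • ((u ^ (p.1 + p.2) : Bˣ) : B))]
        refine tsum_congr fun p => ?_
        simp [shearEquiv]
    _ = _ := tsum_congr fun p => (hterm p).symm

end calculus

/-- the unit `exp (i t)` of `ℂ` -/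
noncomputable def expU (t : ℝ) : ℂˣ := Units.mk0 (Complex.exp (t * Complex.I)) (Complex.exp_ne_zero _)

theorem expU_zpow (t : ℝ) (n : ℤ) :
    ((expU t ^ n : ℂˣ) : ℂ) = Complex.exp (n * (t * Complex.I)) := by
  rw [Units.val_zpow_eq_zpow_val, expU, Units.val_mk0, ← Complex.exp_int_mul]

theorem norm_expU_zpow (t : ℝ) (n : ℤ) : ‖((expU t ^ n : ℂˣ) : ℂ)‖ = 1 := by
  rw [expU_zpow, show (n : ℂ) * (t * Complex.I) = ((n * t : ℝ) : ℂ) * Complex.I by push_cast; ring]
  exact Complex.norm_exp_ofReal_mul_I _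

theorem norm_expU_zpow_le (t : ℝ) (n : ℤ) : ‖((expU t ^ n : ℂˣ) : ℂ)‖ ≤ 1 :=
  (norm_expU_zpow t n).le

/-- evaluation at `exp (i t)` -/
noncomputable def ev (t : ℝ) (f : W) : ℂ := fc (expU t) f

theorem ev_eq (t : ℝ) (f : W) : ev t f = ∑' n : ℤ, co f n * Complex.exp (n * (t * Complex.I)) := by
  unfold ev fc
  exact tsum_congr fun n => by rw [expU_zpow, smul_eq_mul]

theorem ev_add (t : ℝ) (f g : W) : ev t (f + g) = ev t f + ev t g := fc_add (norm_expU_zpow_le t) f g
theorem ev_mul' (t : ℝ) (f g : W) : ev t (f * g) = ev t f * ev t g := fc_mul (norm_expU_zpow_le t) f g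
theorem ev_smul' (t : ℝ) (c : ℂ) (f : W) : ev t (c • f) = c * ev t f := fc_smul c f
theorem norm_ev_le (t : ℝ) (f : W) : ‖ev t f‖ ≤ ‖f‖ := norm_fc_le (norm_expU_zpow_le t) f
theorem ev_mono (t : ℝ) (n : ℤ) : ev t (mono n) = Complex.exp (n * (t * Complex.I)) := by
  unfold ev
  rw [fc_mono, expU_zpow]
theorem ev_one' (t : ℝ) : ev t 1 = 1 := by
  show ev t (mono 0) = 1
  rw [ev_mono]
  simp

theorem ev_zero' (t : ℝ) : ev t 0 = 0 := by
  rw [ev_eq]
  simp [co_zero]

theorem ev_neg' (t : ℝ) (f : W) : ev t (-f) = -ev t f := by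
  rw [ev_eq, ev_eq, ← tsum_neg]
  exact tsum_congr fun n => by rw [co_neg, neg_mul]

/-- Fourier inversion: the coefficients are the Fourier coefficients of the evaluation. -/
theorem co_eq_integral (f : W) (m : ℤ) :
    ∫ t in (0:ℝ)..(2 * Real.pi), ev t f * Complex.exp (-(m * (t * Complex.I)))
      = 2 * Real.pi * co f m := by
  let F : ℤ → C(ℝ, ℂ) := fun n =>
    ⟨fun t => co f n * Complex.exp (((n - m : ℤ) : ℂ) * (t * Complex.I)), by fun_prop⟩
  have hFnorm : ∀ n t, ‖F n t‖ = ‖co f n‖ := by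
    intro n t
    show ‖co f n * Complex.exp (((n - m : ℤ) : ℂ) * (t * Complex.I))‖ = _
    rw [norm_mul, show (((n - m : ℤ) : ℂ)) * (t * Complex.I)
      = (((n - m : ℤ) * t : ℝ) : ℂ) * Complex.I by push_cast; ring,
      Complex.norm_exp_ofReal_mul_I, mul_one]
  have hsum : Summable fun n : ℤ =>
      ‖(F n).restrict (⟨Set.uIcc 0 (2 * Real.pi), isCompact_uIcc⟩ : TopologicalSpace.Compacts ℝ)‖ := by
    refine Summable.of_nonneg_of_le (fun n => norm_nonneg _) (fun n => ?_) (summable_co f)
    refine (ContinuousMap.norm_le _ (norm_nonneg _)).2 fun x => ?_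
    exact (hFnorm n x).le
  have key := intervalIntegral.hasSum_intervalIntegral_of_summable_norm hsum
  have h1 : ∀ t : ℝ, ∑' n, F n t = ev t f * Complex.exp (-(m * (t * Complex.I))) := by
    intro t
    rw [ev_eq, ← tsum_mul_right]
    refine tsum_congr fun n => ?_
    show co f n * Complex.exp (((n - m : ℤ) : ℂ) * (t * Complex.I)) = _
    rw [mul_assoc, ← Complex.exp_add]
    congr 2
    push_cast
    ring
  have h2 : ∀ n : ℤ, ∫ t in (0:ℝ)..(2 * Real.pi), F n t
      = if n = m then 2 * Real.pi * co f m else 0 := by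
    intro n
    show ∫ t in (0:ℝ)..(2 * Real.pi), co f n * Complex.exp (((n - m : ℤ) : ℂ) * (t * Complex.I)) = _
    rw [intervalIntegral.integral_const_mul]
    split_ifs with h
    · subst h
      simp
      ring
    · have hne : (((n - m : ℤ) : ℂ) * Complex.I) ≠ 0 := by
        refine mul_ne_zero ?_ Complex.I_ne_zero
        exact_mod_cast sub_ne_zero.2 h
      have : ∀ t : ℝ, Complex.exp (((n - m : ℤ) : ℂ) * (t * Complex.I))
          = Complex.exp ((((n - m : ℤ) : ℂ) * Complex.I) * t) := fun t => by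
        congr 1; ring
      simp_rw [this]
      rw [integral_exp_mul_complex hne]
      have h3 : Complex.exp ((((n - m : ℤ) : ℂ) * Complex.I) * ((2 * Real.pi : ℝ) : ℂ)) = 1 := by
        rw [show (((n - m : ℤ) : ℂ) * Complex.I) * ((2 * Real.pi : ℝ) : ℂ)
          = ((n - m : ℤ) : ℂ) * (2 * Real.pi * Complex.I) by push_cast; ring]
        exact Complex.exp_int_mul_two_pi_mul_I _
      rw [h3]
      simp
  have h4 : HasSum (fun n : ℤ => if n = m then 2 * (Real.pi : ℂ) * co f m else 0)
      (∫ t in (0:ℝ)..(2 * Real.pi), ev t f * Complex.exp (-(m * (t * Complex.I)))) := by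
    have := key
    simp_rw [h1] at this
    simpa only [h2] using this
  exact (h4.unique (hasSum_ite_eq m _))

theorem ext_ev {f g : W} (h : ∀ t, ev t f = ev t g) : f = g := by
  apply ext_co
  intro m
  have h1 := co_eq_integral f m
  have h2 := co_eq_integral g m
  simp_rw [h] at h1
  rw [h1] at h2
  have hpi : (2 * (Real.pi : ℂ)) ≠ 0 := by
    have := Real.pi_ne_zero
    simp [this]
  exact mul_left_cancel₀ hpi h2

noncomputable instance : CommRing W :=
  { (inferInstance : AddCommGroup W) with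
    mul := (· * ·)
    one := 1
    mul_assoc := fun a b c => ext_ev fun t => by simp only [ev_mul', mul_assoc]
    one_mul := fun a => ext_ev fun t => by rw [ev_mul', ev_one', one_mul]
    mul_one := fun a => ext_ev fun t => by rw [ev_mul', ev_one', mul_one]
    left_distrib := fun a b c => ext_ev fun t => by simp only [ev_mul', ev_add, mul_add]
    right_distrib := fun a b c => ext_ev fun t => by simp only [ev_mul', ev_add, add_mul]
    zero_mul := fun a => ext_ev fun t => by rw [ev_mul', ev_zero', zero_mul]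
    mul_zero := fun a => ext_ev fun t => by rw [ev_mul', ev_zero', mul_zero]
    mul_comm := fun a b => ext_ev fun t => by rw [ev_mul', ev_mul', mul_comm] }

theorem norm_mulW_le (f g : W) : ‖f * g‖ ≤ ‖f‖ * ‖g‖ := by
  have h := summable_shear f g
  have hp := summable_pair f g
  rw [norm_eq, norm_eq, norm_eq]
  calc ∑' n, ‖co (f * g) n‖ ≤ ∑' n, ∑' m, ‖co f m * co g (n - m)‖ := by
        refine Summable.tsum_le_tsum (fun n => ?_) (summable_co _) h.prod
        exact norm_tsum_le_tsum_norm (h.prod_factor n)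
    _ = ∑' p : ℤ × ℤ, ‖co f p.2 * co g (p.1 - p.2)‖ := (h.tsum_prod).symm
    _ = ∑' p : ℤ × ℤ, ‖co f p.1 * co g p.2‖ :=
        shearEquiv.tsum_eq (fun p : ℤ × ℤ => ‖co f p.1 * co g p.2‖)
    _ = (∑' n, ‖co f n‖) * ∑' n, ‖co g n‖ := by
        simp_rw [norm_mul]
        exact ((summable_co f).tsum_mul_tsum (summable_co g)
          (by simpa [norm_mul] using hp)).symm

noncomputable instance : NormedCommRing W :=
  { (inferInstance : CommRing W), (inferInstance : NormedAddCommGroup W) with
    norm_mul_le := norm_mulW_le }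

noncomputable instance : Algebra ℂ W :=
  Algebra.ofModule
    (fun c f g => ext_ev fun t => by rw [ev_mul', ev_smul', ev_smul', ev_mul', mul_assoc])
    (fun c f g => ext_ev fun t => by rw [ev_mul', ev_smul', ev_smul', ev_mul', mul_left_comm])

noncomputable instance : NormedAlgebra ℂ W :=
  { (inferInstance : Algebra ℂ W) with
    norm_smul_le := fun c f => (norm_smul c f).le }

theorem norm_mono (n : ℤ) : ‖mono n‖ = 1 := by
  rw [norm_eq, tsum_eq_single n]
  · simp [co_mono]
  · intro b hb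
    simp [co_mono, hb]

theorem norm_one' : ‖(1 : W)‖ = 1 := norm_mono 0

instance : NormOneClass W := ⟨norm_one'⟩

theorem mono_add (m n : ℤ) : mono (m + n) = mono m * mono n := ext_ev fun t => by
  rw [ev_mul', ev_mono, ev_mono, ev_mono, ← Complex.exp_add]
  congr 1
  push_cast
  ring

theorem mono_zero : mono 0 = 1 := rfl

/-- evaluation as an algebra homomorphism -/
noncomputable def evHom (t : ℝ) : W →ₐ[ℂ] ℂ :=
  AlgHom.ofLinearMap
    { toFun := ev t
      map_add' := ev_add t
      map_smul' := fun c f => ev_smul' t c f }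
    (ev_one' t) (ev_mul' t)

theorem evHom_apply (t : ℝ) (f : W) : evHom t f = ev t f := rfl

theorem ev_sub (t : ℝ) (f g : W) : ev t (f - g) = ev t f - ev t g := map_sub (evHom t) f g
theorem ev_pow (t : ℝ) (f : W) (n : ℕ) : ev t (f ^ n) = ev t f ^ n := map_pow (evHom t) f n
theorem ev_sum {ι : Type*} (t : ℝ) (s : Finset ι) (f : ι → W) :
    ev t (∑ i ∈ s, f i) = ∑ i ∈ s, ev t (f i) := map_sum (evHom t) f s
theorem ev_prod {ι : Type*} (t : ℝ) (s : Finset ι) (f : ι → W) :
    ev t (∏ i ∈ s, f i) = ∏ i ∈ s, ev t (f i) := map_prod (evHom t) f s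

theorem continuous_ev (t : ℝ) : Continuous (ev t) := by
  have : LipschitzWith 1 (ev t) := LipschitzWith.of_dist_le_mul fun f g => by
    rw [dist_eq_norm, dist_eq_norm, ← ev_sub, NNReal.coe_one, one_mul]
    exact norm_ev_le t _
  exact this.continuous

section calculus2

variable {B : Type*} [NormedRing B] [NormedAlgebra ℂ B] [CompleteSpace B]

/-- functional calculus as an algebra homomorphism -/
noncomputable def fcHom (u : Bˣ) (hu : ∀ n : ℤ, ‖((u ^ n : Bˣ) : B)‖ ≤ 1) : W →ₐ[ℂ] B :=
  AlgHom.ofLinearMap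
    { toFun := fc u
      map_add' := fc_add hu
      map_smul' := fun c f => fc_smul c f }
    (by
      show fc u (mono 0) = 1
      rw [fc_mono]
      simp) (fc_mul hu)

theorem fcHom_apply (u : Bˣ) (hu : ∀ n : ℤ, ‖((u ^ n : Bˣ) : B)‖ ≤ 1) (f : W) :
    fcHom u hu f = fc u f := rfl

theorem fcHom_mono (u : Bˣ) (hu : ∀ n : ℤ, ‖((u ^ n : Bˣ) : B)‖ ≤ 1) (n : ℤ) :
    fcHom u hu (mono n) = ((u ^ n : Bˣ) : B) := fc_mono n

theorem norm_fcHom_le (u : Bˣ) (hu : ∀ n : ℤ, ‖((u ^ n : Bˣ) : B)‖ ≤ 1) (f : W) :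
    ‖fcHom u hu f‖ ≤ ‖f‖ := norm_fc_le hu f

end calculus2

open Classical in
/-- restriction of the coefficients to a set of indices -/
noncomputable def res (s : Set ℤ) (f : W) : W :=
  mkW (fun n => if n ∈ s then co f n else 0) (by
    refine Summable.of_nonneg_of_le (fun n => norm_nonneg _) (fun n => ?_) (summable_co f)
    split_ifs
    · exact le_rfl
    · simp)

open Classical in
theorem co_res (s : Set ℤ) (f : W) (n : ℤ) : co (res s f) n = if n ∈ s then co f n else 0 := rfl

theorem co_res_of_mem {s : Set ℤ} {n : ℤ} (h : n ∈ s) (f : W) : co (res s f) n = co f n := by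
  classical
  rw [co_res, if_pos h]

theorem co_res_of_notMem {s : Set ℤ} {n : ℤ} (h : n ∉ s) (f : W) : co (res s f) n = 0 := by
  classical
  rw [co_res, if_neg h]

theorem res_add (s : Set ℤ) (f g : W) : res s (f + g) = res s f + res s g := ext_co fun n => by
  classical
  rw [co_add, co_res, co_res, co_res, co_add]
  split_ifs <;> simp

theorem res_sub (s : Set ℤ) (f g : W) : res s (f - g) = res s f - res s g := ext_co fun n => by
  classical
  rw [co_sub, co_res, co_res, co_res, co_sub]
  split_ifs <;> simp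

theorem res_smul (s : Set ℤ) (c : ℂ) (f : W) : res s (c • f) = c • res s f := ext_co fun n => by
  classical
  rw [co_smul, co_res, co_res, co_smul]
  split_ifs <;> simp

theorem res_zero (s : Set ℤ) : res s (0 : W) = 0 := ext_co fun n => by
  classical
  rw [co_res, co_zero, ite_self]

theorem res_neg (s : Set ℤ) (f : W) : res s (-f) = -res s f := ext_co fun n => by
  classical
  rw [co_neg, co_res, co_res, co_neg]
  split_ifs <;> simp

theorem res_add_compl (s : Set ℤ) (f : W) : res s f + res sᶜ f = f := ext_co fun n => by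
  classical
  rw [co_add, co_res, co_res]
  by_cases h : n ∈ s
  · simp [h]
  · simp [h]

theorem norm_res_le (s : Set ℤ) (f : W) : ‖res s f‖ ≤ ‖f‖ := by
  classical
  rw [norm_eq, norm_eq]
  refine Summable.tsum_le_tsum (fun n => ?_) (summable_co _) (summable_co _)
  rw [co_res]
  split_ifs
  · exact le_rfl
  · simp

theorem res_sum {ι : Type*} (s : Set ℤ) (t : Finset ι) (f : ι → W) :
    res s (∑ i ∈ t, f i) = ∑ i ∈ t, res s (f i) := by
  classical
  induction t using Finset.induction_on with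
  | empty => simp [res_zero]
  | insert a t ha ih => rw [Finset.sum_insert ha, Finset.sum_insert ha, res_add, ih]

/-- the adjoint (complex conjugate of the function on the circle) -/
noncomputable def adj (f : W) : W :=
  mkW (fun n => starRingEnd ℂ (co f (-n))) (by
    have := (Equiv.neg ℤ).summable_iff.2 (summable_co f)
    refine this.congr fun n => ?_
    simp)

theorem co_adj (f : W) (n : ℤ) : co (adj f) n = starRingEnd ℂ (co f (-n)) := rfl

theorem ev_adj (t : ℝ) (f : W) : ev t (adj f) = starRingEnd ℂ (ev t f) := by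
  rw [ev_eq, ev_eq, Complex.conj_tsum, ← (Equiv.neg ℤ).tsum_eq]
  refine tsum_congr fun n => ?_
  rw [co_adj, map_mul, ← Complex.exp_conj]
  simp

theorem norm_adj (f : W) : ‖adj f‖ = ‖f‖ := by
  rw [norm_eq, norm_eq, ← (Equiv.neg ℤ).tsum_eq (fun n => ‖co f n‖)]
  refine tsum_congr fun n => ?_
  rw [co_adj]
  simp

theorem adj_mul (f g : W) : adj (f * g) = adj f * adj g := ext_ev fun t => by
  simp only [ev_adj, ev_mul', map_mul]

theorem adj_add (f g : W) : adj (f + g) = adj f + adj g := ext_ev fun t => by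
  simp only [ev_adj, ev_add, map_add]

theorem adj_sub (f g : W) : adj (f - g) = adj f - adj g := ext_ev fun t => by
  simp only [ev_adj, ev_sub, map_sub]

theorem adj_adj (f : W) : adj (adj f) = f := ext_ev fun t => by
  simp only [ev_adj, Complex.conj_conj]

/-- all coefficients below `ν` vanish -/
def Ge (ν : ℤ) (f : W) : Prop := ∀ n, n < ν → co f n = 0

theorem Ge.mul {μ ν : ℤ} {f g : W} (hf : Ge μ f) (hg : Ge ν g) : Ge (μ + ν) (f * g) := by
  intro n hn
  rw [co_mul]
  rw [show (fun m => co f m * co g (n - m)) = fun _ => 0 from ?_, tsum_zero]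
  funext m
  by_cases h : m < μ
  · rw [hf m h, zero_mul]
  · rw [hg (n - m) (by omega), mul_zero]

theorem Ge.add {ν : ℤ} {f g : W} (hf : Ge ν f) (hg : Ge ν g) : Ge ν (f + g) := fun n hn => by
  rw [co_add, hf n hn, hg n hn, add_zero]

theorem Ge.sub {ν : ℤ} {f g : W} (hf : Ge ν f) (hg : Ge ν g) : Ge ν (f - g) := fun n hn => by
  rw [co_sub, hf n hn, hg n hn, sub_zero]

theorem Ge.mono_le {μ ν : ℤ} (h : μ ≤ ν) {f : W} (hf : Ge ν f) : Ge μ f :=
  fun n hn => hf n (lt_of_lt_of_le hn h)

theorem Ge.smul {ν : ℤ} {f : W} (c : ℂ) (hf : Ge ν f) : Ge ν (c • f) := fun n hn => by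
  rw [co_smul, hf n hn, mul_zero]

theorem ge_zero (ν : ℤ) : Ge ν 0 := fun _ _ => co_zero _

theorem ge_mono (n : ℤ) : Ge n (mono n) := fun k hk => by
  rw [co_mono, if_neg (by omega)]

theorem ge_one : Ge 0 (1 : W) := ge_mono 0

theorem ge_res (ν : ℤ) (f : W) : Ge ν (res (Set.Ici ν) f) := fun n hn =>
  co_res_of_notMem (by simpa using hn) f

theorem Ge.sum {ι : Type*} {ν : ℤ} (t : Finset ι) (f : ι → W) (h : ∀ i ∈ t, Ge ν (f i)) :
    Ge ν (∑ i ∈ t, f i) := by
  classical
  induction t using Finset.induction_on with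
  | empty => simpa using ge_zero ν
  | insert a t ha ih =>
      rw [Finset.sum_insert ha]
      exact (h a (Finset.mem_insert_self _ _)).add
        (ih fun i hi => h i (Finset.mem_insert_of_mem hi))

theorem continuous_co (n : ℤ) : Continuous fun f : W => co f n := by
  have : LipschitzWith 1 (fun f : W => co f n) := LipschitzWith.of_dist_le_mul fun f g => by
    rw [dist_eq_norm, dist_eq_norm, ← co_sub, NNReal.coe_one, one_mul]
    exact norm_co_le _ n
  exact this.continuous

theorem isClosed_ge (ν : ℤ) : IsClosed {f : W | Ge ν f} := by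
  have : {f : W | Ge ν f} = ⋂ n : ℤ, ⋂ _ : n < ν, {f | co f n = 0} := by
    ext f
    simp [Ge]
  rw [this]
  exact isClosed_iInter fun n => isClosed_iInter fun _ =>
    isClosed_eq (continuous_co n) continuous_const

end Pool.Agent.H47.Vin
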