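import Pool.Agent.H47.Vin.W

/-!
# Sequence space tools on the Wiener ring
-/

namespace Pool.Agent.H47.Vin

open scoped BigOperators ENNReal
open scoped Real

/-! ### periodicity, continuity of the evaluation -/

theorem ev_periodic (t : ℝ) (n : ℤ) (a : W) : ev (t - 2 * π * n) a = ev t a := by
  rw [ev_eq, ev_eq]
  refine tsum_congr fun k => ?_
  congr 1
  rw [show (k : ℂ) * (((t - 2 * π * n : ℝ) : ℂ) * Complex.I)
    = k * (t * Complex.I) - ((k * n : ℤ) : ℂ) * (2 * π * Complex.I) by push_cast; ring,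
    Complex.exp_sub, Complex.exp_int_mul_two_pi_mul_I, div_one]

theorem exists_red (t : ℝ) : ∃ n : ℤ, |t - 2 * π * n| ≤ π := by
  refine ⟨round (t / (2 * π)), ?_⟩
  have h := abs_sub_round (t / (2 * π))
  have hpi := Real.pi_pos
  have h2 : t - 2 * π * (round (t / (2 * π)) : ℤ) = 2 * π * (t / (2 * π) - round (t / (2 * π))) := by
    field_simp
  rw [h2, abs_mul, abs_of_pos (by positivity : (0:ℝ) < 2 * π)]
  nlinarith

theorem ext_pi {f g : W} (h : ∀ t, |t| ≤ π → ev t f = ev t g) : f = g := by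
  refine ext_ev fun t => ?_
  obtain ⟨n, hn⟩ := exists_red t
  rw [← ev_periodic t n f, ← ev_periodic t n g]
  exact h _ hn

theorem continuous_evt (a : W) : Continuous fun t : ℝ => ev t a := by
  have h : (fun t : ℝ => ev t a) = fun t : ℝ => ∑' n : ℤ, co a n * Complex.exp (n * (t * Complex.I)) := by
    funext t
    exact ev_eq t a
  rw [h]
  refine continuous_tsum (fun n => by fun_prop) (summable_co a) fun n t => ?_
  rw [norm_mul, show (n : ℂ) * (t * Complex.I) = ((n * t : ℝ) : ℂ) * Complex.I by push_cast; ring,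
    Complex.norm_exp_ofReal_mul_I, mul_one]

/-! ### expansion in monomials, shifts -/

theorem hasSum_mono (a : W) : HasSum (fun n : ℤ => co a n • mono n) a := by
  have hs : Summable (fun n : ℤ => co a n • mono n) := by
    refine Summable.of_norm ((summable_co a).congr fun n => ?_)
    rw [norm_smul, norm_mono, mul_one]
  have h := hs.hasSum
  convert h using 1
  refine ext_co fun k => ?_
  have h1 : HasSum (fun n : ℤ => co (co a n • mono n) k) (co (∑' n : ℤ, co a n • mono n) k) := by
    have hl : Continuous fun f : W => co f k := continuous_co k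
    let L : W →ₗ[ℂ] ℂ :=
      { toFun := fun f => co f k
        map_add' := fun f g => co_add f g k
        map_smul' := fun c f => co_smul c f k }
    exact h.map L.toAddMonoidHom hl
  have h2 : HasSum (fun n : ℤ => co (co a n • mono n) k) (co a k) := by
    have : (fun n : ℤ => co (co a n • mono n) k) = fun n => if n = k then co a k else 0 := by
      funext n
      rw [co_smul, co_mono]
      by_cases hn : n = k
      · subst hn; simp
      · rw [if_neg hn, if_neg (fun h => hn h.symm), mul_zero]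
    rw [this]
    exact hasSum_ite_eq k _
  exact h2.unique h1

theorem co_mono_mul (n : ℤ) (b : W) (k : ℤ) : co (mono n * b) k = co b (k - n) := by
  rw [co_mul, tsum_eq_single n]
  · simp [co_mono]
  · intro m hm
    simp [co_mono, hm]

theorem hasSum_mul_mono (a b : W) : HasSum (fun n : ℤ => co a n • (mono n * b)) (a * b) := by
  have h := (hasSum_mono a).mul_right b
  simpa only [smul_mul_assoc] using h

/-! ### absolute values, Hadamard products -/

/-- absolute values of the coefficients -/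
noncomputable def ab (a : W) : W := mkW (fun n => (‖co a n‖ : ℂ)) (by
  simpa using summable_co a)

theorem co_ab (a : W) (n : ℤ) : co (ab a) n = (‖co a n‖ : ℂ) := rfl

theorem norm_ab (a : W) : ‖ab a‖ = ‖a‖ := by
  rw [norm_eq, norm_eq]
  exact tsum_congr fun n => by rw [co_ab]; simp

/-- Hadamard product: pointwise product of the coefficient sequences -/
noncomputable def had (a b : W) : W := mkW (fun n => co a n * co b n) (by
  refine Summable.of_nonneg_of_le (fun n => norm_nonneg _) (fun n => ?_)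
    ((summable_co b).mul_left ‖a‖)
  rw [norm_mul]
  exact mul_le_mul_of_nonneg_right (norm_co_le a n) (norm_nonneg _))

theorem co_had (a b : W) (n : ℤ) : co (had a b) n = co a n * co b n := rfl

/-- conjugation of the coefficients -/
noncomputable def cj (a : W) : W := mkW (fun n => starRingEnd ℂ (co a n)) (by
  simpa using summable_co a)

theorem co_cj (a : W) (n : ℤ) : co (cj a) n = starRingEnd ℂ (co a n) := rfl

/-- squared absolute values of the coefficients -/
noncomputable def psq (a : W) : W := mkW (fun n => ((‖co a n‖ ^ 2 : ℝ) : ℂ)) (by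
  refine Summable.of_nonneg_of_le (fun n => norm_nonneg _) (fun n => ?_)
    ((summable_co a).mul_left ‖a‖)
  rw [Complex.norm_real, Real.norm_of_nonneg (by positivity), sq]
  exact mul_le_mul_of_nonneg_right (norm_co_le a n) (norm_nonneg _))

theorem co_psq (a : W) (n : ℤ) : co (psq a) n = ((‖co a n‖ ^ 2 : ℝ) : ℂ) := rfl

theorem psq_eq (a : W) : psq a = had a (cj a) := ext_co fun n => by
  rw [co_psq, co_had, co_cj, Complex.mul_conj, Complex.normSq_eq_norm_sq]

theorem had_comm (a b : W) : had a b = had b a := ext_co fun n => by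
  rw [co_had, co_had, mul_comm]

theorem had_assoc (a b c : W) : had (had a b) c = had a (had b c) := ext_co fun n => by
  simp only [co_had, mul_assoc]

theorem had_add (a b c : W) : had a (b + c) = had a b + had a c := ext_co fun n => by
  simp only [co_had, co_add, mul_add]

theorem add_had (a b c : W) : had (a + b) c = had a c + had b c := ext_co fun n => by
  simp only [co_had, co_add, add_mul]

theorem had_sub (a b c : W) : had a (b - c) = had a b - had a c := ext_co fun n => by
  simp only [co_had, co_sub, mul_sub]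

theorem sub_had (a b c : W) : had (a - b) c = had a c - had b c := ext_co fun n => by
  simp only [co_had, co_sub, sub_mul]

theorem had_smul (c : ℂ) (a b : W) : had a (c • b) = c • had a b := ext_co fun n => by
  simp only [co_had, co_smul, mul_left_comm]

theorem smul_had (c : ℂ) (a b : W) : had (c • a) b = c • had a b := ext_co fun n => by
  simp only [co_had, co_smul, mul_assoc]

theorem had_zero (a : W) : had a 0 = 0 := ext_co fun n => by
  rw [co_had, co_zero, mul_zero]

theorem zero_had (a : W) : had 0 a = 0 := ext_co fun n => by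
  rw [co_had, co_zero, zero_mul]

theorem cj_cj (a : W) : cj (cj a) = a := ext_co fun n => by
  rw [co_cj, co_cj, Complex.conj_conj]

theorem cj_add (a b : W) : cj (a + b) = cj a + cj b := ext_co fun n => by
  simp only [co_cj, co_add, map_add]

theorem cj_had (a b : W) : cj (had a b) = had (cj a) (cj b) := ext_co fun n => by
  simp only [co_cj, co_had, map_mul]

theorem psq_zero : psq 0 = 0 := ext_co fun n => by
  rw [co_psq, co_zero]
  simp

theorem psq_smul (c : ℂ) (a : W) : psq (c • a) = ((‖c‖ ^ 2 : ℝ) : ℂ) • psq a :=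
  ext_co fun n => by
    rw [co_smul, co_psq, co_psq, co_smul, norm_mul]
    push_cast
    ring

theorem psq_neg (a : W) : psq (-a) = psq a := ext_co fun n => by
  rw [co_psq, co_psq, co_neg, norm_neg]

theorem psq_mono_mul (k : ℤ) (a : W) : psq (mono k * a) = mono k * psq a := ext_co fun n => by
  rw [co_psq, co_mono_mul, co_mono_mul, co_psq]

theorem had_mono_mul (k : ℤ) (a b : W) : had (mono k * a) (mono k * b) = mono k * had a b :=
  ext_co fun n => by
    rw [co_had, co_mono_mul, co_mono_mul, co_mono_mul, co_had]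

theorem ev_cj (t : ℝ) (a : W) : ev t (cj a) = starRingEnd ℂ (ev (-t) a) := by
  rw [ev_eq, ev_eq, Complex.conj_tsum]
  refine tsum_congr fun n => ?_
  rw [co_cj, map_mul, ← Complex.exp_conj]
  simp

/-! ### positivity -/

/-- all coefficients are nonnegative real numbers -/
def Pos (a : W) : Prop := ∀ n, 0 ≤ (co a n).re ∧ (co a n).im = 0

/-- coefficientwise domination -/
def Dom (a b : W) : Prop := Pos (b - a)

theorem Pos.eq {a : W} (h : Pos a) (n : ℤ) : co a n = ((co a n).re : ℂ) :=
  Complex.ext rfl (by rw [(h n).2]; simp)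

theorem Pos.norm_eq' {a : W} (h : Pos a) (n : ℤ) : ‖co a n‖ = (co a n).re := by
  rw [h.eq n, Complex.norm_real, Real.norm_of_nonneg (h n).1, Complex.ofReal_re]

theorem Pos.ab_eq {a : W} (h : Pos a) : ab a = a := ext_co fun n => by
  rw [co_ab, h.norm_eq' n, ← h.eq n]

theorem pos_of_real {a : W} (r : ℤ → ℝ) (hr : ∀ n, 0 ≤ r n) (h : ∀ n, co a n = (r n : ℂ)) :
    Pos a := fun n => by
  rw [h n]
  simp [hr n]

theorem pos_ab (a : W) : Pos (ab a) := pos_of_real _ (fun _ => norm_nonneg _) (co_ab a)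

theorem pos_psq (a : W) : Pos (psq a) :=
  pos_of_real (fun n => ‖co a n‖ ^ 2) (fun _ => by positivity) (co_psq a)

theorem pos_zero : Pos 0 := fun n => by rw [co_zero]; simp

theorem pos_mono (k : ℤ) : Pos (mono k) := fun n => by
  rw [co_mono]
  split_ifs <;> simp

theorem pos_one : Pos 1 := pos_mono 0

theorem Pos.add {a b : W} (ha : Pos a) (hb : Pos b) : Pos (a + b) := fun n => by
  rw [co_add, Complex.add_re, Complex.add_im, (ha n).2, (hb n).2]
  exact ⟨add_nonneg (ha n).1 (hb n).1, by simp⟩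

theorem Pos.smul {a : W} (ha : Pos a) {r : ℝ} (hr : 0 ≤ r) : Pos ((r : ℂ) • a) := fun n => by
  rw [co_smul, ha.eq n, ← Complex.ofReal_mul]
  exact ⟨by rw [Complex.ofReal_re]; exact mul_nonneg hr (ha n).1, Complex.ofReal_im _⟩

theorem Pos.sum {ι : Type*} {s : Finset ι} {a : ι → W} (h : ∀ i ∈ s, Pos (a i)) :
    Pos (∑ i ∈ s, a i) := by
  classical
  induction s using Finset.induction_on with
  | empty => simpa using pos_zero
  | insert i s hi ih =>
      rw [Finset.sum_insert hi]
      exact (h i (Finset.mem_insert_self _ _)).add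
        (ih fun j hj => h j (Finset.mem_insert_of_mem hj))

theorem Pos.mul {a b : W} (ha : Pos a) (hb : Pos b) : Pos (a * b) := fun n => by
  have h : co (a * b) n = ((∑' m, (co a m).re * (co b (n - m)).re : ℝ) : ℂ) := by
    rw [co_mul, Complex.ofReal_tsum]
    refine tsum_congr fun m => ?_
    rw [Complex.ofReal_mul, ← ha.eq m, ← hb.eq (n - m)]
  rw [h]
  exact ⟨by
    rw [Complex.ofReal_re]
    exact tsum_nonneg fun m => mul_nonneg (ha m).1 (hb _).1, Complex.ofReal_im _⟩

theorem Pos.adj {a : W} (ha : Pos a) : Pos (adj a) := fun n => by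
  rw [co_adj]
  refine ⟨?_, ?_⟩
  · rw [Complex.conj_re]; exact (ha _).1
  · rw [Complex.conj_im, (ha _).2, neg_zero]

theorem Pos.had {a b : W} (ha : Pos a) (hb : Pos b) : Pos (had a b) := fun n => by
  rw [co_had, ha.eq n, hb.eq n, ← Complex.ofReal_mul]
  exact ⟨by rw [Complex.ofReal_re]; exact mul_nonneg (ha n).1 (hb n).1, Complex.ofReal_im _⟩

theorem isClosed_pos : IsClosed {f : W | Pos f} := by
  have : {f : W | Pos f} = ⋂ n : ℤ, ({f | 0 ≤ (co f n).re} ∩ {f | (co f n).im = 0}) := by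
    ext f
    simp [Pos]
  rw [this]
  refine isClosed_iInter fun n => IsClosed.inter ?_ ?_
  · exact isClosed_le continuous_const (Complex.continuous_re.comp (continuous_co n))
  · exact isClosed_eq (Complex.continuous_im.comp (continuous_co n)) continuous_const

theorem Pos.tsum {ι : Type*} {a : ι → W} (h : ∀ i, Pos (a i)) : Pos (∑' i, a i) := by
  by_cases hs : Summable a
  · exact isClosed_pos.mem_of_tendsto hs.hasSum
      (Filter.Eventually.of_forall fun s => Pos.sum fun i _ => h i)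
  · rw [tsum_eq_zero_of_not_summable hs]
    exact pos_zero

theorem dom_iff {a b : W} : Dom a b ↔ ∀ n, (co a n).re ≤ (co b n).re ∧ (co a n).im = (co b n).im := by
  unfold Dom Pos
  refine forall_congr' fun n => ?_
  rw [co_sub, Complex.sub_re, Complex.sub_im, sub_nonneg, sub_eq_zero]
  exact and_congr_right fun _ => eq_comm

theorem Dom.rfl' (a : W) : Dom a a := by
  unfold Dom; rw [sub_self]; exact pos_zero

theorem Dom.trans {a b c : W} (h : Dom a b) (h' : Dom b c) : Dom a c := by
  unfold Dom at *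
  have := h'.add h
  rwa [sub_add_sub_cancel] at this

theorem Dom.add {a b c d : W} (h : Dom a b) (h' : Dom c d) : Dom (a + c) (b + d) := by
  unfold Dom at *
  rw [add_sub_add_comm]
  exact h.add h'

theorem Dom.smul {a b : W} (h : Dom a b) {r : ℝ} (hr : 0 ≤ r) :
    Dom ((r : ℂ) • a) ((r : ℂ) • b) := by
  unfold Dom at *
  rw [← smul_sub]
  exact Pos.smul h hr

theorem Dom.mul_left {a b c : W} (hc : Pos c) (h : Dom a b) : Dom (c * a) (c * b) := by
  unfold Dom at *
  rw [← mul_sub]
  exact hc.mul h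

theorem Dom.sum {ι : Type*} {s : Finset ι} {a b : ι → W} (h : ∀ i ∈ s, Dom (a i) (b i)) :
    Dom (∑ i ∈ s, a i) (∑ i ∈ s, b i) := by
  unfold Dom at *
  rw [← Finset.sum_sub_distrib]
  exact Pos.sum h

theorem Dom.pos {a b : W} (ha : Pos a) (h : Dom a b) : Pos b := by
  have := Pos.add h ha
  rwa [sub_add_cancel] at this

theorem Dom.norm_le {a b : W} (ha : Pos a) (h : Dom a b) (n : ℤ) : ‖co a n‖ ≤ ‖co b n‖ := by
  rw [ha.norm_eq', (Dom.pos ha h).norm_eq']
  exact ((dom_iff.1 h) n).1

/-- squares of sums -/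
theorem dom_psq_add (u v : W) :
    Dom (psq (u + v)) (((2 : ℝ) : ℂ) • psq u + ((2 : ℝ) : ℂ) • psq v) := by
  rw [dom_iff]
  intro n
  rw [co_add, co_smul, co_smul, co_psq, co_psq, co_psq, co_add, ← Complex.ofReal_mul,
    ← Complex.ofReal_mul, ← Complex.ofReal_add, Complex.ofReal_re, Complex.ofReal_re,
    Complex.ofReal_im, Complex.ofReal_im]
  refine ⟨?_, rfl⟩
  have h := norm_add_le (co u n) (co v n)
  have h0 := norm_nonneg (co u n + co v n)
  nlinarith [sq_nonneg (‖co u n‖ - ‖co v n‖), norm_nonneg (co u n), norm_nonneg (co v n)]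

theorem cs_tsum {a x : ℤ → ℝ} (ha : ∀ n, 0 ≤ a n) (h0 : Summable a)
    (h1 : Summable fun n => a n * x n) (h2 : Summable fun n => a n * x n ^ 2) :
    (∑' n, a n * x n) ^ 2 ≤ (∑' n, a n) * ∑' n, a n * x n ^ 2 := by
  set S := ∑' n, a n with hS
  set P := ∑' n, a n * x n with hP
  set Q := ∑' n, a n * x n ^ 2 with hQ
  have hS0 : 0 ≤ S := tsum_nonneg ha
  rcases hS0.eq_or_lt with h | h
  · have hz : ∀ n, a n = 0 := by
      have := (hasSum_zero_iff_of_nonneg ha).1 (by rw [h]; exact h0.hasSum)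
      exact fun n => congrFun this n
    have : P = 0 := by
      rw [hP]
      simp [hz]
    rw [this, ← h]
    simp
  · have key : ∀ l : ℝ, 0 ≤ Q - 2 * l * P + l ^ 2 * S := by
      intro l
      have hsum : HasSum (fun n => a n * x n ^ 2 - 2 * l * (a n * x n) + l ^ 2 * a n)
          (Q - 2 * l * P + l ^ 2 * S) :=
        (h2.hasSum.sub (h1.hasSum.mul_left (2 * l))).add (h0.hasSum.mul_left (l ^ 2))
      refine hsum.nonneg fun n => ?_
      have : a n * x n ^ 2 - 2 * l * (a n * x n) + l ^ 2 * a n = a n * (x n - l) ^ 2 := by ring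
      rw [this]
      exact mul_nonneg (ha n) (sq_nonneg _)
    have h3 := key (P / S)
    have h4 : Q - 2 * (P / S) * P + (P / S) ^ 2 * S = Q - P ^ 2 / S := by
      field_simp
      ring
    rw [h4, sub_nonneg, div_le_iff₀ h] at h3
    linarith

/-- Jensen inequality for convolution operators -/
theorem dom_psq_mul (a f : W) : Dom (psq (a * f)) (((‖a‖ : ℝ) : ℂ) • (ab a * psq f)) := by
  rw [dom_iff]
  intro n
  have hs1 : Summable fun m => ‖co a m‖ := summable_co a
  have hs2 : Summable fun m => ‖co a m‖ * ‖co f (n - m)‖ := by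
    have := (summable_shear a f).prod_factor n
    simpa only [norm_mul] using this
  have hs3 : Summable fun m => ‖co a m‖ * ‖co f (n - m)‖ ^ 2 := by
    have := (summable_shear a (psq f)).prod_factor n
    refine this.congr fun m => ?_
    rw [norm_mul, co_psq, Complex.norm_real, Real.norm_of_nonneg (by positivity)]
  have h1 : co (ab a * psq f) n = ((∑' m, ‖co a m‖ * ‖co f (n - m)‖ ^ 2 : ℝ) : ℂ) := by
    rw [co_mul, Complex.ofReal_tsum]
    refine tsum_congr fun m => ?_
    rw [co_ab, co_psq, ← Complex.ofReal_mul]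
  rw [co_smul, h1, ← Complex.ofReal_mul, co_psq]
  refine ⟨?_, by rw [Complex.ofReal_im, Complex.ofReal_im]⟩
  rw [Complex.ofReal_re, Complex.ofReal_re]
  have h2 : ‖co (a * f) n‖ ≤ ∑' m, ‖co a m‖ * ‖co f (n - m)‖ := by
    rw [co_mul]
    refine (norm_tsum_le_tsum_norm (by simpa only [norm_mul] using hs2)).trans (le_of_eq ?_)
    exact tsum_congr fun m => norm_mul _ _
  calc ‖co (a * f) n‖ ^ 2 ≤ (∑' m, ‖co a m‖ * ‖co f (n - m)‖) ^ 2 :=
        pow_le_pow_left₀ (norm_nonneg _) h2 2
    _ ≤ (∑' m, ‖co a m‖) * ∑' m, ‖co a m‖ * ‖co f (n - m)‖ ^ 2 :=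
        cs_tsum (fun _ => norm_nonneg _) hs1 hs2 hs3
    _ = ‖a‖ * ∑' m, ‖co a m‖ * ‖co f (n - m)‖ ^ 2 := by rw [norm_eq]

theorem dom_psq_mul' {a A : W} (hA : Dom (ab a) A) (f : W) :
    Dom (psq (a * f)) (((‖a‖ : ℝ) : ℂ) • (A * psq f)) := by
  refine (dom_psq_mul a f).trans (Dom.smul ?_ (norm_nonneg _))
  rw [mul_comm (ab a), mul_comm A]
  exact Dom.mul_left (pos_psq f) hA

/-! ### the pairing -/

/-- real part of the l^2 pairing -/
noncomputable def ip (a b : W) : ℝ := (co (a * adj b) 0).re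

theorem co_mul_adj (a b : W) : co (a * adj b) 0 = ∑' n, co a n * starRingEnd ℂ (co b n) := by
  rw [co_mul]
  refine tsum_congr fun n => ?_
  rw [co_adj]
  simp

theorem summable_pairing (a b : W) : Summable fun n => co a n * starRingEnd ℂ (co b n) := by
  have := summable_co (had a (cj b))
  exact (Summable.of_norm this).congr fun n => by rw [co_had, co_cj]

theorem ip_eq (a b : W) : ip a b = ∑' n, (co a n * starRingEnd ℂ (co b n)).re := by
  unfold ip
  rw [co_mul_adj, Complex.re_tsum (summable_pairing a b)]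

theorem ip_eq' (a b : W) :
    ip a b = ∑' n, ((co a n).re * (co b n).re + (co a n).im * (co b n).im) := by
  rw [ip_eq]
  refine tsum_congr fun n => ?_
  rw [Complex.mul_re, Complex.conj_re, Complex.conj_im]
  ring

theorem ip_comm (a b : W) : ip a b = ip b a := by
  rw [ip_eq', ip_eq']
  exact tsum_congr fun n => by ring

theorem ip_add_left (a b c : W) : ip (a + b) c = ip a c + ip b c := by
  unfold ip
  rw [add_mul, co_add, Complex.add_re]

theorem ip_sub_left (a b c : W) : ip (a - b) c = ip a c - ip b c := by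
  unfold ip
  rw [sub_mul, co_sub, Complex.sub_re]

theorem ip_add_right (a b c : W) : ip a (b + c) = ip a b + ip a c := by
  rw [ip_comm, ip_add_left, ip_comm b, ip_comm c]

theorem ip_sub_right (a b c : W) : ip a (b - c) = ip a b - ip a c := by
  rw [ip_comm, ip_sub_left, ip_comm b, ip_comm c]

theorem ip_zero_left (b : W) : ip 0 b = 0 := by
  unfold ip
  rw [zero_mul, co_zero, Complex.zero_re]

theorem ip_zero_right (a : W) : ip a 0 = 0 := by
  rw [ip_comm, ip_zero_left]

theorem ip_smul_left (r : ℝ) (a b : W) : ip ((r : ℂ) • a) b = r * ip a b := by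
  unfold ip
  rw [smul_mul_assoc, co_smul, Complex.re_ofReal_mul]

theorem ip_smul_right (r : ℝ) (a b : W) : ip a ((r : ℂ) • b) = r * ip a b := by
  rw [ip_comm, ip_smul_left, ip_comm]

theorem ip_sum_left {ι : Type*} (s : Finset ι) (a : ι → W) (b : W) :
    ip (∑ i ∈ s, a i) b = ∑ i ∈ s, ip (a i) b := by
  classical
  induction s using Finset.induction_on with
  | empty => simp [ip_zero_left]
  | insert i s hi ih => rw [Finset.sum_insert hi, Finset.sum_insert hi, ip_add_left, ih]

theorem ip_sum_right {ι : Type*} (s : Finset ι) (a : W) (b : ι → W) :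
    ip a (∑ i ∈ s, b i) = ∑ i ∈ s, ip a (b i) := by
  rw [ip_comm, ip_sum_left]
  exact Finset.sum_congr rfl fun i _ => ip_comm _ _

theorem ip_mul_left (c a b : W) : ip (c * a) b = ip a (adj c * b) := by
  unfold ip
  rw [adj_mul, adj_adj]
  congr 2
  ring

theorem ip_mul_right (c a b : W) : ip a (c * b) = ip (adj c * a) b := by
  rw [ip_mul_left, adj_adj]

theorem ip_nonneg {a b : W} (ha : Pos a) (hb : Pos b) : 0 ≤ ip a b := by
  rw [ip_eq']
  refine tsum_nonneg fun n => ?_
  rw [(ha n).2, zero_mul, add_zero]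
  exact mul_nonneg (ha n).1 (hb n).1

theorem ip_mono {a b c : W} (hc : Pos c) (h : Dom a b) : ip a c ≤ ip b c := by
  have := ip_nonneg h hc
  rw [ip_sub_left] at this
  linarith

theorem ip_mono_right {a b c : W} (hc : Pos c) (h : Dom a b) : ip c a ≤ ip c b := by
  rw [ip_comm c, ip_comm c]
  exact ip_mono hc h

/-! ### l^2 and l^4 norms -/

/-- inclusion in l^2 -/
noncomputable def i2 : W →ₗ[ℂ] lp (fun _ : ℤ => ℂ) 2 where
  toFun a := ⟨fun n => co a n,
    Memℓp.of_exponent_ge (show lp (fun _ : ℤ => ℂ) 1 from a).2 (by norm_num)⟩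
  map_add' a b := rfl
  map_smul' c a := rfl

/-- inclusion in l^4 -/
noncomputable def i4 : W →ₗ[ℂ] lp (fun _ : ℤ => ℂ) 4 where
  toFun a := ⟨fun n => co a n,
    Memℓp.of_exponent_ge (show lp (fun _ : ℤ => ℂ) 1 from a).2 (by norm_num)⟩
  map_add' a b := rfl
  map_smul' c a := rfl

theorem i2_apply (a : W) (n : ℤ) : (i2 a : ℤ → ℂ) n = co a n := rfl
theorem i4_apply (a : W) (n : ℤ) : (i4 a : ℤ → ℂ) n = co a n := rfl

noncomputable def n2 (a : W) : ℝ := ‖i2 a‖

instance fact4 : Fact ((1 : ℝ≥0∞) ≤ 4) := ⟨by norm_num⟩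

noncomputable def n4 (a : W) : ℝ := ‖i4 a‖

theorem n2_nonneg (a : W) : 0 ≤ n2 a := norm_nonneg _
theorem n4_nonneg (a : W) : 0 ≤ n4 a := norm_nonneg _

theorem n2_sq (a : W) : n2 a ^ 2 = ∑' n, ‖co a n‖ ^ 2 := by
  have h := lp.norm_rpow_eq_tsum (p := 2) (by norm_num) (i2 a)
  simp only [ENNReal.toReal_ofNat] at h
  have h2 : ∀ x : ℝ, x ^ (2:ℝ) = x ^ 2 := fun x => by
    rw [← Real.rpow_natCast]; norm_num
  simp only [h2] at h
  exact h

theorem n4_pow (a : W) : n4 a ^ 4 = ∑' n, ‖co a n‖ ^ 4 := by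
  have h := lp.norm_rpow_eq_tsum (p := 4) (by norm_num) (i4 a)
  simp only [ENNReal.toReal_ofNat] at h
  have h2 : ∀ x : ℝ, x ^ (4:ℝ) = x ^ 4 := fun x => by
    rw [← Real.rpow_natCast]; norm_num
  simp only [h2] at h
  exact h

theorem summable_sq (a : W) : Summable fun n => ‖co a n‖ ^ 2 := by
  refine (summable_co (psq a)).congr fun n => ?_
  rw [co_psq, Complex.norm_real, Real.norm_of_nonneg (by positivity)]

theorem summable_four (a : W) : Summable fun n => ‖co a n‖ ^ 4 := by
  refine (summable_sq (psq a)).congr fun n => ?_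
  rw [co_psq, Complex.norm_real, Real.norm_of_nonneg (by positivity)]
  ring

theorem n4_sq (a : W) : n4 a ^ 2 = n2 (psq a) := by
  have h1 : (n4 a ^ 2) ^ 2 = n2 (psq a) ^ 2 := by
    rw [n2_sq, ← pow_mul, n4_pow]
    refine tsum_congr fun n => ?_
    rw [co_psq, Complex.norm_real, Real.norm_of_nonneg (by positivity)]
    ring
  exact (pow_left_inj₀ (by have := n4_nonneg a; positivity) (n2_nonneg _) two_ne_zero).1 h1

theorem n2_add_le (a b : W) : n2 (a + b) ≤ n2 a + n2 b := by
  unfold n2; rw [map_add]; exact norm_add_le _ _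
theorem n4_add_le (a b : W) : n4 (a + b) ≤ n4 a + n4 b := by
  unfold n4; rw [map_add]; exact norm_add_le _ _
theorem n2_sub_le (a b : W) : n2 (a - b) ≤ n2 a + n2 b := by
  unfold n2; rw [map_sub]; exact norm_sub_le _ _
theorem n4_sub_le (a b : W) : n4 (a - b) ≤ n4 a + n4 b := by
  unfold n4; rw [map_sub]; exact norm_sub_le _ _
theorem n2_smul (c : ℂ) (a : W) : n2 (c • a) = ‖c‖ * n2 a := by
  unfold n2; rw [map_smul]; exact norm_smul _ _
theorem n4_smul (c : ℂ) (a : W) : n4 (c • a) = ‖c‖ * n4 a := by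
  unfold n4; rw [map_smul]; exact norm_smul _ _
theorem n2_neg (a : W) : n2 (-a) = n2 a := by
  unfold n2; rw [map_neg, norm_neg]
theorem n4_neg (a : W) : n4 (-a) = n4 a := by
  unfold n4; rw [map_neg, norm_neg]
theorem n2_zero : n2 0 = 0 := by
  unfold n2; rw [map_zero, norm_zero]
theorem n4_zero : n4 0 = 0 := by
  unfold n4; rw [map_zero, norm_zero]
theorem n2_sum_le {ι : Type*} (s : Finset ι) (a : ι → W) :
    n2 (∑ i ∈ s, a i) ≤ ∑ i ∈ s, n2 (a i) := by
  unfold n2; rw [map_sum]; exact norm_sum_le _ _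
theorem n4_sum_le {ι : Type*} (s : Finset ι) (a : ι → W) :
    n4 (∑ i ∈ s, a i) ≤ ∑ i ∈ s, n4 (a i) := by
  unfold n4; rw [map_sum]; exact norm_sum_le _ _

theorem n2_smul_real {r : ℝ} (hr : 0 ≤ r) (a : W) : n2 ((r : ℂ) • a) = r * n2 a := by
  rw [n2_smul, Complex.norm_real, Real.norm_of_nonneg hr]

theorem ip_self (a : W) : ip a a = n2 a ^ 2 := by
  rw [ip_eq', n2_sq]
  refine tsum_congr fun n => ?_
  rw [← Complex.normSq_eq_norm_sq, Complex.normSq_apply]

theorem ip_le (a b : W) : ip a b ≤ n2 a * n2 b := by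
  have h1 : ∀ s : ℝ, 0 ≤ n2 a ^ 2 - 2 * s * ip a b + s ^ 2 * n2 b ^ 2 := by
    intro s
    have h := sq_nonneg (n2 (a - (s : ℂ) • b))
    rw [← ip_self, ip_sub_left, ip_sub_right, ip_sub_right, ip_smul_left, ip_smul_left,
      ip_smul_right, ip_smul_right, ip_self, ip_self, ip_comm b a] at h
    nlinarith
  have ha := n2_nonneg a
  have hb := n2_nonneg b
  rcases hb.eq_or_lt with h | h
  · rw [← h, mul_zero]
    by_contra hcon
    push Not at hcon
    have h2 := h1 ((n2 a ^ 2 + 1) / (2 * ip a b))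
    rw [← h] at h2
    have h3 : 2 * ((n2 a ^ 2 + 1) / (2 * ip a b)) * ip a b = n2 a ^ 2 + 1 := by
      field_simp
    nlinarith
  · have h2 := h1 (n2 a / n2 b)
    have h3 : (n2 a / n2 b) ^ 2 * n2 b ^ 2 = n2 a ^ 2 := by
      field_simp
    rw [h3] at h2
    have h4 : 2 * (n2 a / n2 b) * ip a b = 2 * (n2 a * ip a b) / n2 b := by ring
    rw [h4] at h2
    have h5 : 2 * (n2 a * ip a b) / n2 b ≤ 2 * n2 a ^ 2 := by linarith
    rw [div_le_iff₀ h] at h5
    rcases ha.eq_or_lt with h6 | h6
    · have h7 := h1 (1 / 2 : ℝ)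
      have h8 := h1 ((n2 b ^ 2 + 1)⁻¹ * ip a b)
      rw [← h6] at h8 ⊢
      rw [zero_mul]
      by_contra hcon
      push Not at hcon
      have h9 : 0 < (n2 b ^ 2 + 1)⁻¹ := by positivity
      have h10 : (n2 b ^ 2 + 1)⁻¹ * n2 b ^ 2 ≤ 1 := by
        rw [inv_mul_le_iff₀ (by positivity)]
        linarith
      have h11 : ((n2 b ^ 2 + 1)⁻¹ * ip a b) ^ 2 * n2 b ^ 2
          = ((n2 b ^ 2 + 1)⁻¹ * n2 b ^ 2) * ((n2 b ^ 2 + 1)⁻¹ * ip a b ^ 2) := by ring
      rw [h11] at h8
      have h12 : 0 < (n2 b ^ 2 + 1)⁻¹ * ip a b ^ 2 := by positivity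
      nlinarith
    · nlinarith

theorem abs_ip_le (a b : W) : |ip a b| ≤ n2 a * n2 b := by
  refine abs_le.2 ⟨?_, ip_le a b⟩
  have h := ip_le (-a) b
  rw [n2_neg] at h
  have h2 : ip (-a) b = -ip a b := by
    have := ip_add_left (-a) a b
    rw [neg_add_cancel, ip_zero_left] at this
    linarith
  rw [h2] at h
  linarith

theorem n2_le_of_dom {a b : W} (ha : Pos a) (h : Dom a b) : n2 a ≤ n2 b := by
  refine le_of_sq_le_sq ?_ (n2_nonneg b)
  rw [n2_sq, n2_sq]
  refine Summable.tsum_le_tsum (fun n => ?_) (summable_sq a) (summable_sq b)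
  exact pow_le_pow_left₀ (norm_nonneg _) (h.norm_le ha n) 2

theorem norm_le_of_dom {a b : W} (ha : Pos a) (h : Dom a b) : ‖a‖ ≤ ‖b‖ := by
  rw [norm_eq, norm_eq]
  exact Summable.tsum_le_tsum (fun n => h.norm_le ha n) (summable_co a) (summable_co b)

theorem ip_psq (a b : W) : ip (psq a) (psq b) = n2 (had a b) ^ 2 := by
  rw [ip_eq', n2_sq]
  refine tsum_congr fun n => ?_
  rw [co_psq, co_psq, co_had, Complex.ofReal_re, Complex.ofReal_re, Complex.ofReal_im, norm_mul]
  ring

theorem n2_had_le (a b : W) : n2 (had a b) ≤ n4 a * n4 b := by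
  refine le_of_sq_le_sq ?_ (mul_nonneg (n4_nonneg _) (n4_nonneg _))
  rw [← ip_psq, mul_pow, n4_sq, n4_sq]
  exact ip_le _ _

theorem n2_mono_mul (k : ℤ) (a : W) : n2 (mono k * a) = n2 a := by
  refine (pow_left_inj₀ (n2_nonneg _) (n2_nonneg _) two_ne_zero).1 ?_
  rw [n2_sq, n2_sq, ← (Equiv.subRight k).tsum_eq (fun n => ‖co a n‖ ^ 2)]
  refine tsum_congr fun n => ?_
  rw [co_mono_mul]
  simp

theorem n4_mono_mul (k : ℤ) (a : W) : n4 (mono k * a) = n4 a := by
  refine (pow_left_inj₀ (n4_nonneg _) (n4_nonneg _) two_ne_zero).1 ?_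
  rw [n4_sq, n4_sq, psq_mono_mul, n2_mono_mul]

theorem n2_le_norm (a : W) : n2 a ≤ ‖a‖ := by
  refine le_of_sq_le_sq ?_ (norm_nonneg _)
  rw [n2_sq]
  have h : ∑' n, ‖co a n‖ ^ 2 ≤ ∑' n, ‖a‖ * ‖co a n‖ := by
    refine Summable.tsum_le_tsum (fun n => ?_) (summable_sq a) ((summable_co a).mul_left _)
    rw [sq]
    exact mul_le_mul_of_nonneg_right (norm_co_le a n) (norm_nonneg _)
  rw [tsum_mul_left, ← norm_eq] at h
  rw [sq]
  exact h

theorem norm_psq_le (a : W) : ‖psq a‖ ≤ ‖a‖ ^ 2 := by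
  rw [norm_eq (psq a)]
  have h : ∑' n, ‖co (psq a) n‖ ≤ ∑' n, ‖a‖ * ‖co a n‖ := by
    refine Summable.tsum_le_tsum (fun n => ?_) (summable_co _) ((summable_co a).mul_left _)
    rw [co_psq, Complex.norm_real, Real.norm_of_nonneg (by positivity), sq]
    exact mul_le_mul_of_nonneg_right (norm_co_le a n) (norm_nonneg _)
  rw [tsum_mul_left] at h
  refine h.trans (le_of_eq ?_)
  rw [← norm_eq, sq]

theorem n4_le_norm (a : W) : n4 a ≤ ‖a‖ := by
  refine le_of_sq_le_sq ?_ (norm_nonneg _)
  rw [n4_sq]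
  exact (n2_le_norm _).trans (norm_psq_le a)

theorem continuous_i4 : Continuous (fun a : W => i4 a) := by
  have : LipschitzWith 1 (fun a : W => i4 a) := LipschitzWith.of_dist_le_mul fun f g => by
    rw [dist_eq_norm, dist_eq_norm, ← map_sub, NNReal.coe_one, one_mul]
    exact n4_le_norm _
  exact this.continuous

theorem continuous_i2 : Continuous (fun a : W => i2 a) := by
  have : LipschitzWith 1 (fun a : W => i2 a) := LipschitzWith.of_dist_le_mul fun f g => by
    rw [dist_eq_norm, dist_eq_norm, ← map_sub, NNReal.coe_one, one_mul]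
    exact n2_le_norm _
  exact this.continuous

theorem n4_mul_le (a b : W) : n4 (a * b) ≤ ‖a‖ * n4 b := by
  have h : HasSum (fun n : ℤ => i4 (co a n • (mono n * b))) (i4 (a * b)) :=
    (hasSum_mul_mono a b).map i4.toAddMonoidHom continuous_i4
  have hs : HasSum (fun n : ℤ => ‖co a n‖ * n4 b) (‖a‖ * n4 b) := by
    rw [norm_eq]
    exact (summable_co a).hasSum.mul_right _
  have hn : ∀ n : ℤ, ‖i4 (co a n • (mono n * b))‖ ≤ ‖co a n‖ * n4 b := fun n => by
    have := n4_smul (co a n) (mono n * b)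
    rw [n4_mono_mul] at this
    exact this.le
  have := tsum_of_norm_bounded hs hn
  rwa [h.tsum_eq] at this

theorem n2_mul_le (a b : W) : n2 (a * b) ≤ ‖a‖ * n2 b := by
  have h : HasSum (fun n : ℤ => i2 (co a n • (mono n * b))) (i2 (a * b)) :=
    (hasSum_mul_mono a b).map i2.toAddMonoidHom continuous_i2
  have hs : HasSum (fun n : ℤ => ‖co a n‖ * n2 b) (‖a‖ * n2 b) := by
    rw [norm_eq]
    exact (summable_co a).hasSum.mul_right _
  have hn : ∀ n : ℤ, ‖i2 (co a n • (mono n * b))‖ ≤ ‖co a n‖ * n2 b := fun n => by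
    have := n2_smul (co a n) (mono n * b)
    rw [n2_mono_mul] at this
    exact this.le
  have := tsum_of_norm_bounded hs hn
  rwa [h.tsum_eq] at this

/-! ### Parseval -/

theorem co_zero_eq_integral (f : W) :
    ∫ t in (0:ℝ)..(2 * π), ev t f = 2 * π * co f 0 := by
  have h := co_eq_integral f 0
  simpa using h

theorem ip_self_eq_integral (a : W) :
    ∫ t in (0:ℝ)..(2 * π), ‖ev t a‖ ^ 2 = 2 * π * n2 a ^ 2 := by
  have h := co_zero_eq_integral (a * adj a)
  have h1 : ∀ t : ℝ, ev t (a * adj a) = ((‖ev t a‖ ^ 2 : ℝ) : ℂ) := fun t => by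
    rw [ev_mul', ev_adj, Complex.mul_conj, Complex.normSq_eq_norm_sq]
  simp_rw [h1] at h
  rw [intervalIntegral.integral_ofReal] at h
  have h2 : co (a * adj a) 0 = ((n2 a ^ 2 : ℝ) : ℂ) := by
    rw [co_mul_adj, n2_sq, Complex.ofReal_tsum]
    refine tsum_congr fun n => ?_
    rw [Complex.mul_conj, Complex.normSq_eq_norm_sq]
  rw [h2] at h
  have h3 : (2 * (π : ℂ)) * ((n2 a ^ 2 : ℝ) : ℂ) = ((2 * π * n2 a ^ 2 : ℝ) : ℂ) := by
    push_cast
    ring
  rw [h3] at h
  exact_mod_cast h

theorem n2_mul_le_sup {a : W} {C : ℝ} (hC : 0 ≤ C) (h : ∀ t, |t| ≤ π → ‖ev t a‖ ≤ C) (b : W) :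
    n2 (a * b) ≤ C * n2 b := by
  have hall : ∀ t, ‖ev t a‖ ≤ C := fun t => by
    obtain ⟨n, hn⟩ := exists_red t
    rw [← ev_periodic t n a]
    exact h _ hn
  refine le_of_sq_le_sq ?_ (mul_nonneg hC (n2_nonneg _))
  have h1 := ip_self_eq_integral (a * b)
  have h2 := ip_self_eq_integral b
  have hpi := Real.pi_pos
  have h3 : ∫ t in (0:ℝ)..(2 * π), ‖ev t (a * b)‖ ^ 2
      ≤ ∫ t in (0:ℝ)..(2 * π), C ^ 2 * ‖ev t b‖ ^ 2 := by
    refine intervalIntegral.integral_mono_on (by positivity) ?_ ?_ fun t _ => ?_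
    · exact ((continuous_evt _).norm.pow 2).intervalIntegrable _ _
    · exact (continuous_const.mul ((continuous_evt _).norm.pow 2)).intervalIntegrable _ _
    · rw [ev_mul', norm_mul, mul_pow]
      exact mul_le_mul_of_nonneg_right (pow_le_pow_left₀ (norm_nonneg _) (hall t) 2)
        (by positivity)
  rw [intervalIntegral.integral_const_mul, h1, h2] at h3
  rw [mul_pow]
  have h4 : 2 * π * n2 (a * b) ^ 2 ≤ 2 * π * (C ^ 2 * n2 b ^ 2) := by linarith
  exact le_of_mul_le_mul_left h4 (by positivity)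

/-- Bessel type inequality for a finite family of multipliers with square sum at most one. -/
theorem sum_n2_mul_le {ι : Type*} (s : Finset ι) (a : ι → W)
    (h : ∀ t, |t| ≤ π → ∑ i ∈ s, ‖ev t (a i)‖ ^ 2 ≤ 1) (b : W) :
    ∑ i ∈ s, n2 (a i * b) ^ 2 ≤ n2 b ^ 2 := by
  have hall : ∀ t, ∑ i ∈ s, ‖ev t (a i)‖ ^ 2 ≤ 1 := fun t => by
    obtain ⟨n, hn⟩ := exists_red t
    have := h _ hn
    simpa only [ev_periodic] using this
  have hpi := Real.pi_pos
  have h1 : ∫ t in (0:ℝ)..(2 * π), ∑ i ∈ s, ‖ev t (a i * b)‖ ^ 2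
      = 2 * π * ∑ i ∈ s, n2 (a i * b) ^ 2 := by
    rw [intervalIntegral.integral_finsetSum, Finset.mul_sum]
    · exact Finset.sum_congr rfl fun i _ => ip_self_eq_integral _
    · exact fun i _ => ((continuous_evt _).norm.pow 2).intervalIntegrable _ _
  have h2 := ip_self_eq_integral b
  have h3 : ∫ t in (0:ℝ)..(2 * π), ∑ i ∈ s, ‖ev t (a i * b)‖ ^ 2
      ≤ ∫ t in (0:ℝ)..(2 * π), ‖ev t b‖ ^ 2 := by
    refine intervalIntegral.integral_mono_on (by positivity) ?_ ?_ fun t _ => ?_
    · exact (continuous_finsetSum _ fun i _ => (continuous_evt _).norm.pow 2).intervalIntegrable _ _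
    · exact ((continuous_evt _).norm.pow 2).intervalIntegrable _ _
    · simp_rw [ev_mul', norm_mul, mul_pow]
      rw [← Finset.sum_mul]
      exact mul_le_of_le_one_left (by positivity) (hall t)
  rw [h1, h2] at h3
  exact le_of_mul_le_mul_left h3 (by positivity)

/-! ### Hadamard products on the circle side -/

/-- auxiliary twist -/
noncomputable def tw (t : ℝ) (b : W) : W :=
  mkW (fun n => co b (-n) * Complex.exp (((-n : ℤ) : ℂ) * (t * Complex.I))) (by
    have := (Equiv.neg ℤ).summable_iff.2 (summable_co b)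
    refine this.congr fun n => ?_
    rw [norm_mul, show (((-n : ℤ) : ℂ)) * (t * Complex.I)
      = (((-n : ℤ) * t : ℝ) : ℂ) * Complex.I by push_cast; ring,
      Complex.norm_exp_ofReal_mul_I, mul_one]
    rfl)

theorem co_tw (t : ℝ) (b : W) (n : ℤ) :
    co (tw t b) n = co b (-n) * Complex.exp (((-n : ℤ) : ℂ) * (t * Complex.I)) := rfl

theorem ev_tw (t s : ℝ) (b : W) : ev s (tw t b) = ev (t - s) b := by
  rw [ev_eq, ev_eq, ← (Equiv.neg ℤ).tsum_eq]
  refine tsum_congr fun n => ?_
  simp only [Equiv.neg_apply]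
  rw [co_tw, neg_neg, mul_assoc, ← Complex.exp_add]
  congr 2
  push_cast
  ring

theorem ev_had (t : ℝ) (a b : W) :
    2 * π * ev t (had a b) = ∫ s in (0:ℝ)..(2 * π), ev s a * ev (t - s) b := by
  have h : ∀ s : ℝ, ev s a * ev (t - s) b = ev s (a * tw t b) := fun s => by
    rw [ev_mul', ev_tw]
  simp_rw [h]
  rw [co_zero_eq_integral, ev_eq, co_mul]
  congr 1
  refine tsum_congr fun n => ?_
  rw [co_had, co_tw, zero_sub, neg_neg]
  ring

/-! ### frequency supports -/

/-- the symbol vanishes at all frequencies of absolute value at least `T` -/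
def Low (T : ℝ) (a : W) : Prop := ∀ t, |t| ≤ π → T ≤ |t| → ev t a = 0

/-- the symbol vanishes at all frequencies of absolute value at most `T` -/
def High (T : ℝ) (a : W) : Prop := ∀ t, |t| ≤ T → ev t a = 0

theorem Low.ev_zero {T : ℝ} {a : W} (h : Low T a) {t : ℝ} (ht : ∀ n : ℤ, T ≤ |t - 2 * π * n|) :
    ev t a = 0 := by
  obtain ⟨n, hn⟩ := exists_red t
  rw [← ev_periodic t n a]
  exact h _ hn (ht n)

theorem Low.anti {S T : ℝ} {a : W} (h : Low S a) (hST : S ≤ T) : Low T a :=
  fun t h1 h2 => h t h1 (hST.trans h2)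

theorem High.anti {S T : ℝ} {a : W} (h : High T a) (hST : S ≤ T) : High S a :=
  fun t h1 => h t (h1.trans hST)

theorem Low.mul_left {T : ℝ} {a : W} (h : Low T a) (c : W) : Low T (c * a) :=
  fun t h1 h2 => by rw [ev_mul', h t h1 h2, mul_zero]

theorem High.mul_left {T : ℝ} {a : W} (h : High T a) (c : W) : High T (c * a) :=
  fun t h1 => by rw [ev_mul', h t h1, mul_zero]

theorem Low.mul_right {T : ℝ} {a : W} (h : Low T a) (c : W) : Low T (a * c) :=
  fun t h1 h2 => by rw [ev_mul', h t h1 h2, zero_mul]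

theorem High.mul_right {T : ℝ} {a : W} (h : High T a) (c : W) : High T (a * c) :=
  fun t h1 => by rw [ev_mul', h t h1, zero_mul]

theorem Low.add {T : ℝ} {a b : W} (h : Low T a) (h' : Low T b) : Low T (a + b) :=
  fun t h1 h2 => by rw [ev_add, h t h1 h2, h' t h1 h2, add_zero]

theorem High.add {T : ℝ} {a b : W} (h : High T a) (h' : High T b) : High T (a + b) :=
  fun t h1 => by rw [ev_add, h t h1, h' t h1, add_zero]

theorem Low.sub {T : ℝ} {a b : W} (h : Low T a) (h' : Low T b) : Low T (a - b) :=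
  fun t h1 h2 => by rw [ev_sub, h t h1 h2, h' t h1 h2, sub_zero]

theorem High.sub {T : ℝ} {a b : W} (h : High T a) (h' : High T b) : High T (a - b) :=
  fun t h1 => by rw [ev_sub, h t h1, h' t h1, sub_zero]

theorem low_zero (T : ℝ) : Low T 0 := fun t _ _ => ev_zero' t
theorem high_zero (T : ℝ) : High T 0 := fun t _ => ev_zero' t

theorem Low.smul {T : ℝ} {a : W} (h : Low T a) (c : ℂ) : Low T (c • a) :=
  fun t h1 h2 => by rw [ev_smul', h t h1 h2, mul_zero]

theorem High.smul {T : ℝ} {a : W} (h : High T a) (c : ℂ) : High T (c • a) :=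
  fun t h1 => by rw [ev_smul', h t h1, mul_zero]

theorem Low.sum {ι : Type*} {T : ℝ} {s : Finset ι} {a : ι → W} (h : ∀ i ∈ s, Low T (a i)) :
    Low T (∑ i ∈ s, a i) := fun t h1 h2 => by
  rw [ev_sum]
  exact Finset.sum_eq_zero fun i hi => h i hi t h1 h2

theorem High.sum {ι : Type*} {T : ℝ} {s : Finset ι} {a : ι → W} (h : ∀ i ∈ s, High T (a i)) :
    High T (∑ i ∈ s, a i) := fun t h1 => by
  rw [ev_sum]
  exact Finset.sum_eq_zero fun i hi => h i hi t h1

theorem Low.cj {T : ℝ} {a : W} (h : Low T a) : Low T (cj a) := fun t h1 h2 => by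
  rw [ev_cj, h (-t) (by rwa [abs_neg]) (by rwa [abs_neg]), map_zero]

theorem High.cj {T : ℝ} {a : W} (h : High T a) : High T (cj a) := fun t h1 => by
  rw [ev_cj, h (-t) (by rwa [abs_neg]), map_zero]

theorem Low.adj {T : ℝ} {a : W} (h : Low T a) : Low T (adj a) := fun t h1 h2 => by
  rw [ev_adj, h t h1 h2, map_zero]

theorem High.adj {T : ℝ} {a : W} (h : High T a) : High T (adj a) := fun t h1 => by
  rw [ev_adj, h t h1, map_zero]

/-- low times high vanishes -/
theorem Low.mul_high {T : ℝ} {a b : W} (ha : Low T a) (hb : High T b) : a * b = 0 := by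
  refine ext_pi fun t ht => ?_
  rw [ev_mul', ev_zero']
  rcases le_total T |t| with h | h
  · rw [ha t ht h, zero_mul]
  · rw [hb t h, mul_zero]

theorem ip_low_high {T : ℝ} {a b : W} (ha : Low T a) (hb : High T b) : ip a b = 0 := by
  unfold ip
  rw [ha.mul_high hb.adj, co_zero, Complex.zero_re]

theorem Low.had {S T : ℝ} {a b : W} (ha : Low S a) (hb : Low T b) (hST : S + T ≤ π) :
    Low (S + T) (had a b) := fun t h1 h2 => by
  have h := ev_had t a b
  have hpi := Real.pi_pos
  have hz : ∀ s : ℝ, ev s a * ev (t - s) b = 0 := by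
    intro s
    obtain ⟨n, hn⟩ := exists_red s
    rw [← ev_periodic s n a]
    have h3 : ev (t - s) b = ev (t - (s - 2 * π * n)) b := by
      have := ev_periodic (t - s) (-n) b
      rw [← this]
      congr 1
      push_cast
      ring
    rw [h3]
    set u := s - 2 * π * n with hu
    rcases le_total S |u| with h4 | h4
    · rw [ha u hn h4, zero_mul]
    · rw [hb.ev_zero, mul_zero]
      intro k
      have h5 : S + T ≤ |t| := h2
      rcases eq_or_ne k 0 with hk | hk
      · subst hk
        simp only [Int.cast_zero, mul_zero, sub_zero]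
        have := abs_sub_abs_le_abs_sub t u
        linarith
      · have hk1 : (1 : ℝ) ≤ |(k : ℝ)| := by
          have : 1 ≤ |k| := Int.one_le_abs hk
          exact_mod_cast this
        have h6 : 2 * π ≤ |2 * π * (k : ℝ)| := by
          rw [abs_mul, abs_of_pos (by positivity : (0:ℝ) < 2 * π)]
          nlinarith
        have h7 : |2 * π * (k : ℝ)| ≤ |t - u - 2 * π * k| + |t - u| := by
          have := abs_sub (t - u) (t - u - 2 * π * k)
          rw [show t - u - (t - u - 2 * π * k) = 2 * π * (k : ℝ) by ring] at this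
          linarith
        have h8 := abs_sub t u
        linarith
  simp_rw [hz] at h
  rw [intervalIntegral.integral_zero] at h
  have h2pi : (2 * (π : ℂ)) ≠ 0 := by
    simp [Real.pi_ne_zero]
  exact (mul_eq_zero.1 h).resolve_left h2pi

theorem Low.psq {T : ℝ} {a : W} (ha : Low T a) (hT : 2 * T ≤ π) : Low (2 * T) (psq a) := by
  rw [psq_eq, two_mul]
  exact ha.had ha.cj (by linarith)

end Pool.Agent.H47.Vin
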