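import Pool.Agent.H47.Vin.Rec3
import Pool.Agent.H20.Vin.Disc
import Pool.Agent.H36.Vin.Fin
import Pool.Agent.H40.Vin.Bla

/-!
# From the recursion to the inner function
-/

namespace Pool.Agent.H47.Vin

open scoped BigOperators Real ENNReal
open Filter Topology Metric Pool.Agent.H20.Vin Pool.Agent.H36.Vin

theorem norm_pw_ge_le {a : W} {N : ℕ} (ha : Ge (N : ℤ) a) {z : ℂ} (hz : ‖z‖ ≤ 1) :
    ‖pw a z‖ ≤ ‖a‖ * ‖z‖ ^ N := by
  unfold pw
  have h1 : ∀ n : ℕ, ‖co a n * z ^ n‖ ≤ ‖co a n‖ * ‖z‖ ^ N := by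
    intro n
    rcases lt_or_ge n N with h | h
    · rw [ha n (by exact_mod_cast h)]
      simp
    · rw [norm_mul, norm_pow]
      exact mul_le_mul_of_nonneg_left (pow_le_pow_of_le_one (norm_nonneg _) hz h) (norm_nonneg _)
  have hs : Summable fun n : ℕ => ‖co a n‖ * ‖z‖ ^ N := (summable_co_nat a).mul_right _
  refine (norm_tsum_le_tsum_norm (summable_pw a hz)).trans ?_
  refine (Summable.tsum_le_tsum h1 (summable_pw a hz) hs).trans ?_
  rw [tsum_mul_right]
  refine mul_le_mul_of_nonneg_right ?_ (by positivity)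
  rw [norm_eq]
  exact tsum_comp_le_tsum_of_inj (summable_co a) (fun _ => norm_nonneg _) Nat.cast_injective

theorem pw_add' (a b : W) {z : ℂ} (hz : ‖z‖ ≤ 1) : pw (a + b) z = pw a z + pw b z := by
  unfold pw
  rw [← (summable_pw a hz).of_norm.tsum_add (summable_pw b hz).of_norm]
  exact tsum_congr fun n => by rw [co_add, add_mul]

theorem pw_sub' (a b : W) {z : ℂ} (hz : ‖z‖ ≤ 1) : pw (a - b) z = pw a z - pw b z := by
  unfold pw
  rw [← (summable_pw a hz).of_norm.tsum_sub (summable_pw b hz).of_norm]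
  exact tsum_congr fun n => by rw [co_sub, sub_mul]

theorem pw_one_sub {z : ℂ} : pw (1 - mono 1) z = 1 - z := by
  unfold pw
  rw [tsum_eq_sum (s := Finset.range 2)]
  · rw [Finset.sum_range_succ, Finset.sum_range_one]
    simp [co_sub, co_one, co_mono]
    ring
  · intro n hn
    have h2 : 2 ≤ n := by
      have := Finset.mem_range.not.1 hn
      omega
    rw [co_sub, co_one, co_mono, if_neg (by omega), if_neg (by omega)]
    simp

namespace Par

variable (P : Par)

theorem tendsto_pw_X {z : ℂ} (hz : ‖z‖ < 1) : Tendsto (fun K => pw (P.X K) z) atTop (𝓝 0) := by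
  have h0 : Tendsto (fun n : ℕ => (n : ℝ) * ‖z‖ ^ n) atTop (𝓝 0) :=
    tendsto_self_mul_const_pow_of_lt_one (norm_nonneg _) hz
  have hN : Tendsto (fun K => 2 ^ (P.m K - 1)) atTop atTop := by
    refine tendsto_atTop_mono (fun K => ?_) tendsto_id
    have h1 := P.hs4 K
    have h2 : P.m K - 1 < 2 ^ (P.m K - 1) := Nat.lt_two_pow_self
    simp only [id]
    omega
  have h1 := h0.comp hN
  refine squeeze_zero_norm (fun K => ?_) h1
  have hge : Ge ((2 ^ (P.m K - 1) : ℕ) : ℤ) (P.X K) := by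
    have := P.ge_X K
    push_cast
    exact this
  refine (norm_pw_ge_le hge hz.le).trans ?_
  simp only [Function.comp_apply]
  refine mul_le_mul_of_nonneg_right ((P.norm_X_le K).trans ?_) (by positivity)
  push_cast
  refine pow_le_pow_right₀ (by norm_num) ?_
  have h1 := P.hs4 K
  omega

theorem tendsto_pw_R {G : W} (hG : Tendsto (fun k => (1 - mono 1) * P.F k) atTop (𝓝 G))
    {z : ℂ} (hz : ‖z‖ < 1) :
    Tendsto (fun K => pw (sig * P.R K) z) atTop (𝓝 (pw G z / (1 - z))) := by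
  have hz1 : 1 - z ≠ 0 := by
    intro h
    have : z = 1 := (sub_eq_zero.1 h).symm
    rw [this, norm_one] at hz
    exact lt_irrefl _ hz
  have h1 : ∀ K, pw (sig * P.R K) z = pw ((1 - mono 1) * P.F K) z / (1 - z) - pw (P.X K) z := by
    intro K
    have hg1 : Ge 0 (1 - mono 1 : W) := ge_one.sub (Ge.mono_le (by norm_num) (ge_mono 1))
    rw [pw_mul hg1 (P.ge_F K) hz.le, pw_one_sub, mul_div_cancel_left₀ _ hz1]
    unfold F
    rw [pw_add' _ _ hz.le]
    ring
  simp_rw [h1]
  have h2 : Tendsto (fun K => pw ((1 - mono 1) * P.F K) z) atTop (𝓝 (pw G z)) := by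
    rw [tendsto_iff_norm_sub_tendsto_zero]
    have h3 := tendsto_iff_norm_sub_tendsto_zero.1 hG
    refine squeeze_zero (fun K => norm_nonneg _) (fun K => ?_) h3
    rw [← pw_sub' _ _ hz.le]
    exact norm_pw_le _ hz.le
  have h4 := (h2.div_const (1 - z)).sub (P.tendsto_pw_X hz)
  rwa [sub_zero] at h4

theorem main_of {C : ℝ} (hC : 0 ≤ C)
    (hM : ∀ i K f, n4 ((∏ j ∈ Finset.range K, P.Ph (i + 1 + j)) * f) ≤ C * n4 f)
    (hX : ∀ K t, ‖ev t (P.X K)‖ ≤ 3) :
    ∃ T J : ℂ → ℂ, IsInner T ∧ IsInner J ∧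
      (∀ z ∈ ball (0 : ℂ) 1, T z = Complex.exp (-(1 + z) / (1 - z)) * J z) ∧
      (∀ p : ℝ≥0∞, 4 / 3 ≤ p → p ≤ 4 → MemMpA p T) ∧ ¬ IsBlaschke T := by
  obtain ⟨D', hD1, hD2, hD3⟩ := P.exists_D_lim
  obtain ⟨G, hG1, hG2⟩ := P.exists_G_lim
  obtain ⟨O, Oi, hO1, hO2, hO3, hO4, hO5, hO6⟩ := outer_factor D' hD3 (by linarith)
  have hre : ∀ t, |(ev t D').re| ≤ 1 / 256 := fun t =>
    (Complex.abs_re_le_norm _).trans ((norm_ev_le t D').trans hD2)
  have hd : ∀ t, 0 < 1 + (ev t D').re := fun t => by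
    have := (abs_le.1 (hre t)).1
    linarith
  have hOt : ∀ t : ℝ, ‖ev t Oi‖ ^ 2 = 1 / (1 + (ev t D').re) := by
    intro t
    have h1 := congrArg (fun a => (ev t a).re) hO4
    simp only [ev_mul', ev_adj, ev_add, ev_one'] at h1
    rw [Complex.mul_conj, Complex.normSq_eq_norm_sq, Complex.ofReal_re, Complex.add_re,
      Complex.one_re] at h1
    have h2 := congrArg (fun a => ‖ev t a‖) hO1
    simp only [ev_mul', ev_one', norm_mul, norm_one] at h2
    rw [eq_div_iff (hd t).ne', ← h1, ← mul_pow, mul_comm, h2, one_pow]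
  obtain ⟨T, J, hT, hTJ, hTd, hTc, hTb, hT1, hJd, hJc, hJb, hJ1⟩ :=
    disc_part G Oi sig P.R (fun t => (ev t D').re) hG2 hO3 P.ge_R ge_sig
      (fun z hz => pw_sig hz.le) hd (P.ev_G hG1 hD1) hOt
      (fun z hz => P.tendsto_pw_R hG1 hz) (C := 5) (fun K t => by
        have h1 : sig * P.R K = P.F K - P.X K := by
          unfold F
          ring
        rw [h1, ev_sub]
        refine (norm_sub_le _ _).trans ?_
        have h2 := hX K t
        have h3 := P.norm_ev_F_sq K t
        have h4 : ‖ev t (P.F K)‖ ^ 2 ≤ 2 ^ 2 := by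
          rw [h3]
          have h5 : |(ev t (P.D K)).re| ≤ 1 / 256 := by
            refine (Complex.abs_re_le_norm _).trans ((norm_ev_le t _).trans ?_)
            have h6 : ∀ n, ‖P.D n‖ ≤ 1 / 256 * (1 - (1 / 2) ^ n) := by
              intro n
              induction n with
              | zero => rw [P.D_zero]; simp
              | succ n ih =>
                  have h7 := P.norm_D_sub n
                  have h8 : P.D (n + 1) = P.D n + (P.D (n + 1) - P.D n) := by ring
                  rw [h8]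
                  refine (norm_add_le _ _).trans ?_
                  rw [pow_succ]
                  linarith
            refine (h6 K).trans ?_
            have : (0:ℝ) ≤ (1 / 2) ^ K := by positivity
            linarith
          have := (abs_le.1 h5).2
          linarith
        have h9 : ‖ev t (P.F K)‖ ≤ 2 := le_of_sq_le_sq h4 (by norm_num)
        linarith)
  have hBlim : Tendsto (fun K => (1 - mono 1) * (P.F K * Oi)) atTop (𝓝 (G * Oi)) := by
    have := hG1.mul_const Oi
    refine this.congr fun K => ?_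
    ring
  have hGO : Ge 0 (G * Oi) := by
    have := hG2.mul hO3
    rwa [add_zero] at this
  have hA : ∀ K, Ge 0 (P.F K * Oi) := fun K => by
    have := (P.ge_F K).mul hO3
    rwa [add_zero] at this
  have hn4 : ∀ K f, n4 (P.F K * Oi * f) ≤ (‖Oi‖ * (2 * C)) * n4 f := by
    intro K f
    have h1 : P.F K * Oi * f = Oi * (P.F K * f) := by ring
    rw [h1, mul_assoc]
    exact (n4_mul_le _ _).trans (mul_le_mul_of_nonneg_left (P.n4_F_le hC hM K f) (norm_nonneg _))
  have hfin := assemble (T := T) (J := J) (B := G * Oi) (A := fun K => P.F K * Oi)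
    (C := ‖Oi‖ * (2 * C)) (by positivity) hGO
    (fun z hz => by rw [hT z, pw_mul hG2 hO3 hz]) (fun z _ => hTJ z)
    hTd hTc hTb hT1 hJd hJc hJb hJ1 hA hBlim hn4
  refine ⟨T, J, hfin.1, hfin.2.1, hfin.2.2.1, hfin.2.2.2, ?_⟩
  refine Pool.Agent.H40.Vin.not_blaschke (J := J) (fun z hz => hJb z (by simpa using hz))
    fun z hz => ?_
  rw [hfin.2.2.1 z hz, neg_div]

end Par

end Pool.Agent.H47.Vin
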