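import Pool.Agent.H36.Vin.Fej
import Pool.Agent.H20.Vin.Cut0

/-!
# Symbols of one stage: bands, cut, `Phi`
-/

namespace Pool.Agent.H47.Vin

open scoped BigOperators

/-- Neumann inverse of `1 - w G κ / 64` -/
noncomputable def nb (M : ℕ) (x : ℝ) (κ : W) : W :=
  ∑' n : ℕ, ((1 / 64 : ℂ) • (mono (M : ℤ) * Gc M x * κ)) ^ n

/-- band symbol: `x' / (1 + (1 - x') w)` with `x' = x (1 + κ / 64)` -/
noncomputable def gb (M : ℕ) (x : ℝ) (κ : W) : W :=
  (1 + (1 / 64 : ℂ) • κ) * Gc M x * nb M x κ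

/-- levels -/
noncomputable def xs (I u : ℕ) : ℝ := (64 / 65 : ℝ) ^ (I - u)

/-- the symbol of one stage -/
noncomputable def Phi (p r I m : ℕ) : W :=
  1 - phi p m * Gc (2 ^ m) (xs I 0)
    - (1 - mono ((2 ^ m : ℕ) : ℤ)) * ∑ u ∈ Finset.range I,
        (gb (2 ^ m) (xs I u) (kap (p + (u + 1) * r)) - Gc (2 ^ m) (xs I u))

theorem xs_pos (I u : ℕ) : 0 < xs I u := by unfold xs; positivity

theorem xs_le_one (I u : ℕ) : xs I u ≤ 1 := by
  unfold xs
  exact pow_le_one₀ (by norm_num) (by norm_num)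

theorem xs_succ {I u : ℕ} (h : u < I) : xs I (u + 1) = xs I u * (1 + 1 / 64) := by
  unfold xs
  rw [show I - u = (I - (u + 1)) + 1 by omega, pow_succ]
  ring

theorem xs_self (I : ℕ) : xs I I = 1 := by unfold xs; simp

theorem xs_le_of_lt {I u : ℕ} (h : u < I) : xs I u ≤ 64 / 65 := by
  unfold xs
  rw [show I - u = (I - (u + 1)) + 1 by omega, pow_succ]
  exact mul_le_of_le_one_left (by norm_num) (pow_le_one₀ (by norm_num) (by norm_num))

theorem xs_mono {I u v : ℕ} (h : u ≤ v) : xs I u ≤ xs I v := by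
  unfold xs
  exact pow_le_pow_of_le_one (by norm_num) (by norm_num) (by omega)

section nb

variable {M : ℕ} {x : ℝ} {κ : W}

theorem norm_nb_arg (h0 : 0 < x) (h1 : x ≤ 1) (hκ : ‖κ‖ ≤ 3) :
    ‖(1 / 64 : ℂ) • (mono (M : ℤ) * Gc M x * κ)‖ ≤ 3 / 64 := by
  rw [norm_smul]
  have h2 : ‖mono (M : ℤ) * Gc M x * κ‖ ≤ 1 * 1 * 3 := by
    refine (norm_mul_le _ _).trans ?_
    refine mul_le_mul ?_ hκ (norm_nonneg _) (by norm_num)
    refine (norm_mul_le _ _).trans ?_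
    exact mul_le_mul (norm_mono _).le (norm_Gc_le h0 h1) (norm_nonneg _) (by norm_num)
  have h3 : ‖(1 / 64 : ℂ)‖ = 1 / 64 := by norm_num
  rw [h3]
  linarith

theorem summable_nb (h0 : 0 < x) (h1 : x ≤ 1) (hκ : ‖κ‖ ≤ 3) :
    Summable fun n : ℕ => ((1 / 64 : ℂ) • (mono (M : ℤ) * Gc M x * κ)) ^ n :=
  summable_geometric_of_norm_lt_one ((norm_nb_arg h0 h1 hκ).trans_lt (by norm_num))

theorem nb_mul (h0 : 0 < x) (h1 : x ≤ 1) (hκ : ‖κ‖ ≤ 3) :
    (1 - (1 / 64 : ℂ) • (mono (M : ℤ) * Gc M x * κ)) * nb M x κ = 1 :=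
  mul_neg_geom_series _ ((norm_nb_arg h0 h1 hκ).trans_lt (by norm_num))

theorem norm_nb_le (h0 : 0 < x) (h1 : x ≤ 1) (hκ : ‖κ‖ ≤ 3) : ‖nb M x κ‖ ≤ 2 := by
  have h := norm_nb_arg (M := M) h0 h1 hκ
  have hs : HasSum (fun n : ℕ => (3 / 64 : ℝ) ^ n) (1 - 3 / 64)⁻¹ :=
    hasSum_geometric_of_lt_one (by norm_num) (by norm_num)
  refine (tsum_of_norm_bounded hs fun n => ?_).trans (by norm_num)
  exact (norm_pow_le _ n).trans (pow_le_pow_left₀ (norm_nonneg _) h n)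

theorem norm_gb_le (h0 : 0 < x) (h1 : x ≤ 1) (hκ : ‖κ‖ ≤ 3) : ‖gb M x κ‖ ≤ 3 := by
  unfold gb
  have h3 : ‖(1 / 64 : ℂ)‖ = 1 / 64 := by norm_num
  have h2 : ‖1 + (1 / 64 : ℂ) • κ‖ ≤ 67 / 64 := by
    refine (norm_add_le _ _).trans ?_
    rw [norm_smul, h3, norm_one]
    linarith
  calc ‖(1 + (1 / 64 : ℂ) • κ) * Gc M x * nb M x κ‖
      ≤ ‖(1 + (1 / 64 : ℂ) • κ) * Gc M x‖ * ‖nb M x κ‖ := norm_mul_le _ _
    _ ≤ (67 / 64 * 1) * 2 := by
        refine mul_le_mul ?_ (norm_nb_le h0 h1 hκ) (norm_nonneg _) (by norm_num)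
        exact (norm_mul_le _ _).trans
          (mul_le_mul h2 (norm_Gc_le h0 h1) (norm_nonneg _) (by norm_num))
    _ ≤ 3 := by norm_num

/-- pointwise value of a band symbol -/
theorem ev_gb (h0 : 0 < x) (h1 : x * (1 + 1 / 64) ≤ 1) (hκ : ‖κ‖ ≤ 3) {t c : ℝ}
    (hc0 : 0 ≤ c) (hc1 : c ≤ 1) (hc : ev t κ = (c : ℂ)) :
    ev t (gb M x κ) = ((x * (1 + c / 64) : ℝ) : ℂ) /
      (1 + ((1 - x * (1 + c / 64) : ℝ) : ℂ) * ev t (mono (M : ℤ))) := by
  have hx1 : x ≤ 1 := by nlinarith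
  have hn := congrArg (ev t) (nb_mul (M := M) h0 hx1 hκ)
  rw [ev_mul', ev_sub, ev_one', ev_smul', ev_mul', ev_mul', hc] at hn
  unfold gb
  rw [ev_mul', ev_mul', ev_add, ev_one', ev_smul', hc]
  set g := ev t (Gc M x) with hg
  set w := ev t (mono (M : ℤ)) with hw
  set b := ev t (nb M x κ) with hb
  have hwn : ‖w‖ = 1 := norm_expM M t
  have hgv : g = (x : ℂ) / (1 + ((1 - x : ℝ) : ℂ) * w) := ev_Gc h0 hx1 t
  have hd1 : 1 + ((1 - x : ℝ) : ℂ) * w ≠ 0 := one_add_ne h0 hx1 hwn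
  have hx' : 0 < x * (1 + c / 64) := by positivity
  have hx'1 : x * (1 + c / 64) ≤ 1 := by
    refine le_trans ?_ h1
    exact mul_le_mul_of_nonneg_left (by linarith) h0.le
  have hd2 : 1 + ((1 - x * (1 + c / 64) : ℝ) : ℂ) * w ≠ 0 := one_add_ne hx' hx'1 hwn
  have hbv : b * (1 + ((1 - x * (1 + c / 64) : ℝ) : ℂ) * w) = 1 + ((1 - x : ℝ) : ℂ) * w := by
    have h3 : (1 - 1 / 64 * (w * g * (c : ℂ))) * (1 + ((1 - x : ℝ) : ℂ) * w)
        = 1 + ((1 - x * (1 + c / 64) : ℝ) : ℂ) * w := by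
      have hgD : g * (1 + ((1 - x : ℝ) : ℂ) * w) = (x : ℂ) := by
        rw [hgv]
        exact div_mul_cancel₀ _ hd1
      calc (1 - 1 / 64 * (w * g * (c : ℂ))) * (1 + ((1 - x : ℝ) : ℂ) * w)
          = (1 + ((1 - x : ℝ) : ℂ) * w)
            - 1 / 64 * w * (c : ℂ) * (g * (1 + ((1 - x : ℝ) : ℂ) * w)) := by ring
        _ = _ := by
          rw [hgD]
          push_cast
          ring
    calc b * (1 + ((1 - x * (1 + c / 64) : ℝ) : ℂ) * w)
        = ((1 - 1 / 64 * (w * g * (c : ℂ))) * b) * (1 + ((1 - x : ℝ) : ℂ) * w) := by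
          rw [← h3]; ring
      _ = 1 + ((1 - x : ℝ) : ℂ) * w := by rw [hn, one_mul]
  rw [eq_div_iff hd2, mul_assoc, hbv, hgv]
  field_simp
  push_cast
  ring

theorem ev_gb_zero (h0 : 0 < x) (h1 : x * (1 + 1 / 64) ≤ 1) (hκ : ‖κ‖ ≤ 3) {t : ℝ}
    (hc : ev t κ = 0) : ev t (gb M x κ) = ev t (Gc M x) := by
  have hx1 : x ≤ 1 := by nlinarith
  rw [ev_gb h0 h1 hκ le_rfl zero_le_one (by rw [hc]; simp), ev_Gc h0 hx1]
  simp

theorem ev_gb_one (h0 : 0 < x) (h1 : x * (1 + 1 / 64) ≤ 1) (hκ : ‖κ‖ ≤ 3) {t : ℝ}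
    (hc : ev t κ = 1) : ev t (gb M x κ) = ev t (Gc M (x * (1 + 1 / 64))) := by
  rw [ev_gb h0 h1 hκ zero_le_one le_rfl (by rw [hc]; simp), ev_Gc (by positivity) h1]

end nb

section zones

variable {p r I m : ℕ}

theorem xs_step {I u : ℕ} (h : u < I) : xs I u * (1 + 1 / 64) ≤ 1 := by
  rw [← xs_succ h]
  exact xs_le_one _ _

/-- outer zone -/
theorem ev_Phi_cut (hp : 1 ≤ p) {t : ℝ} (ht : |t| ≤ Real.pi) (h : Tp (p + r) ≤ |t|) :
    ev t (Phi p r I m) = ev t (1 - phi p m * Gc (2 ^ m) (xs I 0)) := by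
  unfold Phi
  rw [ev_sub _ (1 - _), ev_mul' t (1 - mono _), ev_sum]
  rw [Finset.sum_eq_zero, mul_zero, sub_zero]
  intro u hu
  have hu' := Finset.mem_range.1 hu
  have h1 : Tp (p + (u + 1) * r) ≤ |t| :=
    (Tp_anti (by nlinarith)).trans h
  rw [ev_sub, ev_gb_zero (xs_pos _ _) (xs_step hu') (norm_kap_le (by omega))
    (ev_kap_zero (by omega) ht h1), sub_self]

/-- band zones -/
theorem ev_Phi_band (hp : 1 ≤ p) (hpm : p ≤ m) {u : ℕ} (hu : u < I) {t : ℝ}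
    (ht : |t| < Tp p) (h1 : u = 0 ∨ |t| ≤ Tp (p + u * r + 1))
    (h2 : u + 1 = I ∨ Tp (p + (u + 2) * r) ≤ |t|) :
    ev t (Phi p r I m) = ev t (1 - (1 - mono ((2 ^ m : ℕ) : ℤ)) *
      gb (2 ^ m) (xs I u) (kap (p + (u + 1) * r))) := by
  have htpi : |t| ≤ Real.pi := ht.le.trans (Tp_le_pi hp)
  have hsum : ∑ v ∈ Finset.range I, ev t (gb (2 ^ m) (xs I v) (kap (p + (v + 1) * r))
      - Gc (2 ^ m) (xs I v))
      = ev t (gb (2 ^ m) (xs I u) (kap (p + (u + 1) * r))) - ev t (Gc (2 ^ m) (xs I 0)) := by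
    obtain ⟨d, rfl⟩ := Nat.exists_eq_add_of_lt hu
    have hA : ∑ v ∈ Finset.range u, ev t (gb (2 ^ m) (xs (u + d + 1) v) (kap (p + (v + 1) * r))
      - Gc (2 ^ m) (xs (u + d + 1) v))
      = ev t (Gc (2 ^ m) (xs (u + d + 1) u)) - ev t (Gc (2 ^ m) (xs (u + d + 1) 0)) := by
      rw [← Finset.sum_range_sub (fun v => ev t (Gc (2 ^ m) (xs (u + d + 1) v)))]
      refine Finset.sum_congr rfl fun v hv => ?_
      have hv' := Finset.mem_range.1 hv
      have hvI : v < u + d + 1 := by omega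
      have hk : ev t (kap (p + (v + 1) * r)) = 1 := by
        refine ev_kap_one (by omega) ?_
        rcases h1 with h1 | h1
        · omega
        · refine h1.trans (Tp_anti ?_)
          have : (v + 1) * r ≤ u * r := Nat.mul_le_mul_right _ (by omega)
          omega
      rw [ev_sub, ev_gb_one (xs_pos _ _) (xs_step hvI) (norm_kap_le (by omega)) hk,
        ← xs_succ hvI]
    have hB : ∑ v ∈ Finset.range d, ev t (gb (2 ^ m) (xs (u + d + 1) (u + 1 + v))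
        (kap (p + (u + 1 + v + 1) * r)) - Gc (2 ^ m) (xs (u + d + 1) (u + 1 + v))) = 0 := by
      refine Finset.sum_eq_zero fun v hv => ?_
      have hv' := Finset.mem_range.1 hv
      have hvI : u + 1 + v < u + d + 1 := by omega
      have hk : ev t (kap (p + (u + 1 + v + 1) * r)) = 0 := by
        refine ev_kap_zero (by omega) htpi ?_
        rcases h2 with h2 | h2
        · omega
        · refine (Tp_anti ?_).trans h2
          have : (u + 2) * r ≤ (u + 1 + v + 1) * r := Nat.mul_le_mul_right _ (by omega)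
          omega
      rw [ev_sub, ev_gb_zero (xs_pos _ _) (xs_step hvI) (norm_kap_le (by omega)) hk, sub_self]
    rw [show u + d + 1 = (u + 1) + d by ring] at hA hB ⊢
    rw [Finset.sum_range_add, Finset.sum_range_succ, hA, hB, add_zero, ev_sub]
    ring
  unfold Phi
  rw [ev_sub _ (1 - _), ev_mul' t (1 - mono _), ev_sum, hsum, ev_sub, ev_mul', ev_sub,
    ev_phi_in hp hpm ht, ev_sub, ev_mul', ev_sub, ev_one']
  ring

/-- innermost zone -/
theorem ev_Phi_in (hp : 1 ≤ p) (hpm : p ≤ m) {t : ℝ}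
    (ht : |t| ≤ Tp (p + I * r + 1)) :
    ev t (Phi p r I m) = ev t (mono ((2 ^ m : ℕ) : ℤ)) := by
  have ht0 : |t| < Tp p := by
    refine ht.trans_lt ?_
    have h1 : Tp (p + I * r + 1) ≤ Tp (p + 1) := Tp_anti (by nlinarith)
    refine h1.trans_lt ?_
    rw [Tp_add]
    have := Tp_pos p
    linarith
  have htpi : |t| ≤ Real.pi := ht0.le.trans (Tp_le_pi hp)
  have hsum : ∑ v ∈ Finset.range I, ev t (gb (2 ^ m) (xs I v) (kap (p + (v + 1) * r))
      - Gc (2 ^ m) (xs I v)) = 1 - ev t (Gc (2 ^ m) (xs I 0)) := by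
    have h1 : (1 : ℂ) = ev t (Gc (2 ^ m) (xs I I)) := by
      rw [xs_self, Gc_one, ev_one']
    rw [h1, ← Finset.sum_range_sub (fun v => ev t (Gc (2 ^ m) (xs I v)))]
    refine Finset.sum_congr rfl fun v hv => ?_
    have hv' := Finset.mem_range.1 hv
    have hk : ev t (kap (p + (v + 1) * r)) = 1 := by
      refine ev_kap_one (by omega) (ht.trans (Tp_anti ?_))
      have : (v + 1) * r ≤ I * r := Nat.mul_le_mul_right _ (by omega)
      omega
    rw [ev_sub, ev_gb_one (xs_pos _ _) (xs_step hv') (norm_kap_le (by omega)) hk,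
      ← xs_succ hv']
  unfold Phi
  rw [ev_sub _ (1 - _), ev_mul' t (1 - mono _), ev_sum, hsum, ev_sub, ev_mul', ev_sub,
    ev_phi_in hp hpm ht0, ev_one']
  ring

theorem ev_Phi_out (hp : 1 ≤ p) (hpm : p ≤ m) {t : ℝ}
    (ht : Tp p ≤ |t|) (ht' : |t| ≤ Real.pi) : ev t (Phi p r I m) = 1 := by
  rw [ev_Phi_cut hp ht' ((Tp_anti (by omega)).trans ht), ev_sub, ev_mul',
    ev_phi_out hp hpm ht ht', zero_mul, sub_zero, ev_one']

end zones

end Pool.Agent.H47.Vin
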