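import Pool.Agent.H47.Vin.Sm
import Pool.Agent.H20.Vin.Sig
import Pool.Agent.H20.Vin.Cut

/-!
# The recursion
-/

namespace Pool.Agent.H47.Vin

open scoped BigOperators Real

/-- parameters of the construction: `p` (scale exponent), `r` (band gap), `n` (depth),
`m` (period exponent), `L`, `A` (bounds for logarithms of norms) -/
structure Par where
  p : ℕ → ℕ
  r : ℕ → ℕ
  n : ℕ → ℕ
  m : ℕ → ℕ
  L : ℕ → ℕ
  A : ℕ → ℕ
  hp : ∀ k, 2 ≤ p k
  hr : ∀ k, 1 ≤ r k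
  hn : ∀ k, 1 ≤ n k
  hqm : ∀ k, p k + (64 * n k + 1) * r k ≤ m k
  hpm : ∀ k, p k ≤ m k
  hm2 : ∀ k, 4 ≤ m k
  hL : ∀ k, 40 * (2 + m k) + 1024 * n k + 4 ≤ 2 ^ L k
  hA0 : A 0 = 0
  hA : ∀ k, A (k + 1) = A k + L (k + 1)
  hq : ∀ k, (p k + (64 * n k + 1) * r k) + 1 ≤ p (k + 1) + (64 * n (k + 1) + 1) * r (k + 1)
  hin : ∀ k, p k + (64 * n k) * r k + 1 ≤ p (k + 1)
  /-- smallness conditions -/
  hs1 : ∀ k, 4 * (p k + (64 * n k + 1) * r k) + A k + L (k + 1) + A (k + 1) + k + 30 ≤ p (k + 1)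
  hs2 : ∀ k, A k + A (k + 1) + L (k + 1) + (p (k + 1) + (64 * n (k + 1) + 1) * r (k + 1)) + k + 30
    ≤ m (k + 1) / 2
  hs3 : ∀ k, A k + A (k + 1) + L (k + 1) + k + 30 ≤ n (k + 1) / 2
  hs4 : ∀ k, A k + A (k + 1) + 4 * (p (k + 1) + (64 * n (k + 1) + 1) * r (k + 1)) + k + 40
    ≤ m k / 2

namespace Par

variable (P : Par)

/-- number of bands -/
def I (k : ℕ) : ℕ := 64 * P.n k

/-- flat exponent -/
def q (k : ℕ) : ℕ := P.p k + (P.I k + 1) * P.r k

/-- stage symbol -/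
noncomputable def Ph (k : ℕ) : W := Phi (P.p k) (P.r k) (P.I k) (P.m k)

/-- pointwise `1 - x + xi` -/
noncomputable def cp (k : ℕ) : W :=
  1 - ∑ u ∈ Finset.range (P.I k), ((xs (P.I k) u / 64 : ℝ) : ℂ) • kap (P.p k + (u + 1) * P.r k)

noncomputable def Hk (k : ℕ) : W := res (Set.Ici (2 ^ (P.m k - 1) : ℤ)) (P.Ph k - 1)

noncomputable def vv (k : ℕ) : W := res (Set.Ici (-(2 ^ (P.m k - 2) : ℤ))) (vq (P.q (k + 1)))

noncomputable def cc' (k : ℕ) : W := res (Set.Ici (-(2 ^ (P.m k - 2) : ℤ))) (P.cp (k + 1))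

noncomputable def X : ℕ → W
  | 0 => mono (2 ^ P.m 0)
  | k + 1 => X k * P.Hk (k + 1)

noncomputable def R (K : ℕ) : W := ∑ k ∈ Finset.range K, P.vv k * P.cc' k * P.X k

noncomputable def F (K : ℕ) : W := sig * P.R K + P.X K

noncomputable def eps (k : ℕ) : W := sig * P.vv k * P.cc' k + P.Hk (k + 1) - P.Ph (k + 1)

noncomputable def s (k : ℕ) : W := sig * P.R k * (1 - P.Ph (k + 1)) + P.X k * P.eps k

theorem F_succ (k : ℕ) : P.F (k + 1) = P.F k * P.Ph (k + 1) + P.s k := by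
  unfold F s eps R
  rw [Finset.sum_range_succ, X]
  ring

theorem hp1 (k : ℕ) : 1 ≤ P.p k := le_trans (by norm_num) (P.hp k)
theorem hI1 (k : ℕ) : 1 ≤ P.I k := by
  have := P.hn k
  unfold I
  omega

theorem Ph_mul_adj (k : ℕ) : P.Ph k * adj (P.Ph k) = 1 :=
  Phi_mul_adj (P.hp1 k) (P.hpm k) (P.hr k) (P.hI1 k)

/-! ### supports -/

theorem two_pow_half (k : ℕ) : (2 : ℤ) ^ (P.m k - 1) = 2 ^ (P.m k - 2) + 2 ^ (P.m k - 2) := by
  have := P.hm2 k
  rw [show P.m k - 1 = (P.m k - 2) + 1 by omega, pow_succ]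
  ring

theorem ge_X (k : ℕ) : Ge (2 ^ (P.m k - 1) : ℤ) (P.X k) := by
  induction k with
  | zero =>
      refine Ge.mono_le ?_ (ge_mono _)
      exact pow_le_pow_right₀ (by norm_num) (by omega)
  | succ k ih =>
      rw [X]
      have h1 : Ge (2 ^ (P.m (k + 1) - 1) : ℤ) (P.Hk (k + 1)) := ge_res _ _
      have h2 := ih.mul h1
      exact Ge.mono_le (by have : (0:ℤ) ≤ 2 ^ (P.m k - 1) := by positivity
                           linarith) h2

theorem ge_R (K : ℕ) : Ge 0 (P.R K) := by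
  refine Ge.sum _ _ fun k _ => ?_
  have h1 : Ge (-(2 ^ (P.m k - 2) : ℤ)) (P.vv k) := ge_res _ _
  have h2 : Ge (-(2 ^ (P.m k - 2) : ℤ)) (P.cc' k) := ge_res _ _
  have h3 := (h1.mul h2).mul (P.ge_X k)
  rw [P.two_pow_half k] at h3
  have e : (-(2 ^ (P.m k - 2) : ℤ)) + -(2 ^ (P.m k - 2) : ℤ)
      + (2 ^ (P.m k - 2) + 2 ^ (P.m k - 2)) = 0 := by ring
  rwa [e] at h3

theorem ge_X0 (k : ℕ) : Ge 0 (P.X k) := Ge.mono_le (by positivity) (P.ge_X k)

theorem ge_F (K : ℕ) : Ge 0 (P.F K) := by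
  have h := ge_sig.mul (P.ge_R K)
  rw [add_zero] at h
  exact h.add (P.ge_X0 K)

/-! ### norms -/

theorem norm_Gc_sub_le {M p I u : ℕ} (hp : 1 ≤ p) :
    ‖gb M (xs I u) (kap p) - Gc M (xs I u)‖ ≤ 4 := by
  refine (norm_sub_le _ _).trans ?_
  have h1 := norm_gb_le (M := M) (xs_pos I u) (xs_le_one I u) (norm_kap_le hp)
  have h2 := norm_Gc_le (M := M) (xs_pos I u) (xs_le_one I u)
  linarith

theorem norm_Ph_sub (k : ℕ) : ‖P.Ph k - 1‖ ≤ 2 ^ P.L k - 4 := by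
  have hp := P.hp1 k
  have hpm := P.hpm k
  have h1 : P.Ph k - 1 = -(phi (P.p k) (P.m k) * Gc (2 ^ P.m k) (xs (P.I k) 0))
      - (1 - mono ((2 ^ P.m k : ℕ) : ℤ)) * ∑ u ∈ Finset.range (P.I k),
        (gb (2 ^ P.m k) (xs (P.I k) u) (kap (P.p k + (u + 1) * P.r k))
          - Gc (2 ^ P.m k) (xs (P.I k) u)) := by
    unfold Ph Phi
    abel
  rw [h1]
  refine (norm_sub_le _ _).trans ?_
  rw [norm_neg]
  have h2 : ‖phi (P.p k) (P.m k) * Gc (2 ^ P.m k) (xs (P.I k) 0)‖ ≤ 20 * (1 + P.m k) * 1 :=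
    (norm_mul_le _ _).trans (mul_le_mul (norm_phi_le hp hpm)
      (norm_Gc_le (xs_pos _ _) (xs_le_one _ _)) (norm_nonneg _) (by positivity))
  have h3 : ‖(1 - mono ((2 ^ P.m k : ℕ) : ℤ))‖ ≤ 2 := by
    refine (norm_sub_le _ _).trans ?_
    rw [norm_one, norm_mono]
    norm_num
  have h4 : ‖∑ u ∈ Finset.range (P.I k),
        (gb (2 ^ P.m k) (xs (P.I k) u) (kap (P.p k + (u + 1) * P.r k))
          - Gc (2 ^ P.m k) (xs (P.I k) u))‖ ≤ P.I k * 4 := by
    refine (norm_sum_le_of_le _ (f := fun u => (gb (2 ^ P.m k) (xs (P.I k) u)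
      (kap (P.p k + (u + 1) * P.r k)) - Gc (2 ^ P.m k) (xs (P.I k) u))) (n := fun _ => (4:ℝ))
      fun u _ => norm_Gc_sub_le (by omega)).trans ?_
    rw [Finset.sum_const, Finset.card_range, nsmul_eq_mul]
  have h5 := (norm_mul_le (1 - mono ((2 ^ P.m k : ℕ) : ℤ)) (∑ u ∈ Finset.range (P.I k),
        (gb (2 ^ P.m k) (xs (P.I k) u) (kap (P.p k + (u + 1) * P.r k))
          - Gc (2 ^ P.m k) (xs (P.I k) u)))).trans
      (mul_le_mul h3 h4 (norm_nonneg _) (by norm_num))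
  have h6 : (40 * (2 + P.m k) + 1024 * P.n k + 4 : ℝ) ≤ 2 ^ P.L k := by exact_mod_cast P.hL k
  have h7 : (P.I k : ℝ) = 64 * P.n k := by unfold I; push_cast; ring
  rw [h7] at h5
  have h8 : (0:ℝ) ≤ P.m k := by positivity
  have h9 : (0:ℝ) ≤ P.n k := by positivity
  linarith

theorem one_le_two_pow' (n : ℕ) : (1:ℝ) ≤ 2 ^ n := one_le_pow₀ (by norm_num)

theorem norm_X_le (k : ℕ) : ‖P.X k‖ ≤ 2 ^ P.A k := by
  induction k with
  | zero => rw [X, norm_mono, P.hA0, pow_zero]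
  | succ k ih =>
      rw [X, P.hA, pow_add]
      refine (norm_mul_le _ _).trans (mul_le_mul ih ?_ (norm_nonneg _) (by positivity))
      refine (norm_res_le _ _).trans ((P.norm_Ph_sub (k + 1)).trans (by linarith))

theorem norm_cp_le (k : ℕ) : ‖P.cp k‖ ≤ 4 := by
  unfold cp
  refine (norm_sub_le _ _).trans ?_
  have h : ‖∑ u ∈ Finset.range (P.I k), ((xs (P.I k) u / 64 : ℝ) : ℂ)
      • kap (P.p k + (u + 1) * P.r k)‖ ≤ 3 := by
    refine (norm_sum_le_of_le _ (n := fun u => (3:ℝ) * (xs (P.I k) (u + 1) - xs (P.I k) u))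
      fun u hu => ?_).trans ?_
    · have hu' := Finset.mem_range.1 hu
      rw [norm_smul, Complex.norm_real, Real.norm_of_nonneg (by have := xs_pos (P.I k) u; positivity),
        xs_succ hu']
      have h1 := norm_kap_le (p := P.p k + (u + 1) * P.r k) (by have := P.hp1 k; omega)
      have h2 := xs_pos (P.I k) u
      nlinarith
    · rw [← Finset.mul_sum, Finset.sum_range_sub (fun u => xs (P.I k) u), xs_self]
      have := xs_pos (P.I k) 0
      linarith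
  rw [norm_one]
  linarith

theorem norm_vv_le (k : ℕ) : ‖P.vv k‖ ≤ 2 * 2 ^ (4 * P.q (k + 1)) := by
  refine (norm_res_le _ _).trans ((norm_vq_le' _).trans (le_of_eq ?_))
  rw [pow_mul]
  norm_num

theorem q_lt (k : ℕ) : P.q k + 1 ≤ P.q (k + 1) := P.hq k

theorem norm_R_le (K : ℕ) : ‖P.R K‖ ≤ 2 ^ (4 * P.q K + P.A K + 4) := by
  induction K with
  | zero =>
      unfold R
      rw [Finset.sum_range_zero, norm_zero]
      positivity
  | succ K ih =>
      unfold R at ih ⊢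
      rw [Finset.sum_range_succ]
      refine (norm_add_le _ _).trans ?_
      have h1 : ‖P.vv K * P.cc' K * P.X K‖ ≤ 2 * 2 ^ (4 * P.q (K + 1)) * 4 * 2 ^ P.A K := by
        refine (norm_mul_le _ _).trans (mul_le_mul ?_ (P.norm_X_le K) (norm_nonneg _)
          (by positivity))
        exact (norm_mul_le _ _).trans (mul_le_mul (P.norm_vv_le K)
          ((norm_res_le _ _).trans (P.norm_cp_le _)) (norm_nonneg _) (by positivity))
      have h2 : 2 * 2 ^ (4 * P.q (K + 1)) * 4 * 2 ^ P.A K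
          = (2:ℝ) ^ (4 * P.q (K + 1) + P.A K + 3) := by
        rw [pow_add, pow_add]
        ring
      have h3 : (2:ℝ) ^ (4 * P.q K + P.A K + 4) ≤ 2 ^ (4 * P.q (K + 1) + P.A K + 3) := by
        refine pow_le_pow_right₀ (by norm_num) ?_
        have := P.q_lt K
        omega
      have h4 : (2:ℝ) ^ (4 * P.q (K + 1) + P.A K + 3) + 2 ^ (4 * P.q (K + 1) + P.A K + 3)
          ≤ 2 ^ (4 * P.q (K + 1) + P.A (K + 1) + 4) := by
        rw [← two_mul, ← pow_succ']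
        refine pow_le_pow_right₀ (by norm_num) ?_
        have := P.hA K
        omega
      linarith

end Par

end Pool.Agent.H47.Vin
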