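import Pool.Agent.H47.Vin.Rec

/-!
# Error terms of the recursion
-/

namespace Pool.Agent.H47.Vin

open scoped BigOperators Real

theorem sqrt_two_div_le {m : ℕ} (hm : 2 ≤ m) :
    Real.sqrt (2 / ((2 ^ (m - 2) : ℕ) : ℝ)) ≤ 4 / 2 ^ (m / 2) := by
  rw [Real.sqrt_le_left (by positivity)]
  have h1 : (2:ℝ) ^ m = 2 ^ (m - 2) * 4 := by
    rw [show m = (m - 2) + 2 by omega, pow_add]
    norm_num
  have h2 : ((2:ℝ) ^ (m / 2)) ^ 2 ≤ 2 ^ m := by
    rw [← pow_mul]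
    exact pow_le_pow_right₀ (by norm_num) (by omega)
  push_cast
  rw [div_pow, div_le_div_iff₀ (by positivity) (by positivity)]
  have h3 : (0:ℝ) < 2 ^ (m - 2) := by positivity
  nlinarith

theorem xs_zero_le (n : ℕ) : xs (64 * n) 0 ≤ (1 / 2 : ℝ) ^ n := by
  unfold xs
  rw [Nat.sub_zero, pow_mul]
  refine pow_le_pow_left₀ (by positivity) ?_ n
  have h : (1 + 64 * (1 / 64) : ℝ) ≤ (1 + 1 / 64) ^ 64 :=
    one_add_mul_le_pow (by norm_num) 64
  have h2 : (64 / 65 : ℝ) ^ 64 * (1 + 1 / 64) ^ 64 = 1 := by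
    rw [← mul_pow]
    norm_num
  have h3 : (0:ℝ) < (64 / 65 : ℝ) ^ 64 := by positivity
  nlinarith

namespace Par

variable (P : Par)

theorem sum_xs (I : ℕ) : ∑ u ∈ Finset.range I, xs I u / 64 = 1 - xs I 0 := by
  have h := Finset.sum_range_sub (fun u => xs I u) I
  rw [xs_self] at h
  rw [← h]
  refine Finset.sum_congr rfl fun u hu => ?_
  rw [xs_succ (Finset.mem_range.1 hu)]
  ring

/-- low part of the smooth sum -/
noncomputable def e1 (k : ℕ) : W :=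
  res (Set.Iio (2 ^ (P.m k - 1) : ℤ)) ((1 - mono ((2 ^ P.m k : ℕ) : ℤ)) *
    ∑ u ∈ Finset.range (P.I k), (gb (2 ^ P.m k) (xs (P.I k) u) (kap (P.p k + (u + 1) * P.r k))
      - Gc (2 ^ P.m k) (xs (P.I k) u))) - (1 - P.cp k)

noncomputable def e2 (k : ℕ) : W :=
  res (Set.Iio (2 ^ (P.m k - 1) : ℤ)) (phi (P.p k) (P.m k) * Gc (2 ^ P.m k) (xs (P.I k) 0))

theorem kap_mul_cp (k : ℕ) : kap (P.q k) * P.cp k = ((xs (P.I k) 0 : ℝ) : ℂ) • kap (P.q k) := by
  unfold cp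
  rw [mul_sub, mul_one, Finset.mul_sum]
  have h : ∀ u ∈ Finset.range (P.I k), kap (P.q k) * (((xs (P.I k) u / 64 : ℝ) : ℂ)
      • kap (P.p k + (u + 1) * P.r k)) = ((xs (P.I k) u / 64 : ℝ) : ℂ) • kap (P.q k) := by
    intro u hu
    have hu' := Finset.mem_range.1 hu
    rw [mul_smul_comm, mul_comm, kap_mul_kap (by have := P.hp1 k; omega)]
    unfold q
    have h1 : (u + 1) * P.r k + P.r k ≤ (P.I k + 1) * P.r k := by
      rw [← Nat.succ_mul]
      exact Nat.mul_le_mul_right _ (by omega)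
    have h2 := P.hr k
    omega
  rw [Finset.sum_congr rfl h, ← Finset.sum_smul, ← Complex.ofReal_sum, sum_xs]
  rw [Complex.ofReal_sub, sub_smul, Complex.ofReal_one, one_smul, sub_sub_cancel]

theorem vq_sig (k : ℕ) : vq (P.q k) * sig = 1 - kap (P.q k) := by
  refine vq_mul_sig ?_
  intro t ht
  have hq : 1 ≤ P.q k := by
    have := P.hp1 k
    unfold q
    omega
  rw [ev_kap hq ht, trap_Tp]

theorem eps_eq (k : ℕ) : P.eps k = P.e1 (k + 1) + P.e2 (k + 1)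
    - ((xs (P.I (k + 1)) 0 : ℝ) : ℂ) • kap (P.q (k + 1))
    + sig * (P.vv k - vq (P.q (k + 1))) * P.cc' k
    + (1 - kap (P.q (k + 1))) * (P.cc' k - P.cp (k + 1)) := by
  have h1 := P.kap_mul_cp (k + 1)
  have h2 := P.vq_sig (k + 1)
  have h3 : P.Hk (k + 1) - P.Ph (k + 1) = -1 + P.e2 (k + 1) + (P.e1 (k + 1) + (1 - P.cp (k + 1))) := by
    unfold Hk e1 e2
    rw [sub_add_cancel]
    have h4 := res_Ici_add_Iio (2 ^ (P.m (k + 1) - 1) : ℤ) (P.Ph (k + 1) - 1)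
    have h5 : res (Set.Iio (2 ^ (P.m (k + 1) - 1) : ℤ)) (P.Ph (k + 1) - 1)
      = -(res (Set.Iio (2 ^ (P.m (k + 1) - 1) : ℤ))
          (phi (P.p (k + 1)) (P.m (k + 1)) * Gc (2 ^ P.m (k + 1)) (xs (P.I (k + 1)) 0)))
        - res (Set.Iio (2 ^ (P.m (k + 1) - 1) : ℤ)) ((1 - mono ((2 ^ P.m (k + 1) : ℕ) : ℤ)) *
          ∑ u ∈ Finset.range (P.I (k + 1)), (gb (2 ^ P.m (k + 1)) (xs (P.I (k + 1)) u)
            (kap (P.p (k + 1) + (u + 1) * P.r (k + 1))) - Gc (2 ^ P.m (k + 1)) (xs (P.I (k + 1)) u))) := by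
      rw [← res_neg, ← res_sub]
      congr 1
      unfold Ph Phi
      abel
    rw [h5] at h4
    have h6 : res (Set.Ici (2 ^ (P.m (k + 1) - 1) : ℤ)) (P.Ph (k + 1) - 1)
        = (P.Ph (k + 1) - 1) + (res (Set.Iio (2 ^ (P.m (k + 1) - 1) : ℤ))
          (phi (P.p (k + 1)) (P.m (k + 1)) * Gc (2 ^ P.m (k + 1)) (xs (P.I (k + 1)) 0)))
        + res (Set.Iio (2 ^ (P.m (k + 1) - 1) : ℤ)) ((1 - mono ((2 ^ P.m (k + 1) : ℕ) : ℤ)) *
          ∑ u ∈ Finset.range (P.I (k + 1)), (gb (2 ^ P.m (k + 1)) (xs (P.I (k + 1)) u)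
            (kap (P.p (k + 1) + (u + 1) * P.r (k + 1))) - Gc (2 ^ P.m (k + 1)) (xs (P.I (k + 1)) u))) := by
      rw [eq_sub_of_add_eq h4]
      abel
    rw [h6]
    abel
  have h7 : sig * P.vv k * P.cc' k = P.cp (k + 1)
      - ((xs (P.I (k + 1)) 0 : ℝ) : ℂ) • kap (P.q (k + 1))
      + sig * (P.vv k - vq (P.q (k + 1))) * P.cc' k
      + (1 - kap (P.q (k + 1))) * (P.cc' k - P.cp (k + 1)) := by
    rw [← h1, ← h2]
    have h8 : P.cp (k + 1) - kap (P.q (k + 1)) * P.cp (k + 1)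
        = vq (P.q (k + 1)) * sig * P.cp (k + 1) := by
      rw [h2]
      ring
    rw [h8]
    ring
  unfold eps
  rw [add_sub_assoc, h3, h7]
  abel

theorem norm_e1_le (k : ℕ) : ‖P.e1 k‖ ≤ P.I k * (2 ^ P.q k * (4 / 2 ^ (P.m k / 2))) := by
  have hm := P.hm2 k
  have h1 : P.e1 k = ∑ u ∈ Finset.range (P.I k),
      (res (Set.Iio (2 ^ (P.m k - 1) : ℤ)) ((1 - mono ((2 ^ P.m k : ℕ) : ℤ)) *
      (gb (2 ^ P.m k) (xs (P.I k) u) (kap (P.p k + (u + 1) * P.r k))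
      - Gc (2 ^ P.m k) (xs (P.I k) u)))
      - ((xs (P.I k) u / 64 : ℝ) : ℂ) • kap (P.p k + (u + 1) * P.r k)) := by
    rw [Finset.sum_sub_distrib, ← res_sum, ← Finset.mul_sum]
    unfold e1 cp
    rw [sub_sub_cancel]
  rw [h1]
  refine (norm_sum_le_of_le _ (n := fun _ => (2:ℝ) ^ P.q k * (4 / 2 ^ (P.m k / 2)))
    fun u hu => ?_).trans ?_
  · have hu' := Finset.mem_range.1 hu
    have hQ : 0 < 2 ^ (P.m k - 2) := by positivity
    have e0 : (2:ℤ) ^ (P.m k - 1) = 2 * 2 ^ (P.m k - 2) := by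
      rw [P.two_pow_half k]; ring
    have e00 : ((2 ^ P.m k : ℕ) : ℤ) = 4 * 2 ^ (P.m k - 2) := by
      push_cast
      rw [show P.m k = (P.m k - 2) + 2 by omega, pow_add, Nat.add_sub_cancel]
      ring
    have hpos : (0:ℤ) < 2 ^ (P.m k - 2) := by positivity
    have h2 := norm_res_band (M := 2 ^ P.m k) (p := P.p k + (u + 1) * P.r k) (x := xs (P.I k) u)
      (by have := P.hp1 k; omega) (xs_pos _ _) (xs_le_one _ _) hQ
      (ν := (2 ^ (P.m k - 1) : ℤ)) (by rw [e0]; push_cast; linarith)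
      (by rw [e0, e00]; push_cast; linarith)
    refine h2.trans ?_
    refine mul_le_mul ?_ (sqrt_two_div_le (by omega)) (Real.sqrt_nonneg _) (by positivity)
    refine pow_le_pow_right₀ (by norm_num) ?_
    unfold q
    have : (u + 1) * P.r k ≤ (P.I k + 1) * P.r k := Nat.mul_le_mul_right _ (by omega)
    omega
  · rw [Finset.sum_const, Finset.card_range, nsmul_eq_mul]

theorem norm_e2_le (k : ℕ) :
    ‖P.e2 k‖ ≤ 20 * (xs (P.I k) 0 * (1 + P.m k) + Real.sqrt (xs (P.I k) 0)) :=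
  cut_tail (P.hp1 k) (P.hpm k) (xs_pos _ _) (xs_le_one _ _)

theorem xi_le (k : ℕ) : xs (P.I k) 0 ≤ (1 / 2 : ℝ) ^ P.n k := xs_zero_le _

theorem sqrt_xi_le (k : ℕ) : Real.sqrt (xs (P.I k) 0) ≤ (1 / 2 : ℝ) ^ (P.n k / 2) := by
  rw [Real.sqrt_le_left (by positivity), ← pow_mul]
  refine (P.xi_le k).trans ?_
  exact pow_le_pow_of_le_one (by norm_num) (by norm_num) (by omega)

theorem norm_e23_le (k : ℕ) : ‖P.e2 k - ((xs (P.I k) 0 : ℝ) : ℂ) • kap (P.q k)‖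
    ≤ 2 ^ P.L k * (1 / 2) ^ (P.n k / 2) := by
  have h1 := P.norm_e2_le k
  have hx0 := xs_pos (P.I k) 0
  have hx1 := xs_le_one (P.I k) 0
  have h2 : ‖((xs (P.I k) 0 : ℝ) : ℂ) • kap (P.q k)‖ ≤ xs (P.I k) 0 * 3 := by
    rw [norm_smul, Complex.norm_real, Real.norm_of_nonneg hx0.le]
    refine mul_le_mul_of_nonneg_left (norm_kap_le ?_) hx0.le
    have := P.hp1 k
    unfold q
    omega
  have h3 : xs (P.I k) 0 ≤ Real.sqrt (xs (P.I k) 0) := by
    rw [Real.le_sqrt hx0.le hx0.le]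
    nlinarith
  have h4 := P.sqrt_xi_le k
  have h5 : (40 * (2 + P.m k) + 1024 * P.n k + 4 : ℝ) ≤ 2 ^ P.L k := by exact_mod_cast P.hL k
  have hm0 : (0:ℝ) ≤ P.m k := by positivity
  have hn0 : (0:ℝ) ≤ P.n k := by positivity
  set y := Real.sqrt (xs (P.I k) 0) with hy
  have hy0 : 0 ≤ y := Real.sqrt_nonneg _
  refine (norm_sub_le _ _).trans ?_
  have h6 : ‖P.e2 k‖ + ‖((xs (P.I k) 0 : ℝ) : ℂ) • kap (P.q k)‖ ≤ 2 ^ P.L k * y := by
    have h7 : xs (P.I k) 0 * (1 + P.m k) ≤ y * (1 + P.m k) :=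
      mul_le_mul_of_nonneg_right h3 (by positivity)
    have h8 : (20 * (1 + (P.m k : ℝ)) + 23) * y ≤ 2 ^ P.L k * y :=
      mul_le_mul_of_nonneg_right (by linarith) hy0
    nlinarith
  refine h6.trans ?_
  exact mul_le_mul_of_nonneg_left h4 (by positivity)

theorem tail_sub {Q : ℕ} (f : W) :
    ‖res (Set.Ici (-(Q : ℤ))) f - f‖ ≤ ‖res {n : ℤ | (Q : ℤ) < |n|} f‖ := by
  have h := res_Ici_add_Iio (-(Q : ℤ)) f
  have h1 : res (Set.Ici (-(Q : ℤ))) f - f = -res (Set.Iio (-(Q : ℤ))) f := by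
    nth_rewrite 2 [← h]
    abel
  rw [h1, norm_neg]
  refine norm_res_mono ?_ _
  intro n hn
  have hn' : n < -(Q : ℤ) := hn
  show (Q : ℤ) < |n|
  rw [lt_abs]
  right
  linarith

theorem norm_e4_le (k : ℕ) : ‖sig * (P.vv k - vq (P.q (k + 1))) * P.cc' k‖
    ≤ 2 ^ 9 * 2 ^ (4 * P.q (k + 1)) / 2 ^ (P.m k / 2) := by
  have hm := P.hm2 k
  have hQ : 0 < 2 ^ (P.m k - 2) := by positivity
  have h1 : ‖P.vv k - vq (P.q (k + 1))‖ ≤ 2 ^ (4 * P.q (k + 1)) * (4 / 2 ^ (P.m k / 2)) := by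
    have h2 := tail_sub (Q := 2 ^ (P.m k - 2)) (vq (P.q (k + 1)))
    have h3 := tail_vq (P.q (k + 1)) hQ
    have e : ((2 ^ (P.m k - 2) : ℕ) : ℤ) = 2 ^ (P.m k - 2) := by push_cast; rfl
    rw [e] at h2 h3
    refine h2.trans (h3.trans ?_)
    rw [pow_mul, show (2:ℝ) ^ 4 = 16 by norm_num, div_eq_mul_inv]
    refine mul_le_mul_of_nonneg_left ?_ (by positivity)
    refine le_trans ?_ (sqrt_two_div_le (m := P.m k) (by omega))
    rw [← Real.sqrt_inv]
    refine Real.sqrt_le_sqrt ?_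
    rw [inv_eq_one_div]
    exact div_le_div_of_nonneg_right (by norm_num) (by positivity)
  have h4 : ‖P.cc' k‖ ≤ 4 := (norm_res_le _ _).trans (P.norm_cp_le _)
  have h5 : ‖sig * (P.vv k - vq (P.q (k + 1))) * P.cc' k‖
      ≤ 27 * (2 ^ (4 * P.q (k + 1)) * (4 / 2 ^ (P.m k / 2))) * 4 := by
    refine (norm_mul_le _ _).trans (mul_le_mul ?_ h4 (norm_nonneg _) (by positivity))
    exact (norm_mul_le _ _).trans (mul_le_mul norm_sig_le h1 (norm_nonneg _) (by positivity))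
  refine h5.trans ?_
  rw [show (27 * (2 ^ (4 * P.q (k + 1)) * (4 / 2 ^ (P.m k / 2))) * 4 : ℝ)
    = 432 * 2 ^ (4 * P.q (k + 1)) / 2 ^ (P.m k / 2) by ring]
  refine div_le_div_of_nonneg_right ?_ (by positivity)
  refine mul_le_mul_of_nonneg_right (by norm_num) (by positivity)

theorem norm_e5_le (k : ℕ) : ‖(1 - kap (P.q (k + 1))) * (P.cc' k - P.cp (k + 1))‖
    ≤ 16 * 2 ^ P.q (k + 1) / 2 ^ (P.m k / 2) := by
  have hm := P.hm2 k
  have hQ : 0 < 2 ^ (P.m k - 2) := by positivity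
  have e : ((2 ^ (P.m k - 2) : ℕ) : ℤ) = 2 ^ (P.m k - 2) := by push_cast; rfl
  have h1 : ‖P.cc' k - P.cp (k + 1)‖ ≤ 2 ^ P.q (k + 1) * (4 / 2 ^ (P.m k / 2)) := by
    have h2 := tail_sub (Q := 2 ^ (P.m k - 2)) (P.cp (k + 1))
    refine le_trans ?_ (h2.trans ?_)
    · rw [e]
      exact le_rfl
    · unfold cp
      rw [res_sub, res_sum]
      have e1 : res {n : ℤ | ((2 ^ (P.m k - 2) : ℕ) : ℤ) < |n|} (1 : W) = 0 := by
        refine ext_co fun n => ?_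
        by_cases hn : n ∈ {n : ℤ | ((2 ^ (P.m k - 2) : ℕ) : ℤ) < |n|}
        · rw [co_res_of_mem hn, co_one, co_zero, if_neg]
          rintro rfl
          have h3 : ((2 ^ (P.m k - 2) : ℕ) : ℤ) < |0| := hn
          rw [abs_zero] at h3
          have : (0:ℤ) < ((2 ^ (P.m k - 2) : ℕ) : ℤ) := by positivity
          omega
        · rw [co_res_of_notMem hn, co_zero]
      rw [e1, zero_sub, norm_neg]
      refine (norm_sum_le_of_le _ (n := fun u => (xs (P.I (k + 1)) u / 64) *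
        ((2:ℝ) ^ P.q (k + 1) * (4 / 2 ^ (P.m k / 2)))) fun u hu => ?_).trans ?_
      · have hu' := Finset.mem_range.1 hu
        rw [res_smul, norm_smul, Complex.norm_real,
          Real.norm_of_nonneg (by have := xs_pos (P.I (k + 1)) u; positivity)]
        refine mul_le_mul_of_nonneg_left ?_ (by have := xs_pos (P.I (k + 1)) u; positivity)
        have h3 := tail_kap_pow (p := P.p (k + 1) + (u + 1) * P.r (k + 1))
          (by have := P.hp1 (k + 1); omega) 1 hQ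
        rw [pow_one, Nat.cast_one, one_mul] at h3
        refine h3.trans ?_
        refine mul_le_mul ?_ (sqrt_two_div_le (by omega)) (Real.sqrt_nonneg _) (by positivity)
        refine pow_le_pow_right₀ (by norm_num) ?_
        unfold q
        have : (u + 1) * P.r (k + 1) ≤ (P.I (k + 1) + 1) * P.r (k + 1) :=
          Nat.mul_le_mul_right _ (by omega)
        omega
      · rw [← Finset.sum_mul, sum_xs]
        refine mul_le_of_le_one_left (by positivity) ?_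
        have := xs_pos (P.I (k + 1)) 0
        linarith
  have h4 : ‖1 - kap (P.q (k + 1))‖ ≤ 4 := by
    refine (norm_sub_le _ _).trans ?_
    rw [norm_one]
    have := norm_kap_le (p := P.q (k + 1)) (by have := P.hp1 (k + 1); unfold q; omega)
    linarith
  refine (norm_mul_le _ _).trans ((mul_le_mul h4 h1 (norm_nonneg _) (by norm_num)).trans
    (le_of_eq ?_))
  ring

end Par

end Pool.Agent.H47.Vin
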