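import Pool.Agent.H47.Vin.Rec2
import Pool.Agent.H36.Vin.Out

/-!
# Limits of the recursion
-/

namespace Pool.Agent.H47.Vin

open scoped BigOperators Real
open Filter Topology

theorem pow_ratio {a b c : ℕ} (h : a + c ≤ b) : (2:ℝ) ^ a / 2 ^ b ≤ (1 / 2) ^ c := by
  rw [div_le_iff₀ (by positivity), one_div, inv_pow, ← div_eq_inv_mul, le_div_iff₀ (by positivity),
    ← pow_add]
  exact pow_le_pow_right₀ (by norm_num) h

theorem two_pow_mul_half (a c : ℕ) : (2:ℝ) ^ a * (1 / 2) ^ (a + c) = (1 / 2) ^ c := by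
  rw [pow_add, ← mul_assoc, ← mul_pow]
  norm_num

namespace Par

variable (P : Par)

theorem kap_mul_Ph (k : ℕ) : kap (P.p k - 1) * (1 - P.Ph k) = 1 - P.Ph k := by
  have hp := P.hp k
  refine ext_pi fun t ht => ?_
  rw [ev_mul']
  rcases le_total (Tp (P.p k)) |t| with h | h
  · have h1 : ev t (1 - P.Ph k) = 0 := by
      rw [ev_sub, ev_one']
      unfold Ph
      rw [ev_Phi_out (P.hp1 k) (P.hpm k) h ht, sub_self]
    rw [h1, mul_zero]
  · rw [ev_kap_one (by omega) (by rwa [show P.p k - 1 + 1 = P.p k by omega]), one_mul]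

theorem norm_sig_kap (p : ℕ) (hp : 1 ≤ p) : ‖sig * kap p‖ ≤ 400 / 2 ^ p := by
  refine norm_sig_mul_le ?_
  intro t ht
  rw [ev_kap hp ht, trap_Tp]

theorem norm_one_sub_Ph (k : ℕ) : ‖1 - P.Ph k‖ ≤ 2 ^ P.L k := by
  rw [norm_sub_rev]
  have := P.norm_Ph_sub k
  linarith

theorem norm_s1 (k : ℕ) : ‖sig * P.R k * (1 - P.Ph (k + 1))‖
    ≤ (1 / 2) ^ (P.A (k + 1) + k + 14) := by
  have hp := P.hp (k + 1)
  have h1 : sig * P.R k * (1 - P.Ph (k + 1))
      = P.R k * (sig * kap (P.p (k + 1) - 1)) * (1 - P.Ph (k + 1)) := by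
    rw [← P.kap_mul_Ph (k + 1)]
    have h := P.kap_mul_Ph (k + 1)
    calc sig * P.R k * (kap (P.p (k + 1) - 1) * (1 - P.Ph (k + 1)))
        = P.R k * (sig * kap (P.p (k + 1) - 1)) * (1 - P.Ph (k + 1)) := by ring
      _ = _ := by rw [h]
  rw [h1]
  have h2 : ‖P.R k * (sig * kap (P.p (k + 1) - 1)) * (1 - P.Ph (k + 1))‖
      ≤ 2 ^ (4 * P.q k + P.A k + 4) * (400 / 2 ^ (P.p (k + 1) - 1)) * 2 ^ P.L (k + 1) := by
    refine (norm_mul_le _ _).trans (mul_le_mul ?_ (P.norm_one_sub_Ph _) (norm_nonneg _)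
      (by positivity))
    exact (norm_mul_le _ _).trans (mul_le_mul (P.norm_R_le k) (norm_sig_kap _ (by omega))
      (norm_nonneg _) (by positivity))
  refine h2.trans ?_
  have h3 : (2:ℝ) ^ (4 * P.q k + P.A k + 4) * (400 / 2 ^ (P.p (k + 1) - 1)) * 2 ^ P.L (k + 1)
      ≤ 2 ^ (4 * P.q k + P.A k + P.L (k + 1) + 13) / 2 ^ (P.p (k + 1) - 1) := by
    rw [show (2:ℝ) ^ (4 * P.q k + P.A k + 4) * (400 / 2 ^ (P.p (k + 1) - 1)) * 2 ^ P.L (k + 1)
      = (400 * (2 ^ (4 * P.q k + P.A k + 4) * 2 ^ P.L (k + 1))) / 2 ^ (P.p (k + 1) - 1) by ring]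
    refine div_le_div_of_nonneg_right ?_ (by positivity)
    rw [show 4 * P.q k + P.A k + P.L (k + 1) + 13 = 9 + ((4 * P.q k + P.A k + 4) + P.L (k + 1)) by
      ring, pow_add _ 9, pow_add _ _ (P.L (k + 1))]
    exact mul_le_mul_of_nonneg_right (by norm_num) (by positivity)
  refine h3.trans (pow_ratio ?_)
  have h4 := P.hs1 k
  unfold q I
  omega

theorem norm_s2 (k : ℕ) : ‖P.X k * P.e1 (k + 1)‖ ≤ (1 / 2) ^ (P.A (k + 1) + k + 14) := by
  have h1 : (P.I (k + 1) : ℝ) * 4 ≤ 2 ^ P.L (k + 1) := by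
    have h5 : (40 * (2 + P.m (k + 1)) + 1024 * P.n (k + 1) + 4 : ℝ) ≤ 2 ^ P.L (k + 1) := by
      exact_mod_cast P.hL (k + 1)
    have h7 : (P.I (k + 1) : ℝ) = 64 * P.n (k + 1) := by unfold I; push_cast; ring
    have hm0 : (0:ℝ) ≤ P.m (k + 1) := by positivity
    have hn0 : (0:ℝ) ≤ P.n (k + 1) := by positivity
    rw [h7]
    linarith
  have h2 : ‖P.X k * P.e1 (k + 1)‖
      ≤ 2 ^ P.A k * (P.I (k + 1) * (2 ^ P.q (k + 1) * (4 / 2 ^ (P.m (k + 1) / 2)))) :=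
    (norm_mul_le _ _).trans (mul_le_mul (P.norm_X_le k) (P.norm_e1_le _) (norm_nonneg _)
      (by positivity))
  refine h2.trans ?_
  have h3 : (2:ℝ) ^ P.A k * (P.I (k + 1) * (2 ^ P.q (k + 1) * (4 / 2 ^ (P.m (k + 1) / 2))))
      ≤ 2 ^ (P.A k + P.q (k + 1) + P.L (k + 1)) / 2 ^ (P.m (k + 1) / 2) := by
    rw [show (2:ℝ) ^ P.A k * (P.I (k + 1) * (2 ^ P.q (k + 1) * (4 / 2 ^ (P.m (k + 1) / 2))))
      = (2 ^ P.A k * 2 ^ P.q (k + 1) * (P.I (k + 1) * 4)) / 2 ^ (P.m (k + 1) / 2) by ring]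
    refine div_le_div_of_nonneg_right ?_ (by positivity)
    rw [pow_add, pow_add]
    exact mul_le_mul_of_nonneg_left h1 (by positivity)
  refine h3.trans (pow_ratio ?_)
  have h4 := P.hs2 k
  unfold q I
  omega

theorem norm_s3 (k : ℕ) : ‖P.X k * (P.e2 (k + 1)
    - ((xs (P.I (k + 1)) 0 : ℝ) : ℂ) • kap (P.q (k + 1)))‖
    ≤ (1 / 2) ^ (P.A (k + 1) + k + 14) := by
  have h2 : ‖P.X k * (P.e2 (k + 1) - ((xs (P.I (k + 1)) 0 : ℝ) : ℂ) • kap (P.q (k + 1)))‖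
      ≤ 2 ^ P.A k * (2 ^ P.L (k + 1) * (1 / 2) ^ (P.n (k + 1) / 2)) :=
    (norm_mul_le _ _).trans (mul_le_mul (P.norm_X_le k) (P.norm_e23_le _) (norm_nonneg _)
      (by positivity))
  refine h2.trans ?_
  have h3 : (2:ℝ) ^ P.A k * (2 ^ P.L (k + 1) * (1 / 2) ^ (P.n (k + 1) / 2))
      = 2 ^ (P.A k + P.L (k + 1)) / 2 ^ (P.n (k + 1) / 2) := by
    rw [one_div, inv_pow, pow_add, div_eq_mul_inv, mul_assoc]
  rw [h3]
  refine pow_ratio ?_
  have h4 := P.hs3 k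
  omega

theorem norm_s4 (k : ℕ) : ‖P.X k * (sig * (P.vv k - vq (P.q (k + 1))) * P.cc' k)‖
    ≤ (1 / 2) ^ (P.A (k + 1) + k + 14) := by
  have h2 : ‖P.X k * (sig * (P.vv k - vq (P.q (k + 1))) * P.cc' k)‖
      ≤ 2 ^ P.A k * (2 ^ 9 * 2 ^ (4 * P.q (k + 1)) / 2 ^ (P.m k / 2)) :=
    (norm_mul_le _ _).trans (mul_le_mul (P.norm_X_le k) (P.norm_e4_le _) (norm_nonneg _)
      (by positivity))
  refine h2.trans ?_
  have h3 : (2:ℝ) ^ P.A k * (2 ^ 9 * 2 ^ (4 * P.q (k + 1)) / 2 ^ (P.m k / 2))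
      = 2 ^ (P.A k + 9 + 4 * P.q (k + 1)) / 2 ^ (P.m k / 2) := by
    rw [pow_add, pow_add]
    ring
  rw [h3]
  refine pow_ratio ?_
  have h4 := P.hs4 k
  unfold q I
  omega

theorem norm_s5 (k : ℕ) :
    ‖P.X k * ((1 - kap (P.q (k + 1))) * (P.cc' k - P.cp (k + 1)))‖
    ≤ (1 / 2) ^ (P.A (k + 1) + k + 14) := by
  have h2 : ‖P.X k * ((1 - kap (P.q (k + 1))) * (P.cc' k - P.cp (k + 1)))‖
      ≤ 2 ^ P.A k * (16 * 2 ^ P.q (k + 1) / 2 ^ (P.m k / 2)) :=
    (norm_mul_le _ _).trans (mul_le_mul (P.norm_X_le k) (P.norm_e5_le _) (norm_nonneg _)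
      (by positivity))
  refine h2.trans ?_
  have h3 : (2:ℝ) ^ P.A k * (16 * 2 ^ P.q (k + 1) / 2 ^ (P.m k / 2))
      = 2 ^ (P.A k + 4 + P.q (k + 1)) / 2 ^ (P.m k / 2) := by
    rw [pow_add, pow_add]
    ring
  rw [h3]
  refine pow_ratio ?_
  have h4 := P.hs4 k
  unfold q I
  omega

theorem norm_s_le (k : ℕ) : ‖P.s k‖ ≤ (1 / 2) ^ (P.A (k + 1) + k + 11) := by
  have hdec : P.s k = sig * P.R k * (1 - P.Ph (k + 1)) + P.X k * P.e1 (k + 1)
      + P.X k * (P.e2 (k + 1) - ((xs (P.I (k + 1)) 0 : ℝ) : ℂ) • kap (P.q (k + 1)))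
      + P.X k * (sig * (P.vv k - vq (P.q (k + 1))) * P.cc' k)
      + P.X k * ((1 - kap (P.q (k + 1))) * (P.cc' k - P.cp (k + 1))) := by
    unfold s
    rw [P.eps_eq k]
    ring
  have h1 := P.norm_s1 k
  have h2 := P.norm_s2 k
  have h3 := P.norm_s3 k
  have h4 := P.norm_s4 k
  have h5 := P.norm_s5 k
  have h6 : (1 / 2 : ℝ) ^ (P.A (k + 1) + k + 11) = 8 * (1 / 2) ^ (P.A (k + 1) + k + 14) := by
    rw [show P.A (k + 1) + k + 14 = (P.A (k + 1) + k + 11) + 3 by ring, pow_add _ _ 3]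
    ring
  have h7 : (0:ℝ) ≤ (1 / 2) ^ (P.A (k + 1) + k + 14) := by positivity
  rw [hdec, h6]
  refine (norm_add_le _ _).trans ?_
  have g1 := norm_add_le (sig * P.R k * (1 - P.Ph (k + 1)) + P.X k * P.e1 (k + 1)
      + P.X k * (P.e2 (k + 1) - ((xs (P.I (k + 1)) 0 : ℝ) : ℂ) • kap (P.q (k + 1))))
      (P.X k * (sig * (P.vv k - vq (P.q (k + 1))) * P.cc' k))
  have g2 := norm_add_le (sig * P.R k * (1 - P.Ph (k + 1)) + P.X k * P.e1 (k + 1))
      (P.X k * (P.e2 (k + 1) - ((xs (P.I (k + 1)) 0 : ℝ) : ℂ) • kap (P.q (k + 1))))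
  have g3 := norm_add_le (sig * P.R k * (1 - P.Ph (k + 1))) (P.X k * P.e1 (k + 1))
  linarith

theorem norm_Ph_le (k : ℕ) : ‖P.Ph k‖ ≤ 2 ^ P.L k - 3 := by
  have h := P.norm_Ph_sub k
  have h1 : P.Ph k = (P.Ph k - 1) + 1 := by ring
  rw [h1]
  refine (norm_add_le _ _).trans ?_
  rw [norm_one]
  linarith

theorem norm_s_le_one (k : ℕ) : ‖P.s k‖ ≤ 1 :=
  (P.norm_s_le k).trans (pow_le_one₀ (by norm_num) (by norm_num))

theorem norm_F_le (k : ℕ) : ‖P.F k‖ ≤ 2 ^ P.A k := by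
  induction k with
  | zero =>
      unfold F R
      rw [Finset.sum_range_zero, mul_zero, zero_add]
      exact P.norm_X_le 0
  | succ k ih =>
      rw [P.F_succ, P.hA, pow_add]
      refine (norm_add_le _ _).trans ?_
      have h1 := (norm_mul_le (P.F k) (P.Ph (k + 1))).trans
        (mul_le_mul ih (P.norm_Ph_le (k + 1)) (norm_nonneg _) (by positivity))
      have h2 := P.norm_s_le_one k
      have h3 : (1:ℝ) ≤ 2 ^ P.A k := one_le_pow₀ (by norm_num)
      nlinarith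

/-- defect of `F k` from being unimodular -/
noncomputable def D (k : ℕ) : W := P.F k * adj (P.F k) - 1

theorem adj_D (k : ℕ) : adj (P.D k) = P.D k := by
  unfold D
  have h1 : adj (1 : W) = 1 := ext_ev fun t => by rw [ev_adj, ev_one', map_one]
  rw [adj_sub, adj_mul, adj_adj, h1, mul_comm]

theorem D_zero : P.D 0 = 0 := by
  unfold D F R
  rw [Finset.sum_range_zero, mul_zero, zero_add, X]
  refine ext_ev fun t => ?_
  rw [ev_sub, ev_mul', ev_adj, Complex.mul_conj, Complex.normSq_eq_norm_sq, ev_one', ev_zero']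
  have h : ‖ev t (mono (2 ^ P.m 0))‖ = 1 := by
    rw [ev_mono, show (((2 ^ P.m 0 : ℤ) : ℂ)) * (t * Complex.I)
      = (((2 ^ P.m 0 : ℝ) * t : ℝ) : ℂ) * Complex.I by push_cast; ring]
    exact Complex.norm_exp_ofReal_mul_I _
  rw [h]
  simp

theorem norm_D_sub (k : ℕ) : ‖P.D (k + 1) - P.D k‖ ≤ 1 / 512 * (1 / 2) ^ k := by
  have hdec : P.D (k + 1) - P.D k = P.F k * P.Ph (k + 1) * adj (P.s k)
      + P.s k * adj (P.F k * P.Ph (k + 1)) + P.s k * adj (P.s k) := by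
    unfold D
    rw [P.F_succ, adj_add, adj_mul]
    have h := P.Ph_mul_adj (k + 1)
    have h2 : P.F k * adj (P.F k) = P.F k * adj (P.F k) * (P.Ph (k + 1) * adj (P.Ph (k + 1))) := by
      rw [h, mul_one]
    rw [h2]
    ring
  have h1 : ‖P.F k * P.Ph (k + 1)‖ ≤ 2 ^ P.A (k + 1) := by
    rw [P.hA, pow_add]
    refine (norm_mul_le _ _).trans (mul_le_mul (P.norm_F_le k) ?_ (norm_nonneg _) (by positivity))
    have := P.norm_Ph_le (k + 1)
    linarith
  have h2 := P.norm_s_le k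
  have h3 : (2:ℝ) ^ P.A (k + 1) * (1 / 2) ^ (P.A (k + 1) + k + 11) = (1 / 2) ^ (k + 11) := by
    rw [add_assoc, two_pow_mul_half]
  have h4 : ‖P.F k * P.Ph (k + 1) * adj (P.s k)‖ ≤ (1 / 2) ^ (k + 11) := by
    rw [← h3]
    refine (norm_mul_le _ _).trans (mul_le_mul h1 ?_ (norm_nonneg _) (by positivity))
    rw [norm_adj]
    exact h2
  have h5 : ‖P.s k * adj (P.F k * P.Ph (k + 1))‖ ≤ (1 / 2) ^ (k + 11) := by
    rw [← h3, mul_comm]
    refine (norm_mul_le _ _).trans (mul_le_mul ?_ h2 (norm_nonneg _) (by positivity))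
    rw [norm_adj]
    exact h1
  have h6 : ‖P.s k * adj (P.s k)‖ ≤ (1 / 2) ^ (k + 11) := by
    refine (norm_mul_le _ _).trans ?_
    rw [norm_adj]
    have h7 : ‖P.s k‖ ≤ (1 / 2) ^ (k + 11) := by
      refine h2.trans (pow_le_pow_of_le_one (by norm_num) (by norm_num) (by omega))
    calc ‖P.s k‖ * ‖P.s k‖ ≤ (1 / 2) ^ (k + 11) * 1 :=
          mul_le_mul h7 (P.norm_s_le_one k) (norm_nonneg _) (by positivity)
      _ = _ := mul_one _
  have h8 : (1 / 2 : ℝ) ^ (k + 11) = (1 / 2048) * (1 / 2) ^ k := by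
    rw [pow_add]
    norm_num
    ring
  have h9 : (0:ℝ) ≤ (1 / 2) ^ k := by positivity
  rw [hdec]
  refine (norm_add₃_le).trans ?_
  rw [h8] at h4 h5 h6
  linarith

theorem exists_D_lim : ∃ D' : W, Tendsto P.D atTop (𝓝 D') ∧ ‖D'‖ ≤ 1 / 256 ∧ adj D' = D' := by
  have hc : CauchySeq P.D := by
    refine cauchySeq_of_le_geometric (1 / 2) (1 / 512) (by norm_num) fun k => ?_
    rw [dist_eq_norm, norm_sub_rev]
    exact P.norm_D_sub k
  obtain ⟨D', hD'⟩ := cauchySeq_tendsto_of_complete hc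
  refine ⟨D', hD', ?_, ?_⟩
  · have h := dist_le_of_le_geometric_of_tendsto₀ (1 / 2) (1 / 512) (by norm_num)
      (fun k => by
        rw [dist_eq_norm, norm_sub_rev]
        exact P.norm_D_sub k) hD'
    rw [P.D_zero, dist_zero_left] at h
    exact h.trans (by norm_num)
  · have hcont : Continuous (adj : W → W) := by
      have : LipschitzWith 1 (adj : W → W) := LipschitzWith.of_dist_le_mul fun f g => by
        rw [dist_eq_norm, dist_eq_norm, ← adj_sub, norm_adj, NNReal.coe_one, one_mul]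
      exact this.continuous
    have h1 := (hcont.tendsto D').comp hD'
    have h2 : (adj ∘ P.D) = P.D := by
      funext k
      exact P.adj_D k
    rw [h2] at h1
    exact tendsto_nhds_unique h1 hD'

theorem norm_G_sub (k : ℕ) : ‖(1 - mono 1) * P.F (k + 1) - (1 - mono 1) * P.F k‖
    ≤ 1 / 512 * (1 / 2) ^ k := by
  have hp := P.hp (k + 1)
  have hdec : (1 - mono 1) * P.F (k + 1) - (1 - mono 1) * P.F k
      = -(((1 - mono 1) * kap (P.p (k + 1) - 1)) * (P.F k * (1 - P.Ph (k + 1))))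
        + (1 - mono 1) * P.s k := by
    have h := P.kap_mul_Ph (k + 1)
    have h2 : ((1 - mono 1) * kap (P.p (k + 1) - 1)) * (P.F k * (1 - P.Ph (k + 1)))
        = (1 - mono 1) * P.F k * (1 - P.Ph (k + 1)) := by
      calc ((1 - mono 1) * kap (P.p (k + 1) - 1)) * (P.F k * (1 - P.Ph (k + 1)))
          = (1 - mono 1) * P.F k * (kap (P.p (k + 1) - 1) * (1 - P.Ph (k + 1))) := by ring
        _ = _ := by rw [h]
    rw [h2, P.F_succ]
    ring
  have h1 := norm_one_sub_mono_mul_kap (q := P.p (k + 1) - 1) (by omega) 1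
  rw [Int.cast_one, abs_one, mul_one] at h1
  have h2 : ‖P.F k * (1 - P.Ph (k + 1))‖ ≤ 2 ^ P.A k * 2 ^ P.L (k + 1) :=
    (norm_mul_le _ _).trans (mul_le_mul (P.norm_F_le k) (P.norm_one_sub_Ph _) (norm_nonneg _)
      (by positivity))
  have h3 : ‖((1 - mono 1) * kap (P.p (k + 1) - 1)) * (P.F k * (1 - P.Ph (k + 1)))‖
      ≤ (1 / 2) ^ (k + 11) := by
    refine (norm_mul_le _ _).trans ((mul_le_mul h1 h2 (norm_nonneg _) (by positivity)).trans ?_)
    have h4 : (20:ℝ) / 2 ^ (P.p (k + 1) - 1) * (2 ^ P.A k * 2 ^ P.L (k + 1))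
        ≤ 2 ^ (5 + (P.A k + P.L (k + 1))) / 2 ^ (P.p (k + 1) - 1) := by
      rw [div_mul_eq_mul_div]
      refine div_le_div_of_nonneg_right ?_ (by positivity)
      rw [pow_add _ 5, pow_add]
      exact mul_le_mul_of_nonneg_right (by norm_num) (by positivity)
    refine h4.trans (pow_ratio ?_)
    have h5 := P.hs1 k
    omega
  have h6 : ‖(1 - mono 1) * P.s k‖ ≤ 2 * (1 / 2) ^ (k + 11) := by
    refine (norm_mul_le _ _).trans (mul_le_mul ?_ ?_ (norm_nonneg _) (by norm_num))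
    · refine (norm_sub_le _ _).trans ?_
      rw [norm_one, norm_mono]
      norm_num
    · exact (P.norm_s_le k).trans (pow_le_pow_of_le_one (by norm_num) (by norm_num) (by omega))
  have h8 : (1 / 2 : ℝ) ^ (k + 11) = (1 / 2048) * (1 / 2) ^ k := by
    rw [pow_add]
    norm_num
    ring
  have h9 : (0:ℝ) ≤ (1 / 2) ^ k := by positivity
  rw [hdec]
  refine (norm_add_le _ _).trans ?_
  rw [norm_neg]
  rw [h8] at h3 h6
  linarith

theorem exists_G_lim : ∃ G : W, Tendsto (fun k => (1 - mono 1) * P.F k) atTop (𝓝 G) ∧ Ge 0 G := by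
  have hc : CauchySeq (fun k => (1 - mono 1) * P.F k) := by
    refine cauchySeq_of_le_geometric (1 / 2) (1 / 512) (by norm_num) fun k => ?_
    rw [dist_eq_norm, norm_sub_rev]
    exact P.norm_G_sub k
  obtain ⟨G, hG⟩ := cauchySeq_tendsto_of_complete hc
  refine ⟨G, hG, ?_⟩
  refine (isClosed_ge 0).mem_of_tendsto hG (Filter.Eventually.of_forall fun k => ?_)
  have h1 : Ge 0 (1 - mono 1 : W) :=
    ge_one.sub (Ge.mono_le (by norm_num) (ge_mono 1))
  have h2 := h1.mul (P.ge_F k)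
  rwa [add_zero] at h2

theorem norm_ev_F_sq (k : ℕ) (t : ℝ) : ‖ev t (P.F k)‖ ^ 2 = 1 + (ev t (P.D k)).re := by
  unfold D
  rw [ev_sub, ev_mul', ev_adj, Complex.mul_conj, Complex.normSq_eq_norm_sq, ev_one',
    Complex.sub_re, Complex.ofReal_re, Complex.one_re]
  ring

theorem ev_G {G D' : W} (hG : Tendsto (fun k => (1 - mono 1) * P.F k) atTop (𝓝 G))
    (hD : Tendsto P.D atTop (𝓝 D')) (t : ℝ) :
    ‖ev t G‖ ^ 2 = ‖1 - Complex.exp (t * Complex.I)‖ ^ 2 * (1 + (ev t D').re) := by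
  have h1 : Tendsto (fun k => ‖ev t ((1 - mono 1) * P.F k)‖ ^ 2) atTop (𝓝 (‖ev t G‖ ^ 2)) :=
    ((((continuous_ev t).tendsto G).comp hG).norm).pow 2
  have h2 : Tendsto (fun k => ‖1 - Complex.exp (t * Complex.I)‖ ^ 2 * (1 + (ev t (P.D k)).re)) atTop
      (𝓝 (‖1 - Complex.exp (t * Complex.I)‖ ^ 2 * (1 + (ev t D').re))) :=
    ((Complex.continuous_re.tendsto _).comp
      (((continuous_ev t).tendsto D').comp hD)).const_add 1 |>.const_mul _
  refine tendsto_nhds_unique (h1.congr fun k => ?_) h2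
  rw [ev_mul', norm_mul, mul_pow, P.norm_ev_F_sq, ev_sub, ev_one', ev_mono]
  simp

/-! ### product formula -/

theorem F_formula (K : ℕ) : P.F K = P.F 0 * ∏ j ∈ Finset.range K, P.Ph (0 + 1 + j)
    + ∑ i ∈ Finset.range K, P.s i * ∏ j ∈ Finset.range (K - (i + 1)), P.Ph (i + 1 + 1 + j) := by
  induction K with
  | zero => simp
  | succ K ih =>
      rw [P.F_succ, ih, Finset.sum_range_succ, Finset.prod_range_succ]
      have h1 : ∀ i ∈ Finset.range K,
          P.s i * ∏ j ∈ Finset.range (K + 1 - (i + 1)), P.Ph (i + 1 + 1 + j)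
          = (P.s i * ∏ j ∈ Finset.range (K - (i + 1)), P.Ph (i + 1 + 1 + j)) * P.Ph (K + 1) := by
        intro i hi
        have hi' := Finset.mem_range.1 hi
        rw [show K + 1 - (i + 1) = (K - (i + 1)) + 1 by omega, Finset.prod_range_succ,
          show i + 1 + 1 + (K - (i + 1)) = K + 1 by omega]
        ring
      rw [Finset.sum_congr rfl h1, ← Finset.sum_mul, Nat.sub_self, Finset.prod_range_zero, mul_one,
        show 0 + 1 + K = K + 1 by ring]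
      ring

/-- `l^4` multiplier bound for `F K` from the bounds for products of stage symbols -/
theorem n4_F_le {C : ℝ} (hC : 0 ≤ C)
    (h : ∀ i K f, n4 ((∏ j ∈ Finset.range K, P.Ph (i + 1 + j)) * f) ≤ C * n4 f) (K : ℕ) (f : W) :
    n4 (P.F K * f) ≤ 2 * C * n4 f := by
  have hF0 : ‖P.F 0‖ ≤ 1 := by
    have := P.norm_F_le 0
    rwa [P.hA0, pow_zero] at this
  have hn := n4_nonneg f
  rw [P.F_formula, add_mul, Finset.sum_mul]
  refine (n4_add_le _ _).trans ?_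
  have h1 : n4 (P.F 0 * (∏ j ∈ Finset.range K, P.Ph (0 + 1 + j)) * f) ≤ C * n4 f := by
    rw [mul_assoc]
    refine (n4_mul_le _ _).trans ?_
    have := h 0 K f
    have h0 := n4_nonneg ((∏ j ∈ Finset.range K, P.Ph (0 + 1 + j)) * f)
    nlinarith
  have h2 : n4 (∑ i ∈ Finset.range K, P.s i *
      (∏ j ∈ Finset.range (K - (i + 1)), P.Ph (i + 1 + 1 + j)) * f)
      ≤ ∑ i ∈ Finset.range K, (1 / 2 : ℝ) ^ (i + 1) * (C * n4 f) := by
    refine (n4_sum_le _ _).trans (Finset.sum_le_sum fun i _ => ?_)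
    rw [mul_assoc]
    refine (n4_mul_le _ _).trans ?_
    refine mul_le_mul ?_ (h (i + 1) _ f) (n4_nonneg _) (by positivity)
    exact (P.norm_s_le i).trans (pow_le_pow_of_le_one (by norm_num) (by norm_num) (by omega))
  have h3 : ∑ i ∈ Finset.range K, (1 / 2 : ℝ) ^ (i + 1) ≤ 1 := by
    have h4 : ∀ K : ℕ, ∑ i ∈ Finset.range K, (1 / 2 : ℝ) ^ (i + 1) = 1 - (1 / 2) ^ K := by
      intro K
      induction K with
      | zero => simp
      | succ K ih =>
          rw [Finset.sum_range_succ, ih, pow_succ]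
          ring
    rw [h4]
    have : (0:ℝ) ≤ (1 / 2) ^ K := by positivity
    linarith
  have h5 : 0 ≤ C * n4 f := by positivity
  have h6 : ∑ i ∈ Finset.range K, (1 / 2 : ℝ) ^ (i + 1) * (C * n4 f) ≤ 1 * (C * n4 f) := by
    rw [← Finset.sum_mul]
    exact mul_le_mul_of_nonneg_right h3 h5
  linarith

end Par

end Pool.Agent.H47.Vin
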