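import Pool.Agent.H47.Vin.L

/-!
# Tails of elements with Lipschitz symbol; restriction operators
-/

namespace Pool.Agent.H47.Vin

open scoped BigOperators Real
open Filter Topology

/-- restriction as a continuous linear map -/
noncomputable def resL (s : Set ℤ) : W →L[ℂ] W :=
  LinearMap.mkContinuous
    { toFun := res s
      map_add' := res_add s
      map_smul' := fun c f => res_smul s c f } 1 (fun f => by
        rw [one_mul]; exact norm_res_le s f)

theorem resL_apply (s : Set ℤ) (f : W) : resL s f = res s f := rfl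

theorem hasSum_res {ι : Type*} {a : ι → W} {b : W} (s : Set ℤ) (h : HasSum a b) :
    HasSum (fun i => res s (a i)) (res s b) :=
  h.mapL (resL s)

theorem res_res (s t : Set ℤ) (f : W) : res s (res t f) = res (s ∩ t) f := ext_co fun n => by
  classical
  by_cases h1 : n ∈ s
  · by_cases h2 : n ∈ t
    · rw [co_res_of_mem h1, co_res_of_mem h2, co_res_of_mem (Set.mem_inter h1 h2)]
    · rw [co_res_of_mem h1, co_res_of_notMem h2, co_res_of_notMem (fun h => h2 h.2)]
  · rw [co_res_of_notMem h1, co_res_of_notMem (fun h => h1 h.1)]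

theorem norm_res_mono {s t : Set ℤ} (h : s ⊆ t) (f : W) : ‖res s f‖ ≤ ‖res t f‖ := by
  have : res s f = res s (res t f) := by rw [res_res, Set.inter_eq_left.2 h]
  rw [this]
  exact norm_res_le _ _

theorem res_Iio_of_ge {ν : ℤ} {f : W} (h : Ge ν f) : res (Set.Iio ν) f = 0 := ext_co fun n => by
  by_cases hn : n ∈ Set.Iio ν
  · rw [co_res_of_mem hn, h n hn, co_zero]
  · rw [co_res_of_notMem hn, co_zero]

theorem res_Ici_add_Iio (ν : ℤ) (f : W) : res (Set.Ici ν) f + res (Set.Iio ν) f = f := by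
  have := res_add_compl (Set.Ici ν) f
  rwa [Set.compl_Ici] at this

/-- low part of a product with a factor supported on large indices -/
theorem norm_res_mul_le {μ ν : ℤ} {B a : W} (hB : Ge μ B) :
    ‖res (Set.Iio ν) (B * a)‖ ≤ ‖B‖ * ‖res (Set.Iio (ν - μ)) a‖ := by
  have h1 : B * a = B * res (Set.Ici (ν - μ)) a + B * res (Set.Iio (ν - μ)) a := by
    rw [← mul_add, res_Ici_add_Iio]
  have h2 : res (Set.Iio ν) (B * res (Set.Ici (ν - μ)) a) = 0 := by
    refine res_Iio_of_ge ?_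
    have := hB.mul (ge_res (ν - μ) a)
    rwa [add_sub_cancel] at this
  rw [h1, res_add, h2, zero_add]
  exact (norm_res_le _ _).trans (norm_mul_le _ _)

/-- translation of the symbol -/
noncomputable def trn (h : ℝ) (f : W) : W :=
  mkW (fun n => co f n * Complex.exp (n * (h * Complex.I))) (by
    refine (summable_co f).congr fun n => ?_
    rw [norm_mul, show (n : ℂ) * (h * Complex.I) = ((n * h : ℝ) : ℂ) * Complex.I by push_cast; ring,
      Complex.norm_exp_ofReal_mul_I, mul_one])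

theorem co_trn (h : ℝ) (f : W) (n : ℤ) :
    co (trn h f) n = co f n * Complex.exp (n * (h * Complex.I)) := rfl

theorem ev_trn (s h : ℝ) (f : W) : ev s (trn h f) = ev (s + h) f := by
  rw [ev_eq, ev_eq]
  refine tsum_congr fun n => ?_
  rw [co_trn, mul_assoc, ← Complex.exp_add]
  congr 2
  push_cast
  ring

/-- Lipschitz bound on `[-pi, pi]` propagates -/
theorem lip_all {a : W} {B : ℝ}
    (h : ∀ x y, |x| ≤ π → |y| ≤ π → ‖ev x a - ev y a‖ ≤ B * |x - y|) {h0 : ℝ} (hh : 0 < h0)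
    (hh2 : h0 < 2 * π) (t : ℝ) : ‖ev (t + h0) a - ev t a‖ ≤ B * h0 := by
  obtain ⟨n, hn⟩ := exists_red t
  have e1 : ev t a = ev (t - 2 * π * n) a := (ev_periodic t n a).symm
  have e2 : ev (t + h0) a = ev (t - 2 * π * n + h0) a := by
    rw [← ev_periodic (t + h0) n a]
    congr 1
    ring
  rw [e1, e2]
  set u := t - 2 * π * n with hu
  have hpi := Real.pi_pos
  have hu2 := abs_le.1 hn
  rcases le_total (u + h0) π with h1 | h1
  · have := h (u + h0) u (abs_le.2 ⟨by linarith, h1⟩) hn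
    rw [add_sub_cancel_left, abs_of_pos hh] at this
    exact this
  · have e3 : ev (u + h0) a = ev (u + h0 - 2 * π) a := by
      have := ev_periodic (u + h0) 1 a
      rw [← this]
      congr 1
      push_cast
      ring
    have e4 : ev π a = ev (-π) a := by
      have := ev_periodic π 1 a
      rw [← this]
      congr 1
      push_cast
      ring
    have k1 := h (u + h0 - 2 * π) (-π) (abs_le.2 ⟨by linarith, by linarith⟩)
      (by rw [abs_neg, abs_of_pos hpi])
    have k2 := h π u (by rw [abs_of_pos hpi]) hn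
    rw [show u + h0 - 2 * π - -π = u + h0 - π by ring,
      abs_of_nonneg (by linarith : 0 ≤ u + h0 - π)] at k1
    rw [abs_of_nonneg (by linarith : 0 ≤ π - u)] at k2
    rw [e3, show ev (u + h0 - 2 * π) a - ev u a
      = (ev (u + h0 - 2 * π) a - ev (-π) a) + (ev π a - ev u a) by rw [e4]; ring]
    refine (norm_add_le _ _).trans ?_
    nlinarith

theorem n2_trn_sub_le {a : W} {B : ℝ} (hB : 0 ≤ B)
    (h : ∀ x y, |x| ≤ π → |y| ≤ π → ‖ev x a - ev y a‖ ≤ B * |x - y|) {h0 : ℝ} (hh : 0 < h0)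
    (hh2 : h0 < 2 * π) : n2 (trn h0 a - a) ≤ B * h0 := by
  refine le_of_sq_le_sq ?_ (by positivity)
  have h1 := ip_self_eq_integral (trn h0 a - a)
  have h2 : ∫ t in (0:ℝ)..(2 * π), ‖ev t (trn h0 a - a)‖ ^ 2
      ≤ ∫ t in (0:ℝ)..(2 * π), (B * h0) ^ 2 := by
    refine intervalIntegral.integral_mono_on (by positivity) ?_ ?_ fun t _ => ?_
    · exact ((continuous_evt _).norm.pow 2).intervalIntegrable _ _
    · exact continuous_const.intervalIntegrable _ _
    · rw [ev_sub, ev_trn]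
      exact pow_le_pow_left₀ (norm_nonneg _) (lip_all h hh hh2 t) 2
  rw [h1, intervalIntegral.integral_const, smul_eq_mul, sub_zero] at h2
  have hpi := Real.pi_pos
  exact le_of_mul_le_mul_left h2 (by positivity)

/-- Bernstein type square sum bound -/
theorem tail_sum_sq_le {a : W} {B : ℝ} (hB : 0 ≤ B)
    (h : ∀ x y, |x| ≤ π → |y| ≤ π → ‖ev x a - ev y a‖ ≤ B * |x - y|) (s : Finset ℤ) :
    ∑ n ∈ s, ((n : ℝ) ^ 2 * ‖co a n‖ ^ 2) ≤ B ^ 2 := by
  have hpi := Real.pi_pos
  have key : ∀ h0 : ℝ, 0 < h0 → h0 < 2 * π →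
      ∑ n ∈ s, (‖Complex.exp (n * (h0 * Complex.I)) - 1‖ / h0) ^ 2 * ‖co a n‖ ^ 2 ≤ B ^ 2 := by
    intro h0 hh hh2
    have h1 := n2_trn_sub_le hB h hh hh2
    have h2 : n2 (trn h0 a - a) ^ 2 ≤ (B * h0) ^ 2 := pow_le_pow_left₀ (n2_nonneg _) h1 2
    rw [n2_sq] at h2
    have h3 := (summable_sq (trn h0 a - a)).sum_le_tsum s (fun n _ => by positivity)
    have h4 : ∀ n : ℤ, (‖Complex.exp (n * (h0 * Complex.I)) - 1‖ / h0) ^ 2 * ‖co a n‖ ^ 2
        = ‖co (trn h0 a - a) n‖ ^ 2 / h0 ^ 2 := by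
      intro n
      rw [co_sub, co_trn, show co a n * Complex.exp (n * (h0 * Complex.I)) - co a n
        = (Complex.exp (n * (h0 * Complex.I)) - 1) * co a n by ring, norm_mul]
      ring
    simp_rw [h4]
    rw [← Finset.sum_div, div_le_iff₀ (by positivity)]
    calc _ ≤ _ := h3
      _ ≤ (B * h0) ^ 2 := h2
      _ = B ^ 2 * h0 ^ 2 := by ring
  have hlim : Tendsto (fun h0 : ℝ => ∑ n ∈ s, (‖Complex.exp (n * (h0 * Complex.I)) - 1‖ / h0) ^ 2
      * ‖co a n‖ ^ 2) (𝓝[>] 0) (𝓝 (∑ n ∈ s, ((n : ℝ) ^ 2 * ‖co a n‖ ^ 2))) := by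
    refine tendsto_finsetSum _ fun n _ => Tendsto.mul_const _ ?_
    have hd : HasDerivAt (fun x : ℝ => Complex.exp (n * (x * Complex.I))) (n * Complex.I) 0 := by
      have h1 : HasDerivAt (fun x : ℝ => (n : ℂ) * ((x : ℂ) * Complex.I)) (n * (1 * Complex.I)) 0 :=
        ((Complex.ofRealCLM.hasDerivAt (x := 0)).mul_const Complex.I).const_mul (n : ℂ)
      have h2 := h1.cexp
      simpa using h2
    have h2 := hd.tendsto_slope_zero_right
    have h3 := h2.norm
    have h4 : ‖(n : ℂ) * Complex.I‖ = |(n : ℝ)| := by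
      rw [norm_mul, Complex.norm_I, mul_one, Complex.norm_intCast]
    rw [h4] at h3
    have h5 := h3.pow 2
    rw [sq_abs] at h5
    refine h5.congr' ?_
    filter_upwards [self_mem_nhdsWithin] with x hx
    have hx0 : (0:ℝ) < x := hx
    rw [norm_smul, zero_add, norm_inv, Real.norm_of_nonneg hx0.le]
    simp only [Complex.ofReal_zero, zero_mul, mul_zero, Complex.exp_zero]
    rw [inv_mul_eq_div]
  refine le_of_tendsto hlim ?_
  have : Set.Ioo (0:ℝ) (2 * π) ∈ 𝓝[>] (0:ℝ) := Ioo_mem_nhdsGT (by positivity)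
  filter_upwards [this] with x hx
  exact key x hx.1 hx.2

/-- tail weights -/
noncomputable def tq (Q : ℕ) (n : ℤ) : ℝ := if (Q : ℤ) < |n| then 1 / (n : ℝ) ^ 2 else 0

theorem tq_nonneg (Q : ℕ) (n : ℤ) : 0 ≤ tq Q n := by
  unfold tq
  split_ifs <;> positivity

theorem summable_tq (Q : ℕ) : Summable (tq Q) := by
  have := (Real.summable_one_div_int_pow (p := 2)).2 (by norm_num)
  refine Summable.of_nonneg_of_le (tq_nonneg Q) (fun n => ?_) this
  unfold tq
  split_ifs
  · exact le_rfl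
  · positivity

theorem sum_nat_tail_sq {Q : ℕ} (hQ : 0 < Q) (N : ℕ) :
    ∑ n ∈ Finset.range N, (if Q < n then 1 / (n : ℝ) ^ 2 else 0) ≤ 1 / (Q : ℝ) := by
  have h1 : ∑ n ∈ Finset.range N, (if Q < n then 1 / (n : ℝ) ^ 2 else 0)
      ≤ ∑ n ∈ Finset.Ioc Q (max N Q), ((n : ℝ) ^ 2)⁻¹ := by
    rw [← Finset.sum_filter]
    refine (Finset.sum_le_sum_of_subset_of_nonneg (t := Finset.Ioc Q (max N Q)) ?_ ?_).trans
      (le_of_eq ?_)
    · intro n hn
      simp only [Finset.mem_filter, Finset.mem_range] at hn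
      simp only [Finset.mem_Ioc]
      omega
    · intro n _ _
      positivity
    · exact Finset.sum_congr rfl fun n _ => one_div _
  refine h1.trans ?_
  have h2 := sum_Ioc_inv_sq_le_sub (α := ℝ) hQ.ne' (le_max_right N Q)
  refine h2.trans ?_
  have h3 : (0:ℝ) ≤ ((max N Q : ℕ) : ℝ)⁻¹ := by positivity
  rw [one_div]
  linarith

theorem tq_nat (Q n : ℕ) : tq Q (n : ℤ) = if Q < n then 1 / (n : ℝ) ^ 2 else 0 := by
  unfold tq
  simp only [Nat.abs_cast, Nat.cast_lt, Int.cast_natCast]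

theorem tq_neg (Q : ℕ) (n : ℤ) : tq Q (-n) = tq Q n := by
  unfold tq
  simp only [abs_neg, Int.cast_neg, neg_sq]

theorem sum_tq_le {Q : ℕ} (hQ : 0 < Q) (s : Finset ℤ) : ∑ n ∈ s, tq Q n ≤ 2 / (Q : ℝ) := by
  obtain ⟨N, hN⟩ : ∃ N : ℕ, ∀ n ∈ s, n.natAbs < N := by
    refine ⟨s.sup (fun n => n.natAbs) + 1, fun n hn => ?_⟩
    exact Nat.lt_succ_of_le (Finset.le_sup (f := fun n : ℤ => n.natAbs) hn)
  have hsub : s ⊆ (Finset.range N).image (fun n : ℕ => (n : ℤ)) ∪
      (Finset.range N).image (fun n : ℕ => (-n : ℤ)) := by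
    intro n hn
    have h := hN n hn
    simp only [Finset.mem_union, Finset.mem_image, Finset.mem_range]
    rcases le_total 0 n with h0 | h0
    · exact Or.inl ⟨n.natAbs, h, by omega⟩
    · exact Or.inr ⟨n.natAbs, h, by omega⟩
  refine (Finset.sum_le_sum_of_subset_of_nonneg hsub fun n _ _ => tq_nonneg Q n).trans ?_
  have hu := Finset.sum_union_inter (f := tq Q) (s₁ := (Finset.range N).image (fun n : ℕ => (n : ℤ)))
    (s₂ := (Finset.range N).image (fun n : ℕ => (-n : ℤ)))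
  have hi : 0 ≤ ∑ n ∈ (Finset.range N).image (fun n : ℕ => (n : ℤ)) ∩
      (Finset.range N).image (fun n : ℕ => (-n : ℤ)), tq Q n :=
    Finset.sum_nonneg fun n _ => tq_nonneg Q n
  have e1 : ∑ n ∈ (Finset.range N).image (fun n : ℕ => (n : ℤ)), tq Q n ≤ 1 / (Q : ℝ) := by
    rw [Finset.sum_image (fun a _ b _ h => by simpa using h)]
    simp only [tq_nat]
    exact sum_nat_tail_sq hQ N
  have e2 : ∑ n ∈ (Finset.range N).image (fun n : ℕ => (-n : ℤ)), tq Q n ≤ 1 / (Q : ℝ) := by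
    rw [Finset.sum_image (fun a _ b _ h => by simpa using h)]
    simp only [tq_neg, tq_nat]
    exact sum_nat_tail_sq hQ N
  have e3 : 2 / (Q : ℝ) = 1 / Q + 1 / Q := by ring
  rw [e3]
  linarith

/-- tail bound for elements with Lipschitz symbol -/
theorem norm_tail_le {a : W} {B : ℝ} (hB : 0 ≤ B)
    (h : ∀ x y, |x| ≤ π → |y| ≤ π → ‖ev x a - ev y a‖ ≤ B * |x - y|) {Q : ℕ} (hQ : 0 < Q) :
    ‖res {n : ℤ | (Q : ℤ) < |n|} a‖ ≤ B * Real.sqrt (2 / Q) := by
  classical
  rw [norm_eq]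
  refine (summable_co _).tsum_le_of_sum_le fun s => ?_
  have h1 : ∑ n ∈ s, ‖co (res {n : ℤ | (Q : ℤ) < |n|} a) n‖
      = ∑ n ∈ s.filter (fun n : ℤ => (Q : ℤ) < |n|), (1 / |(n : ℝ)|) * (|(n : ℝ)| * ‖co a n‖) := by
    rw [Finset.sum_filter]
    refine Finset.sum_congr rfl fun n _ => ?_
    rw [co_res]
    simp only [Set.mem_ofPred_eq]
    split_ifs with hn
    · have : |(n : ℝ)| ≠ 0 := by
        have : n ≠ 0 := by
          rintro rfl
          simp at hn
          omega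
        simpa using this
      field_simp
    · simp
  rw [h1]
  refine le_of_sq_le_sq ?_ (by positivity)
  refine (Finset.sum_mul_sq_le_sq_mul_sq _ _ _).trans ?_
  rw [mul_pow, Real.sq_sqrt (by positivity), mul_comm (B ^ 2)]
  refine mul_le_mul ?_ ?_ (Finset.sum_nonneg fun _ _ => by positivity) (by positivity)
  · have h2 : ∑ n ∈ s.filter (fun n : ℤ => (Q : ℤ) < |n|), (1 / |(n : ℝ)|) ^ 2
        = ∑ n ∈ s, tq Q n := by
      rw [Finset.sum_filter]
      refine Finset.sum_congr rfl fun n _ => ?_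
      rw [div_pow, one_pow, sq_abs]
      rfl
    rw [h2]
    exact sum_tq_le hQ s
  · refine le_trans (le_of_eq ?_) (tail_sum_sq_le hB h (s.filter (fun n : ℤ => (Q : ℤ) < |n|)))
    refine Finset.sum_congr rfl fun n _ => ?_
    rw [mul_pow, sq_abs]

end Pool.Agent.H47.Vin
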