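import Pool.Agent.H47.Vin.Sym
import Pool.Agent.H47.Vin.Tail

/-!
# Estimates for the smooth part of a stage symbol
-/

namespace Pool.Agent.H47.Vin

open scoped BigOperators Real

/-! ### powers of trapezoids -/

theorem lip_kap {p : ℕ} (hp : 1 ≤ p) {x y : ℝ} (hx : |x| ≤ π) (hy : |y| ≤ π) :
    ‖ev x (kap p) - ev y (kap p)‖ ≤ 2 / Tp p * |x - y| := by
  rw [ev_kap hp hx, ev_kap hp hy, ← Complex.ofReal_sub, Complex.norm_real, Real.norm_eq_abs]
  have hT := Tp_pos p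
  have h1 := abs_max_sub_max_le_max 0 (min 1 (2 - 2 * |x| / Tp p)) 0 (min 1 (2 - 2 * |y| / Tp p))
  have h2 := abs_min_sub_min_le_max 1 (2 - 2 * |x| / Tp p) 1 (2 - 2 * |y| / Tp p)
  rw [sub_self, abs_zero] at h1 h2
  refine ((h1.trans_eq (max_eq_right (abs_nonneg _))).trans
    (h2.trans_eq (max_eq_right (abs_nonneg _)))).trans ?_
  have h3 : 2 - 2 * |x| / Tp p - (2 - 2 * |y| / Tp p) = 2 / Tp p * (|y| - |x|) := by ring
  rw [h3, abs_mul, abs_of_pos (by positivity : 0 < 2 / Tp p)]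
  refine mul_le_mul_of_nonneg_left ?_ (by positivity)
  rw [abs_sub_comm x y]
  exact abs_abs_sub_abs_le_abs_sub y x

theorem norm_ev_kap_le {p : ℕ} (hp : 1 ≤ p) (t : ℝ) : ‖ev t (kap p)‖ ≤ 1 := by
  obtain ⟨r, h0, h1, h2⟩ := ev_kap_real hp t
  rw [h2, Complex.norm_real, Real.norm_of_nonneg h0]
  exact h1

theorem lip_kap_pow {p : ℕ} (hp : 1 ≤ p) (j : ℕ) {x y : ℝ} (hx : |x| ≤ π) (hy : |y| ≤ π) :
    ‖ev x (kap p ^ j) - ev y (kap p ^ j)‖ ≤ j * (2 / Tp p) * |x - y| := by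
  have hT := Tp_pos p
  induction j with
  | zero => simp [pow_zero, ev_one']
  | succ j ih =>
      rw [ev_pow, ev_pow] at ih ⊢
      have h1 : ev x (kap p) ^ (j + 1) - ev y (kap p) ^ (j + 1)
          = (ev x (kap p) ^ j - ev y (kap p) ^ j) * ev x (kap p)
            + ev y (kap p) ^ j * (ev x (kap p) - ev y (kap p)) := by ring
      rw [h1]
      refine (norm_add_le _ _).trans ?_
      rw [norm_mul, norm_mul, norm_pow]
      have h2 := norm_ev_kap_le hp x
      have h3 := norm_ev_kap_le hp y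
      have h4 := lip_kap hp hx hy
      have h5 : ‖ev y (kap p)‖ ^ j ≤ 1 := pow_le_one₀ (norm_nonneg _) h3
      have h6 : ‖ev x (kap p) ^ j - ev y (kap p) ^ j‖ * ‖ev x (kap p)‖
          ≤ j * (2 / Tp p) * |x - y| * 1 :=
        mul_le_mul ih h2 (norm_nonneg _) (by positivity)
      have h7 : ‖ev y (kap p)‖ ^ j * ‖ev x (kap p) - ev y (kap p)‖ ≤ 1 * (2 / Tp p * |x - y|) :=
        mul_le_mul h5 h4 (norm_nonneg _) (by norm_num)
      push_cast
      linarith

theorem tail_kap_pow {p : ℕ} (hp : 1 ≤ p) (j : ℕ) {Q : ℕ} (hQ : 0 < Q) :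
    ‖res {n : ℤ | (Q : ℤ) < |n|} (kap p ^ j)‖ ≤ j * 2 ^ p * Real.sqrt (2 / Q) := by
  have hT := Tp_pos p
  have h := norm_tail_le (a := kap p ^ j) (B := j * (2 / Tp p)) (by positivity)
    (fun x y hx hy => lip_kap_pow hp j hx hy) hQ
  refine h.trans ?_
  refine mul_le_mul_of_nonneg_right ?_ (Real.sqrt_nonneg _)
  refine mul_le_mul_of_nonneg_left ?_ (by positivity)
  unfold Tp
  rw [div_div_eq_mul_div, mul_div_mul_left _ _ two_ne_zero]
  rw [div_le_iff₀ Real.pi_pos]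
  have := Real.pi_gt_three
  nlinarith [show (0:ℝ) < 2 ^ p by positivity]

/-! ### unimodularity -/

theorem norm_moebius {x : ℝ} (h0 : 0 < x) (h1 : x ≤ 1) {w : ℂ} (hw : ‖w‖ = 1) :
    ‖1 - (1 - w) * ((x : ℂ) / (1 + ((1 - x : ℝ) : ℂ) * w))‖ = 1 := by
  have hd := one_add_ne h0 h1 hw
  have h2 : 1 - (1 - w) * ((x : ℂ) / (1 + ((1 - x : ℝ) : ℂ) * w))
      = (((1 - x : ℝ) : ℂ) + w) / (1 + ((1 - x : ℝ) : ℂ) * w) := by
    rw [eq_div_iff hd, sub_mul, mul_assoc (1 - w), div_mul_cancel₀ _ hd]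
    push_cast
    ring
  rw [h2, norm_div, div_eq_one_iff_eq (norm_ne_zero_iff.2 hd)]
  have hww : w * (starRingEnd ℂ) w = 1 := by
    rw [Complex.mul_conj, Complex.normSq_eq_norm_sq, hw]
    simp
  have h3 : ((1 - x : ℝ) : ℂ) + w = w * (starRingEnd ℂ) (1 + ((1 - x : ℝ) : ℂ) * w) := by
    rw [map_add, map_one, map_mul, Complex.conj_ofReal, mul_add, mul_one, mul_left_comm, hww]
    ring
  rw [h3, norm_mul, hw, one_mul, Complex.norm_conj]

theorem norm_ev_Phi {p r I m : ℕ} (hp : 1 ≤ p) (hpm : p ≤ m) (hr : 1 ≤ r) (hI : 1 ≤ I) {t : ℝ}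
    (ht : |t| ≤ π) : ‖ev t (Phi p r I m)‖ = 1 := by
  classical
  rcases le_or_gt (Tp p) |t| with h | h
  · rw [ev_Phi_out hp hpm h ht, norm_one]
  · set P : ℕ → Prop := fun u => u = 0 ∨ |t| ≤ Tp (p + u * r + 1) with hP
    have hP0 : P 0 := Or.inl rfl
    set u := Nat.findGreatest P (I - 1) with hu
    have hu1 : u ≤ I - 1 := Nat.findGreatest_le _
    have hPu : P u := Nat.findGreatest_spec (m := 0) (Nat.zero_le _) hP0
    have huI : u < I := by omega
    have h2 : u + 1 = I ∨ Tp (p + (u + 2) * r) ≤ |t| := by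
      by_cases hc : u + 1 = I
      · exact Or.inl hc
      · right
        have hnot : ¬ P (u + 1) :=
          Nat.findGreatest_is_greatest (n := I - 1) (k := u + 1) (by rw [← hu]; omega) (by omega)
        have h3 : Tp (p + (u + 1) * r + 1) < |t| := by
          by_contra hcon
          exact hnot (Or.inr (not_lt.1 hcon))
        refine (Tp_anti ?_).trans h3.le
        have : (u + 2) * r = (u + 1) * r + r := by ring
        omega
    rw [ev_Phi_band hp hpm huI h hPu h2]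
    obtain ⟨c, hc0, hc1, hc⟩ := ev_kap_real (p := p + (u + 1) * r) (by omega) t
    rw [ev_sub, ev_mul', ev_sub, ev_one',
      ev_gb (xs_pos _ _) (xs_step huI) (norm_kap_le (by omega)) hc0 hc1 hc]
    have hx := xs_pos I u
    have hx1 := xs_step huI
    refine norm_moebius (by positivity) ?_ (norm_expM _ t)
    refine le_trans ?_ hx1
    exact mul_le_mul_of_nonneg_left (by linarith) hx.le

theorem Phi_mul_adj {p r I m : ℕ} (hp : 1 ≤ p) (hpm : p ≤ m) (hr : 1 ≤ r) (hI : 1 ≤ I) :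
    Phi p r I m * adj (Phi p r I m) = 1 := by
  refine ext_pi fun t ht => ?_
  rw [ev_mul', ev_adj, Complex.mul_conj, Complex.normSq_eq_norm_sq,
    norm_ev_Phi hp hpm hr hI ht, ev_one']
  simp

/-! ### coefficients of the smooth part below `M / 2` -/

theorem norm_w (M : ℕ) : ‖mono (M : ℤ)‖ = 1 := norm_mono _

theorem ge_one_sub_mul_Gc {M : ℕ} {x : ℝ} (h0 : 0 < x) (h1 : x ≤ 1) :
    Ge (M : ℤ) ((1 - mono (M : ℤ)) * Gc M x - (x : ℂ) • 1) := by
  have h := Gc_identity (M := M) h0 h1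
  have h2 : (1 - mono (M : ℤ)) * Gc M x - (x : ℂ) • 1
      = -(mono (M : ℤ) * ((1 + ((1 - x : ℝ) : ℂ) • (1 : W)) * Gc M x)) := by
    rw [← h]
    simp only [Algebra.smul_def]
    ring
  rw [h2]
  have h3 : Ge ((M : ℤ) + 0) (mono (M : ℤ) * ((1 + ((1 - x : ℝ) : ℂ) • (1 : W)) * Gc M x)) := by
    refine (ge_mono _).mul ?_
    have h4 : Ge (0 + 0) ((1 + ((1 - x : ℝ) : ℂ) • (1 : W)) * Gc M x) :=
      (ge_one.add (ge_one.smul _)).mul (ge_Gc M x)
    exact h4
  rw [add_zero] at h3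
  have h5 := (ge_zero (M : ℤ)).sub h3
  rwa [zero_sub] at h5

theorem Ge.pow' {f : W} (hf : Ge 0 f) (n : ℕ) : Ge 0 (f ^ n) := by
  induction n with
  | zero => rw [pow_zero]; exact ge_one
  | succ n ih =>
      rw [pow_succ]
      have := ih.mul hf
      rwa [add_zero] at this

theorem hasSum_nb {M : ℕ} {x : ℝ} {κ : W} (h0 : 0 < x) (h1 : x ≤ 1) (hκ : ‖κ‖ ≤ 3) :
    HasSum (fun n : ℕ => ((1 / 64 : ℂ) • (mono (M : ℤ) * Gc M x * κ)) ^ (n + 1)) (nb M x κ - 1) := by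
  have h := (summable_nb (M := M) h0 h1 hκ).hasSum
  have h2 := (hasSum_nat_add_iff' 1).2 h
  simpa [nb] using h2

/-- the low part of a band difference -/
theorem norm_res_band {M p Q : ℕ} {x : ℝ} (hp : 1 ≤ p) (h0 : 0 < x) (h1 : x ≤ 1)
    (hQ : 0 < Q) {ν : ℤ} (hν : (Q : ℤ) < ν) (hν2 : ν - M < -(Q : ℤ)) :
    ‖res (Set.Iio ν) ((1 - mono (M : ℤ)) * (gb M x (kap p) - Gc M x))
      - ((x / 64 : ℝ) : ℂ) • kap p‖ ≤ 2 ^ p * Real.sqrt (2 / Q) := by
  set κ := kap p with hκdef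
  have hκ : ‖κ‖ ≤ 3 := norm_kap_le hp
  set w := mono (M : ℤ) with hw
  set G := Gc M x with hG
  set τ := 2 ^ p * Real.sqrt (2 / Q) with hτ
  have hτ0 : 0 ≤ τ := by positivity
  have htail : ∀ j : ℕ, ‖res (Set.Iio (ν - M)) (κ ^ j)‖ ≤ j * τ := by
    intro j
    have h := tail_kap_pow hp j hQ
    refine (norm_res_mono ?_ _).trans (h.trans (le_of_eq (by rw [hτ]; ring)))
    intro n hn
    have hn' : n < ν - M := hn
    show (Q : ℤ) < |n|
    have : n < -(Q : ℤ) := by omega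
    rw [lt_abs]
    right
    omega
  have htail2 : ‖res (Set.Ici ν) κ‖ ≤ τ := by
    have h := tail_kap_pow hp 1 hQ
    rw [pow_one] at h
    refine (norm_res_mono ?_ _).trans (h.trans (le_of_eq (by rw [hτ]; push_cast; ring)))
    intro n hn
    have hn' : ν ≤ n := hn
    show (Q : ℤ) < |n|
    exact lt_of_lt_of_le (by omega) (le_abs_self n)
  have hGn : ‖G‖ ≤ 1 := norm_Gc_le h0 h1
  have hwn : ‖w‖ = 1 := norm_mono _
  -- decomposition
  set B0 := (1 - w) * G - (x : ℂ) • (1 : W) with hB0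
  have hgeB0 : Ge (M : ℤ) B0 := ge_one_sub_mul_Gc h0 h1
  have hB0n : ‖B0‖ ≤ 3 := by
    refine (norm_sub_le _ _).trans ?_
    have e1 : ‖(1 - w) * G‖ ≤ 2 * 1 := by
      refine (norm_mul_le _ _).trans (mul_le_mul ?_ hGn (norm_nonneg _) (by norm_num))
      refine (norm_sub_le _ _).trans ?_
      rw [norm_one, hwn]
      norm_num
    have e2 : ‖(x : ℂ) • (1 : W)‖ ≤ 1 := by
      rw [norm_smul, norm_one, mul_one, Complex.norm_real, Real.norm_of_nonneg h0.le]
      exact h1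
    linarith
  set Bn : ℕ → W := fun n => ((1 / 64 : ℂ) ^ (n + 1)) • ((1 - w) * G * (w * G) ^ (n + 1)) with hBn
  set κn : ℕ → W := fun n => κ ^ (n + 1) + (1 / 64 : ℂ) • κ ^ (n + 2) with hκn
  have hgeB : ∀ n, Ge (M : ℤ) (Bn n) := by
    intro n
    refine Ge.smul _ ?_
    have e : (1 - w) * G * (w * G) ^ (n + 1) = w * ((1 - w) * G * G * (w * G) ^ n) := by ring
    rw [e]
    have g1 : Ge 0 (w : W) := Ge.mono_le (by positivity) (ge_mono _)
    have g2 : Ge 0 G := ge_Gc M x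
    have g3 : Ge 0 ((1 - w) * G * G * (w * G) ^ n) := by
      have a1 := (((ge_one.sub g1).mul g2).mul g2).mul (Ge.pow' (f := w * G) (by
        have := g1.mul g2
        rwa [add_zero] at this) n)
      simpa using a1
    have := (ge_mono (M : ℤ)).mul g3
    rwa [add_zero] at this
  have hBnn : ∀ n, ‖Bn n‖ ≤ 2 * (1 / 64 : ℝ) ^ (n + 1) := by
    intro n
    rw [hBn]
    simp only
    rw [norm_smul, norm_pow]
    have e3 : ‖(1 / 64 : ℂ)‖ = 1 / 64 := by norm_num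
    rw [e3, mul_comm]
    refine mul_le_mul_of_nonneg_right ?_ (by positivity)
    have e1 : ‖(1 - w) * G‖ ≤ 2 := by
      have := (norm_mul_le (1 - w) G).trans (mul_le_mul
        (show ‖1 - w‖ ≤ 2 by
          refine (norm_sub_le _ _).trans ?_
          rw [norm_one, hwn]
          norm_num) hGn (norm_nonneg _) (by norm_num))
      linarith
    have e2 : ‖(w * G) ^ (n + 1)‖ ≤ 1 := by
      refine (norm_pow_le _ _).trans (pow_le_one₀ (norm_nonneg _) ?_)
      refine (norm_mul_le _ _).trans ?_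
      rw [hwn, one_mul]
      exact hGn
    calc ‖(1 - w) * G * (w * G) ^ (n + 1)‖ ≤ ‖(1 - w) * G‖ * ‖(w * G) ^ (n + 1)‖ := norm_mul_le _ _
      _ ≤ 2 * 1 := mul_le_mul e1 e2 (norm_nonneg _) (by norm_num)
      _ = 2 := by norm_num
  have hκnn : ∀ n, ‖res (Set.Iio (ν - M)) (κn n)‖ ≤ 2 * (n + 1) * τ := by
    intro n
    rw [hκn]
    simp only
    rw [res_add, res_smul]
    refine (norm_add_le _ _).trans ?_
    rw [norm_smul]
    have e3 : ‖(1 / 64 : ℂ)‖ = 1 / 64 := by norm_num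
    rw [e3]
    have t1 := htail (n + 1)
    have t2 := htail (n + 2)
    push_cast at t1 t2
    nlinarith [mul_nonneg (show (0:ℝ) ≤ n by positivity) hτ0]
  have hdec : (1 - w) * (gb M x κ - G)
      = ((x / 64 : ℝ) : ℂ) • κ + B0 * ((1 / 64 : ℂ) • κ)
        + (1 - w) * ((1 + (1 / 64 : ℂ) • κ) * G) * (nb M x κ - 1) := by
    unfold gb
    rw [hB0, ← hG]
    simp only [Algebra.smul_def]
    have hc : (algebraMap ℂ W) ((x / 64 : ℝ) : ℂ)
        = (algebraMap ℂ W) (x : ℂ) * (algebraMap ℂ W) (1 / 64) := by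
      rw [← map_mul]
      congr 1
      push_cast
      ring
    rw [hc]
    ring
  have hsum : HasSum (fun n => Bn n * κn n)
      ((1 - w) * ((1 + (1 / 64 : ℂ) • κ) * G) * (nb M x κ - 1)) := by
    have h := (hasSum_nb (M := M) h0 h1 hκ).mul_left ((1 - w) * ((1 + (1 / 64 : ℂ) • κ) * G))
    have e : (fun n => Bn n * κn n) = fun n => (1 - w) * ((1 + (1 / 64 : ℂ) • κ) * G) *
        ((1 / 64 : ℂ) • (mono (M : ℤ) * Gc M x * κ)) ^ (n + 1) := by
      funext n
      rw [hBn, hκn]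
      simp only [Algebra.smul_def, map_pow, ← hG, ← hw]
      ring
    rw [e]
    exact h
  have hres : ‖res (Set.Iio ν) ((1 - w) * ((1 + (1 / 64 : ℂ) • κ) * G) * (nb M x κ - 1))‖
      ≤ 4 * τ * (1 / 60) := by
    have h1 := hasSum_res (Set.Iio ν) hsum
    have hb : HasSum (fun n : ℕ => 4 * τ * ((n + 1 : ℕ) * (1 / 64 : ℝ) ^ (n + 1)))
        (4 * τ * ((1 / 64) / (1 - 1 / 64) ^ 2)) := by
      have := hasSum_coe_mul_geometric_of_norm_lt_one (r := (1 / 64 : ℝ)) (by norm_num)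
      have h2 := (hasSum_nat_add_iff' 1).2 this
      simp only [Finset.range_one, Finset.sum_singleton, CharP.cast_eq_zero, zero_mul, sub_zero] at h2
      exact h2.mul_left _
    have h3 := tsum_of_norm_bounded hb (f := fun n => res (Set.Iio ν) (Bn n * κn n)) (fun n => by
      refine (norm_res_mul_le (hgeB n)).trans ?_
      refine (mul_le_mul (hBnn n) (hκnn n) (norm_nonneg _) (by positivity)).trans (le_of_eq ?_)
      push_cast
      ring)
    rw [h1.tsum_eq] at h3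
    refine h3.trans ?_
    refine mul_le_mul_of_nonneg_left (by norm_num) (by positivity)
  rw [hdec, res_add, res_add, res_smul]
  have hκsplit : res (Set.Iio ν) κ = κ - res (Set.Ici ν) κ := by
    exact eq_sub_of_add_eq' (res_Ici_add_Iio ν κ)
  rw [hκsplit, smul_sub]
  have hfin : ((x / 64 : ℝ) : ℂ) • κ - ((x / 64 : ℝ) : ℂ) • res (Set.Ici ν) κ
      + res (Set.Iio ν) (B0 * ((1 / 64 : ℂ) • κ))
      + res (Set.Iio ν) ((1 - w) * ((1 + (1 / 64 : ℂ) • κ) * G) * (nb M x κ - 1))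
      - ((x / 64 : ℝ) : ℂ) • κ
      = -(((x / 64 : ℝ) : ℂ) • res (Set.Ici ν) κ) + res (Set.Iio ν) (B0 * ((1 / 64 : ℂ) • κ))
      + res (Set.Iio ν) ((1 - w) * ((1 + (1 / 64 : ℂ) • κ) * G) * (nb M x κ - 1)) := by
    abel
  rw [hfin]
  refine (norm_add₃_le).trans ?_
  have c1 : ‖-(((x / 64 : ℝ) : ℂ) • res (Set.Ici ν) κ)‖ ≤ 1 / 64 * τ := by
    rw [norm_neg, norm_smul, Complex.norm_real, Real.norm_of_nonneg (by positivity)]
    exact mul_le_mul (by linarith) htail2 (norm_nonneg _) (by norm_num)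
  have c2 : ‖res (Set.Iio ν) (B0 * ((1 / 64 : ℂ) • κ))‖ ≤ 3 * (1 / 64 * τ) := by
    refine (norm_res_mul_le hgeB0).trans ?_
    refine mul_le_mul hB0n ?_ (norm_nonneg _) (by norm_num)
    rw [res_smul, norm_smul]
    have e3 : ‖(1 / 64 : ℂ)‖ = 1 / 64 := by norm_num
    rw [e3]
    have := htail 1
    rw [pow_one] at this
    push_cast at this
    linarith
  linarith

end Pool.Agent.H47.Vin
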